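import Pool.Agent.Helper32.CG.FreeDefs

/-!
# Project CG, module AugFree

If `N` is free on the images `φ (of x)` and `L` is `N`-stable, then every element of `aug B N L`
is a finite sum `∑_x (x a_x - a_x)` with `a_x ∈ L`.

Proof. The set `T` of all such sums is a `B`-submodule (`Finsupp.sum_add_index'`,
`Finsupp.sum_smul_index'`). It suffices (`Submodule.span_le`) that `n y - y ∈ T` for all `n ∈ N`,
`y ∈ L`. The set of `w : FreeGroup X` with `∀ y ∈ L, φ(w) y - y ∈ T` contains the generators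
(`f = single x y`), is closed under products: `w w' y - y = (w (w' y) - w' y) + (w' y - y)`, and
under inverses: `w⁻¹ y - y = - (w (w⁻¹ y) - w⁻¹ y)`. Use `FreeGroup.induction_on`.
-/

namespace CG

variable {B : Type} [CommRing B] {Γ : Type} [Group Γ] {Y : Type} [MulAction Γ Y]

/-- The set of sums `∑_x (x a_x - a_x)` with `a_x ∈ L`, as a submodule. -/
noncomputable def augFreeT {X : Type} {N : Subgroup Γ} (φ : FreeGroup X ≃* ↥N)
    (L : Submodule B (Y →₀ B)) : Submodule B (Y →₀ B) where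
  carrier := {m | ∃ f : X →₀ (Y →₀ B), (∀ x, f x ∈ L) ∧
      m = f.sum fun x a => tr B ((φ (FreeGroup.of x) : ↥N) : Γ) a - a}
  zero_mem' := ⟨0, fun x => by simp, by simp⟩
  add_mem' := by
    rintro a b ⟨f, hf, rfl⟩ ⟨g, hg, rfl⟩
    refine ⟨f + g, fun x => by simpa using L.add_mem (hf x) (hg x), ?_⟩
    rw [Finsupp.sum_add_index']
    · intro x; simp
    · intro x u v
      rw [map_add]; abel
  smul_mem' := by
    rintro c _ ⟨f, hf, rfl⟩
    refine ⟨c • f, fun x => by simpa using L.smul_mem c (hf x), ?_⟩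
    rw [Finsupp.sum_smul_index' (by intro x; simp), Finsupp.smul_sum]
    refine Finsupp.sum_congr fun x _ => ?_
    rw [map_smul, smul_sub]

theorem augFree_key {X : Type} {N : Subgroup Γ} (φ : FreeGroup X ≃* ↥N)
    {L : Submodule B (Y →₀ B)} (hL : Stb B N L) (w : FreeGroup X) :
    ∀ y ∈ L, tr B ((φ w : ↥N) : Γ) y - y ∈ augFreeT φ L := by
  induction w using FreeGroup.induction_on with
  | C1 => intro y _; simp
  | of x =>
    intro y hy
    refine ⟨Finsupp.single x y, fun z => ?_, ?_⟩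
    · classical
      rw [Finsupp.single_apply]
      split_ifs
      · exact hy
      · exact L.zero_mem
    · rw [Finsupp.sum_single_index (by simp)]
  | inv_of x ih =>
    intro y hy
    have h1 : tr B ((φ (FreeGroup.of x)⁻¹ : ↥N) : Γ) y ∈ L := hL _ (SetLike.coe_mem _) y hy
    have h2 := ih _ h1
    have h3 := (augFreeT φ L).neg_mem h2
    rw [map_inv, Subgroup.coe_inv, tr_tr_inv] at h3
    rw [map_inv, Subgroup.coe_inv]
    have e : tr B (((φ (FreeGroup.of x) : ↥N) : Γ))⁻¹ y - y =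
        -(y - tr B (((φ (FreeGroup.of x) : ↥N) : Γ))⁻¹ y) := by abel
    rw [e]
    exact h3
  | mul u v hu hv =>
    intro y hy
    have h1 : tr B ((φ v : ↥N) : Γ) y ∈ L := hL _ (SetLike.coe_mem _) y hy
    have h2 := (augFreeT φ L).add_mem (hu _ h1) (hv _ hy)
    have e : tr B ((φ (u * v) : ↥N) : Γ) y - y =
        (tr B ((φ u : ↥N) : Γ) (tr B ((φ v : ↥N) : Γ) y) - tr B ((φ v : ↥N) : Γ) y) +
          (tr B ((φ v : ↥N) : Γ) y - y) := by
      rw [map_mul, Subgroup.coe_mul, tr_mul]; abel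
    rw [e]
    exact h2

theorem aug_free {X : Type} {N : Subgroup Γ} (φ : FreeGroup X ≃* ↥N)
    {L : Submodule B (Y →₀ B)} (hL : Stb B N L) {m : Y →₀ B} (hm : m ∈ aug B N L) :
    ∃ f : X →₀ (Y →₀ B), (∀ x, f x ∈ L) ∧
      m = f.sum fun x a => tr B ((φ (FreeGroup.of x) : ↥N) : Γ) a - a := by
  have h : aug B N L ≤ augFreeT φ L := by
    refine Submodule.span_le.2 ?_
    rintro _ ⟨n, hn, y, hy, rfl⟩
    have := augFree_key φ hL (φ.symm ⟨n, hn⟩) y hy
    rw [MulEquiv.apply_symm_apply] at this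
    exact this
  exact h hm

end CG
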