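import Pool.Agent.Helper32.CG.Defs

/-! Project CG: basic API (proved). -/

namespace CG

section tr

variable {B : Type} [CommRing B] {Γ : Type} [Group Γ] {Y : Type} [MulAction Γ Y]

@[simp] theorem tr_single (g : Γ) (y : Y) (b : B) :
    tr B g (Finsupp.single y b) = Finsupp.single (g • y) b := by
  simp [tr, Finsupp.lmapDomain_apply, Finsupp.mapDomain_single]

theorem tr_apply (g : Γ) (m : Y →₀ B) (y : Y) : tr B g m y = m (g⁻¹ • y) := by
  have h : y = g • (g⁻¹ • y) := by simp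
  conv_lhs => rw [h]
  simp only [tr, Finsupp.lmapDomain_apply]
  exact Finsupp.mapDomain_apply (MulAction.injective g) m (g⁻¹ • y)

@[simp] theorem tr_one (m : Y →₀ B) : tr B (1 : Γ) m = m := by
  ext y; simp [tr_apply]

theorem tr_mul (g h : Γ) (m : Y →₀ B) : tr B (g * h) m = tr B g (tr B h m) := by
  ext y; simp [tr_apply, mul_smul]

@[simp] theorem tr_inv_tr (g : Γ) (m : Y →₀ B) : tr B g⁻¹ (tr B g m) = m := by
  rw [← tr_mul]; simp

@[simp] theorem tr_tr_inv (g : Γ) (m : Y →₀ B) : tr B g (tr B g⁻¹ m) = m := by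
  rw [← tr_mul]; simp

theorem tr_injective (g : Γ) : Function.Injective (tr B g : (Y →₀ B) →ₗ[B] (Y →₀ B)) := by
  intro a b h
  have := congrArg (tr B g⁻¹) h
  simpa using this

/-- Translation by an element of a subgroup acting by restriction. -/
theorem tr_coe {F : Subgroup Γ} (f : ↥F) (m : Y →₀ B) : tr B (f : ↥F) m = tr B (f : Γ) m := by
  ext y
  rw [tr_apply, tr_apply]
  rfl

theorem mem_supp {S : Set Y} {m : Y →₀ B} :
    m ∈ Finsupp.supported B B S ↔ ∀ y, m y ≠ 0 → y ∈ S := by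
  rw [Finsupp.mem_supported]
  constructor
  · intro h y hy
    exact h (by simpa using hy)
  · intro h y hy
    exact h y (by simpa using hy)

/-- `supported` is stable under a group preserving the set. -/
theorem stb_supported {H : Subgroup Γ} {S : Set Y} (hS : ∀ h ∈ H, ∀ y ∈ S, h • y ∈ S) :
    Stb B H (Finsupp.supported B B S) := by
  intro h hh m hm
  rw [mem_supp] at hm ⊢
  intro y hy
  rw [tr_apply] at hy
  have := hS h hh _ (hm _ hy)
  simpa using this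

/-- translation moves `supported S` into `supported S'` if `g • S ⊆ S'`. -/
theorem tr_mem_supported {S S' : Set Y} {g : Γ} (h : ∀ y ∈ S, g • y ∈ S') {m : Y →₀ B}
    (hm : m ∈ Finsupp.supported B B S) : tr B g m ∈ Finsupp.supported B B S' := by
  rw [mem_supp] at hm ⊢
  intro y hy
  rw [tr_apply] at hy
  have := h _ (hm _ hy)
  simpa using this

theorem Stb.mono {H H' : Subgroup Γ} (h : H ≤ H') {L : Submodule B (Y →₀ B)} (hL : Stb B H' L) :
    Stb B H L := fun x hx y hy => hL x (h hx) y hy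

theorem Stb.inf {H : Subgroup Γ} {L L' : Submodule B (Y →₀ B)} (hL : Stb B H L)
    (hL' : Stb B H L') : Stb B H (L ⊓ L') :=
  fun x hx y hy => ⟨hL x hx y hy.1, hL' x hx y hy.2⟩

theorem Stb.sup {H : Subgroup Γ} {L L' : Submodule B (Y →₀ B)} (hL : Stb B H L)
    (hL' : Stb B H L') : Stb B H (L ⊔ L') := by
  intro x hx y hy
  obtain ⟨a, ha, b, hb, rfl⟩ := Submodule.mem_sup.1 hy
  rw [map_add]
  exact Submodule.add_mem_sup (hL x hx a ha) (hL' x hx b hb)

theorem Stb.iSup {ι : Type} {H : Subgroup Γ} {L : ι → Submodule B (Y →₀ B)}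
    (hL : ∀ i, Stb B H (L i)) : Stb B H (⨆ i, L i) := by
  intro x hx y hy
  have : (⨆ i, L i) ≤ (⨆ i, L i).comap (tr B x) := by
    refine iSup_le fun i z hz => ?_
    exact Submodule.mem_iSup_of_mem i (hL i x hx z hz)
  exact this hy

theorem Stb.mem_iff {H : Subgroup Γ} {L : Submodule B (Y →₀ B)} (hL : Stb B H L) {h : Γ}
    (hh : h ∈ H) {m : Y →₀ B} : tr B h m ∈ L ↔ m ∈ L := by
  constructor
  · intro hm
    have := hL h⁻¹ (H.inv_mem hh) _ hm
    simpa using this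
  · exact hL h hh m

end tr

section gspan

variable {B : Type} [CommRing B] {Γ : Type} [Group Γ] {Y : Type} [MulAction Γ Y]

theorem tr_mem_gspan {H : Subgroup Γ} {s : Set (Y →₀ B)} {h : Γ} (hh : h ∈ H) {y : Y →₀ B}
    (hy : y ∈ s) : tr B h y ∈ gspan B H s :=
  Submodule.subset_span ⟨h, hh, y, hy, rfl⟩

theorem subset_gspan (H : Subgroup Γ) (s : Set (Y →₀ B)) :
    s ⊆ (gspan B H s : Set (Y →₀ B)) := by
  intro y hy
  have := tr_mem_gspan (B := B) H.one_mem hy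
  simpa using this

theorem stb_gspan (H : Subgroup Γ) (s : Set (Y →₀ B)) : Stb B H (gspan B H s) := by
  intro h hh y hy
  have : gspan B H s ≤ (gspan B H s).comap (tr B h) := by
    refine Submodule.span_le.2 ?_
    rintro _ ⟨k, hk, z, hz, rfl⟩
    change tr B h (tr B k z) ∈ gspan B H s
    rw [← tr_mul]
    exact tr_mem_gspan (H.mul_mem hh hk) hz
  exact this hy

theorem gspan_le {H : Subgroup Γ} {s : Set (Y →₀ B)} {L : Submodule B (Y →₀ B)}
    (hL : Stb B H L) (hs : s ⊆ (L : Set (Y →₀ B))) : gspan B H s ≤ L := by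
  refine Submodule.span_le.2 ?_
  rintro _ ⟨h, hh, y, hy, rfl⟩
  exact hL h hh y (hs hy)

theorem gspan_mono {H H' : Subgroup Γ} (hH : H ≤ H') {s s' : Set (Y →₀ B)} (hs : s ⊆ s') :
    gspan B H s ≤ gspan B H' s' := by
  refine Submodule.span_mono ?_
  rintro _ ⟨h, hh, y, hy, rfl⟩
  exact ⟨h, hH hh, y, hs hy, rfl⟩

theorem gspan_union (H : Subgroup Γ) (s s' : Set (Y →₀ B)) :
    gspan B H (s ∪ s') = gspan B H s ⊔ gspan B H s' := by
  apply le_antisymm
  · refine gspan_le ((stb_gspan H s).sup (stb_gspan H s')) ?_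
    rintro y (hy | hy)
    · exact Submodule.mem_sup_left (subset_gspan H s hy)
    · exact Submodule.mem_sup_right (subset_gspan H s' hy)
  · exact sup_le (gspan_mono le_rfl Set.subset_union_left)
      (gspan_mono le_rfl Set.subset_union_right)

theorem GFG.stb {H : Subgroup Γ} {L : Submodule B (Y →₀ B)} (h : GFG B H L) : Stb B H L := by
  obtain ⟨s, rfl⟩ := h
  exact stb_gspan H _

theorem GFG.mono {H H' : Subgroup Γ} (hH : H ≤ H') {L : Submodule B (Y →₀ B)} (h : GFG B H L)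
    (hL : Stb B H' L) : GFG B H' L := by
  obtain ⟨s, rfl⟩ := h
  exact ⟨s, le_antisymm (gspan_mono hH le_rfl) (gspan_le hL (subset_gspan H _))⟩

/-- To prove `GFG` it suffices to have generators up to a `GFG` submodule. -/
theorem GFG.sup {H : Subgroup Γ} {L L' : Submodule B (Y →₀ B)} (h : GFG B H L)
    (h' : GFG B H L') : GFG B H (L ⊔ L') := by
  classical
  obtain ⟨s, rfl⟩ := h
  obtain ⟨s', rfl⟩ := h'
  refine ⟨s ∪ s', ?_⟩
  rw [Finset.coe_union, gspan_union]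

theorem gfg_gspan (H : Subgroup Γ) (s : Finset (Y →₀ B)) :
    GFG B H (gspan B H (s : Set (Y →₀ B))) := ⟨s, rfl⟩

/-- Equivariant linear maps send `gspan` to `gspan`. -/
theorem map_gspan {Y' : Type} [MulAction Γ Y'] {H : Subgroup Γ} (a : (Y →₀ B) →ₗ[B] (Y' →₀ B))
    (ha : ∀ h ∈ H, ∀ m, a (tr B h m) = tr B h (a m)) (s : Set (Y →₀ B)) :
    (gspan B H s).map a = gspan B H (a '' s) := by
  rw [gspan, Submodule.map_span]
  congr 1
  ext z
  constructor
  · rintro ⟨_, ⟨h, hh, y, hy, rfl⟩, rfl⟩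
    exact ⟨h, hh, a y, ⟨y, hy, rfl⟩, ha h hh y⟩
  · rintro ⟨h, hh, _, ⟨y, hy, rfl⟩, rfl⟩
    exact ⟨tr B h y, ⟨h, hh, y, hy, rfl⟩, ha h hh y⟩

theorem GFG.map {Y' : Type} [MulAction Γ Y'] {H : Subgroup Γ} (a : (Y →₀ B) →ₗ[B] (Y' →₀ B))
    (ha : ∀ h ∈ H, ∀ m, a (tr B h m) = tr B h (a m)) {L : Submodule B (Y →₀ B)}
    (hL : GFG B H L) : GFG B H (L.map a) := by
  classical
  obtain ⟨s, rfl⟩ := hL
  refine ⟨s.image a, ?_⟩
  rw [map_gspan a ha, Finset.coe_image]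

theorem Stb.map {Y' : Type} [MulAction Γ Y'] {H : Subgroup Γ} (a : (Y →₀ B) →ₗ[B] (Y' →₀ B))
    (ha : ∀ h ∈ H, ∀ m, a (tr B h m) = tr B h (a m)) {L : Submodule B (Y →₀ B)}
    (hL : Stb B H L) : Stb B H (L.map a) := by
  rintro h hh _ ⟨y, hy, rfl⟩
  exact ⟨tr B h y, hL h hh y hy, ha h hh y⟩

theorem Stb.ker {Y' : Type} [MulAction Γ Y'] {H : Subgroup Γ} (a : (Y →₀ B) →ₗ[B] (Y' →₀ B))
    (ha : ∀ h ∈ H, ∀ m, a (tr B h m) = tr B h (a m)) : Stb B H (LinearMap.ker a) := by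
  intro h hh y hy
  rw [LinearMap.mem_ker] at hy ⊢
  rw [ha h hh, hy, map_zero]

end gspan

section aug

variable {B : Type} [CommRing B] {Γ : Type} [Group Γ] {Y : Type} [MulAction Γ Y]

theorem sub_mem_aug {N : Subgroup Γ} {L : Submodule B (Y →₀ B)} {n : Γ} (hn : n ∈ N)
    {y : Y →₀ B} (hy : y ∈ L) : tr B n y - y ∈ aug B N L :=
  Submodule.subset_span ⟨n, hn, y, hy, rfl⟩

theorem aug_le {N : Subgroup Γ} {L : Submodule B (Y →₀ B)} (hL : Stb B N L) : aug B N L ≤ L := by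
  refine Submodule.span_le.2 ?_
  rintro _ ⟨n, hn, y, hy, rfl⟩
  exact L.sub_mem (hL n hn y hy) hy

theorem aug_mono {N N' : Subgroup Γ} (hN : N ≤ N') {L L' : Submodule B (Y →₀ B)} (hL : L ≤ L') :
    aug B N L ≤ aug B N' L' := by
  refine Submodule.span_mono ?_
  rintro _ ⟨n, hn, y, hy, rfl⟩
  exact ⟨n, hN hn, y, hL hy, rfl⟩

/-- `aug` is stable under the elements normalizing `N`. -/
theorem stb_aug {H N : Subgroup Γ} (hHN : ∀ h ∈ H, ∀ n ∈ N, h * n * h⁻¹ ∈ N)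
    {L : Submodule B (Y →₀ B)} (hL : Stb B H L) : Stb B H (aug B N L) := by
  intro h hh y hy
  have : aug B N L ≤ (aug B N L).comap (tr B h) := by
    refine Submodule.span_le.2 ?_
    rintro _ ⟨n, hn, z, hz, rfl⟩
    change tr B h (tr B n z - z) ∈ aug B N L
    have e : tr B h (tr B n z - z) = tr B (h * n * h⁻¹) (tr B h z) - tr B h z := by
      rw [map_sub, ← tr_mul, ← tr_mul]
      congr 2
      group
    rw [e]
    exact sub_mem_aug (hHN h hh n hn) (hL h hh z hz)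
  exact this hy

theorem map_aug {Y' : Type} [MulAction Γ Y'] {N : Subgroup Γ} (a : (Y →₀ B) →ₗ[B] (Y' →₀ B))
    (ha : ∀ h ∈ N, ∀ m, a (tr B h m) = tr B h (a m)) (L : Submodule B (Y →₀ B)) :
    (aug B N L).map a = aug B N (L.map a) := by
  rw [aug, Submodule.map_span]
  congr 1
  ext z
  constructor
  · rintro ⟨_, ⟨n, hn, y, hy, rfl⟩, rfl⟩
    exact ⟨n, hn, a y, ⟨y, hy, rfl⟩, by rw [map_sub, ha n hn]⟩
  · rintro ⟨n, hn, _, ⟨y, hy, rfl⟩, rfl⟩
    exact ⟨tr B n y - y, ⟨n, hn, y, hy, rfl⟩, by rw [map_sub, ha n hn]⟩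

end aug

section orb

variable {Γ : Type} [Group Γ] {Y : Type} [MulAction Γ Y]

theorem orb_mono {H H' : Subgroup Γ} (hH : H ≤ H') {Z Z' : Set Y} (hZ : Z ⊆ Z') :
    orb H Z ⊆ orb H' Z' := by
  rintro _ ⟨h, hh, z, hz, rfl⟩
  exact ⟨h, hH hh, z, hZ hz, rfl⟩

theorem subset_orb (H : Subgroup Γ) (Z : Set Y) : Z ⊆ orb H Z :=
  fun z hz => ⟨1, H.one_mem, z, hz, by simp⟩

theorem smul_mem_orb {H : Subgroup Γ} {Z : Set Y} {h : Γ} (hh : h ∈ H) {y : Y}
    (hy : y ∈ orb H Z) : h • y ∈ orb H Z := by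
  obtain ⟨k, hk, z, hz, rfl⟩ := hy
  exact ⟨h * k, H.mul_mem hh hk, z, hz, by rw [mul_smul]⟩

end orb

section restrict

variable {B : Type} [CommRing B] {Γ : Type} [Group Γ] {Y : Type} [MulAction Γ Y]
  (F N : Subgroup Γ)

theorem orb_restrict (Z : Set Y) : orb (⊤ : Subgroup ↥F) Z = orb F Z := by
  ext y
  constructor
  · rintro ⟨f, -, z, hz, rfl⟩
    exact ⟨f, f.2, z, hz, rfl⟩
  · rintro ⟨f, hf, z, hz, rfl⟩
    exact ⟨⟨f, hf⟩, Subgroup.mem_top _, z, hz, rfl⟩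

theorem stb_restrict (L : Submodule B (Y →₀ B)) :
    Stb B (⊤ : Subgroup ↥F) L ↔ Stb B F L := by
  constructor
  · intro h f hf y hy
    have := h ⟨f, hf⟩ (Subgroup.mem_top _) y hy
    rwa [tr_coe] at this
  · intro h f _ y hy
    rw [tr_coe]
    exact h f f.2 y hy

theorem gspan_restrict (s : Set (Y →₀ B)) : gspan B (⊤ : Subgroup ↥F) s = gspan B F s := by
  rw [gspan, gspan]
  congr 1
  ext z
  constructor
  · rintro ⟨f, -, y, hy, rfl⟩
    exact ⟨f, f.2, y, hy, tr_coe f y⟩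
  · rintro ⟨f, hf, y, hy, rfl⟩
    exact ⟨⟨f, hf⟩, Subgroup.mem_top _, y, hy, (tr_coe (⟨f, hf⟩ : ↥F) y).symm⟩

theorem gfg_restrict (L : Submodule B (Y →₀ B)) :
    GFG B (⊤ : Subgroup ↥F) L ↔ GFG B F L := by
  simp only [GFG, gspan_restrict]

theorem aug_restrict (L : Submodule B (Y →₀ B)) :
    aug B (N.subgroupOf F) L = aug B (N ⊓ F) L := by
  rw [aug, aug]
  congr 1
  ext z
  constructor
  · rintro ⟨n, hn, y, hy, rfl⟩
    exact ⟨n, ⟨Subgroup.mem_subgroupOf.1 hn, n.2⟩, y, hy, by rw [tr_coe]⟩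
  · rintro ⟨n, ⟨hn, hf⟩, y, hy, rfl⟩
    exact ⟨⟨n, hf⟩, Subgroup.mem_subgroupOf.2 hn, y, hy, by rw [tr_coe]⟩

theorem freeAct_restrict (h : FreeAct Γ Y) : FreeAct ↥F Y := by
  intro f y hf
  have := h (f : Γ) y hf
  exact Subtype.ext this

/-- `Star` for a subgroup, in terms of the ambient group. -/
theorem Star.apply {F N : Subgroup Γ} (h : Star B ↥F (N.subgroupOf F)) (hY : FreeAct Γ Y)
    (Z : Finset Y) (L : Submodule B (Y →₀ B))
    (hL : L ≤ Finsupp.supported B B (orb F (Z : Set Y))) (hS : Stb B F L)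
    (s : Finset (Y →₀ B)) (hs : (s : Set (Y →₀ B)) ⊆ (L : Set (Y →₀ B)))
    (hsL : L ≤ gspan B F (s : Set (Y →₀ B)) ⊔ aug B (N ⊓ F) L) : GFG B F L := by
  rw [← gfg_restrict]
  refine h Y (freeAct_restrict F hY) Z L ?_ ((stb_restrict F L).2 hS) ⟨s, hs, ?_⟩
  · rwa [orb_restrict]
  · rwa [gspan_restrict, aug_restrict]

/-- `NoethAct` for a subgroup, in terms of the ambient group. -/
theorem NoethAct.apply {F N : Subgroup Γ} (h : NoethAct B ↥F (N.subgroupOf F))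
    (hN : ∀ n ∈ N ⊓ F, ∀ y : Y, n • y = y) (Z : Finset Y) (L : Submodule B (Y →₀ B))
    (hL : L ≤ Finsupp.supported B B (orb F (Z : Set Y))) (hS : Stb B F L) : GFG B F L := by
  rw [← gfg_restrict]
  refine h Y ?_ Z L ?_ ((stb_restrict F L).2 hS)
  · intro n hn y
    exact hN (n : Γ) ⟨Subgroup.mem_subgroupOf.1 hn, n.2⟩ y
  · rwa [orb_restrict]

/-- `NoethAct` with trivial `N`, for a subgroup. -/
theorem NoethAct.apply_bot {F : Subgroup Γ} (h : NoethAct B ↥F ⊥)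
    (Z : Finset Y) (L : Submodule B (Y →₀ B))
    (hL : L ≤ Finsupp.supported B B (orb F (Z : Set Y))) (hS : Stb B F L) : GFG B F L := by
  rw [← gfg_restrict]
  refine h Y ?_ Z L ?_ ((stb_restrict F L).2 hS)
  · intro n hn y
    rw [Subgroup.mem_bot] at hn
    rw [hn, one_smul]
  · rwa [orb_restrict]

end restrict

end CG
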