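import Pool.Agent.Helper32.CG.Basic

/-!
# Project CG, module FinIndex

Coherence passes from a subgroup of finite index to the group.

Proof. Let `Y, Y', Z, a` be as in `Coh B G`. Restrict the actions to `G₁` (`freeAct_restrict`). `Y` is the union
of finitely many `G₁`-orbits: let `C` be a finite set with `G = ⋃_{c ∈ C} G₁ c` (inverses of
representatives of the left cosets `G ⧸ G₁`, a finite type), then
`Y = orb G₁ {c • z | c ∈ C, z ∈ Z}`; use `orb_restrict`. `a` is `G₁`-equivariant (`tr_coe`). So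
`GFG B (⊤ : Subgroup ↥G₁) (ker a)`, i.e. `GFG B G₁ (ker a)` (`gfg_restrict`), and `ker a` is
`G`-stable (`Stb.ker`), so `GFG B ⊤ (ker a)` by `GFG.mono`.
-/

namespace CG

theorem coh_of_finiteIndex {B : Type} [CommRing B] {G : Type} [Group G] (G₁ : Subgroup G)
    [G₁.FiniteIndex] (h : Coh B ↥G₁) : Coh B G := by
  classical
  intro Y Y' _ _ hY hY' Z hZ a ha
  have : Fintype (G ⧸ G₁) := Fintype.ofFinite _
  let Z1 : Finset Y :=
    (Finset.univ : Finset (G ⧸ G₁)).biUnion (fun q => Z.image (fun z => (q.out)⁻¹ • z))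
  have hZ1 : ∀ y : Y, y ∈ orb (⊤ : Subgroup ↥G₁) (Z1 : Set Y) := by
    intro y
    obtain ⟨g, -, z, hz, rfl⟩ := hZ y
    rw [orb_restrict]
    let q : G ⧸ G₁ := ((g⁻¹ : G) : G ⧸ G₁)
    have hq : (q.out : G)⁻¹ * g⁻¹ ∈ G₁ := by
      have h1 : ((q.out : G) : G ⧸ G₁) = ((g⁻¹ : G) : G ⧸ G₁) := Quotient.out_eq' q
      exact QuotientGroup.eq.1 h1
    refine ⟨g * q.out, ?_, (q.out)⁻¹ • z, ?_, ?_⟩
    · have h2 := G₁.inv_mem hq
      simpa using h2
    · have h3 : (q.out)⁻¹ • z ∈ Z1 :=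
        Finset.mem_biUnion.2 ⟨q, Finset.mem_univ _, Finset.mem_image.2 ⟨z, hz, rfl⟩⟩
      exact h3
    · rw [← mul_smul]
      simp
  have ha1 : ∀ (g : ↥G₁) (m : Y →₀ B), a (tr B g m) = tr B g (a m) := by
    intro g m
    rw [tr_coe, tr_coe]
    exact ha g m
  have h1 := h Y Y' (freeAct_restrict G₁ hY) (freeAct_restrict G₁ hY') Z1 hZ1 a ha1
  have h2 : GFG B G₁ (LinearMap.ker a) := (gfg_restrict G₁ _).1 h1
  exact h2.mono le_top (Stb.ker a (fun g _ m => ha g m))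

end CG
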