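import Pool.Agent.Helper32.CG.Noeth

/-!
# Project CG, module StarBase

* `star_of_subsingleton`: for a trivial group `Γ`, `Star B Γ N` holds by `noethAct_of_comm` (a trivial
  group is finitely generated, its commutator subgroup is trivial; `N` acts trivially).
* `Star.of_equiv`: transport of `Star` along an isomorphism `e : Γ ≃* Γ'` with `N' = e(N)`.
  Given a free `Γ'`-set `Y`, let `Γ` act on `Y` through `e` (`MulAction.compHom Y e.toMonoidHom`); then
  `tr`, `Stb`, `gspan`, `GFG`, `aug`, `orb` agree.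
-/

namespace CG

theorem star_of_subsingleton (B : Type) [CommRing B] [IsNoetherianRing B] (Γ : Type) [Group Γ]
    [Subsingleton Γ] (N : Subgroup Γ) : Star B Γ N := by
  intro Y _ _ Z L hL hS _
  haveI : Finite Γ := Finite.of_subsingleton
  haveI : Group.FG Γ := Group.fg_of_finite
  have hN : commutator Γ ≤ N := by
    intro x _
    rw [Subsingleton.elim x 1]
    exact N.one_mem
  refine noethAct_of_comm B Γ N hN Y ?_ Z L hL hS
  intro n _ y
  rw [Subsingleton.elim n 1, one_smul]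

section transport

variable {B : Type} [CommRing B] {Γ Γ' : Type} [Group Γ] [Group Γ'] (e : Γ ≃* Γ') {Y : Type}

private theorem orb_equiv [MulAction Γ Y] [MulAction Γ' Y] (he : ∀ (g : Γ) (y : Y), g • y = e g • y)
    (Z : Set Y) : orb (⊤ : Subgroup Γ) Z = orb (⊤ : Subgroup Γ') Z := by
  ext y
  constructor
  · rintro ⟨h, -, z, hz, rfl⟩
    exact ⟨e h, Subgroup.mem_top _, z, hz, he h z⟩
  · rintro ⟨h, -, z, hz, rfl⟩
    refine ⟨e.symm h, Subgroup.mem_top _, z, hz, ?_⟩
    rw [he, MulEquiv.apply_symm_apply]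

private theorem tr_equiv [MulAction Γ Y] [MulAction Γ' Y] (he : ∀ (g : Γ) (y : Y), g • y = e g • y)
    (g : Γ) (m : Y →₀ B) : tr B g m = tr B (e g) m := by
  have : (fun y : Y => g • y) = fun y : Y => e g • y := funext fun y => he g y
  simp only [tr]
  rw [this]

private theorem tr_equiv_symm [MulAction Γ Y] [MulAction Γ' Y]
    (he : ∀ (g : Γ) (y : Y), g • y = e g • y) (g : Γ') (m : Y →₀ B) :
    tr B (e.symm g) m = tr B g m := by
  rw [tr_equiv e he, MulEquiv.apply_symm_apply]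

private theorem gspan_equiv [MulAction Γ Y] [MulAction Γ' Y]
    (he : ∀ (g : Γ) (y : Y), g • y = e g • y) (s : Set (Y →₀ B)) :
    gspan B (⊤ : Subgroup Γ) s = gspan B (⊤ : Subgroup Γ') s := by
  rw [gspan, gspan]
  congr 1
  ext z
  constructor
  · rintro ⟨h, -, y, hy, rfl⟩
    exact ⟨e h, Subgroup.mem_top _, y, hy, tr_equiv e he h y⟩
  · rintro ⟨h, -, y, hy, rfl⟩
    exact ⟨e.symm h, Subgroup.mem_top _, y, hy, (tr_equiv_symm e he h y).symm⟩

private theorem aug_equiv [MulAction Γ Y] [MulAction Γ' Y]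
    (he : ∀ (g : Γ) (y : Y), g • y = e g • y) {N : Subgroup Γ} {N' : Subgroup Γ'}
    (hNN : ∀ x, x ∈ N ↔ e x ∈ N') (L : Submodule B (Y →₀ B)) : aug B N L = aug B N' L := by
  rw [aug, aug]
  congr 1
  ext z
  constructor
  · rintro ⟨n, hn, y, hy, rfl⟩
    exact ⟨e n, (hNN n).1 hn, y, hy, by rw [tr_equiv e he n y]⟩
  · rintro ⟨n, hn, y, hy, rfl⟩
    refine ⟨e.symm n, (hNN _).2 ?_, y, hy, by rw [tr_equiv_symm e he n y]⟩
    rwa [MulEquiv.apply_symm_apply]

end transport

theorem Star.of_equiv {B : Type} [CommRing B] {Γ Γ' : Type} [Group Γ] [Group Γ'] (e : Γ ≃* Γ')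
    {N : Subgroup Γ} {N' : Subgroup Γ'} (hNN : ∀ x, x ∈ N ↔ e x ∈ N') (h : Star B Γ N) :
    Star B Γ' N' := by
  intro Y _ hY Z L hL hS hs
  letI : MulAction Γ Y := MulAction.compHom Y e.toMonoidHom
  have he : ∀ (g : Γ) (y : Y), g • y = e g • y := fun _ _ => rfl
  have hfree : FreeAct Γ Y := by
    intro g y hg
    have h1 := hY (e g) y hg
    exact e.injective (h1.trans (map_one e).symm)
  have hS' : Stb B (⊤ : Subgroup Γ) L := by
    intro g _ y hy
    rw [tr_equiv e he g y]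
    exact hS (e g) (Subgroup.mem_top _) y hy
  obtain ⟨s, hs1, hs2⟩ := hs
  have key : GFG B (⊤ : Subgroup Γ) L := by
    refine h Y hfree Z L ?_ hS' ⟨s, hs1, ?_⟩
    · rw [orb_equiv e he]; exact hL
    · rw [gspan_equiv e he, aug_equiv e he hNN]; exact hs2
  obtain ⟨r, hr⟩ := key
  exact ⟨r, by rw [hr, gspan_equiv e he]⟩

end CG
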