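import Pool.Agent.Helper32.CG.Basic

/-! Project CG: the translation action on `E →₀ ℤ` (proved). -/

namespace CG

/-- the translation action on `E →₀ ℤ` -/
noncomputable def transEnd (Γ : Type) [Group Γ] (E : Type) [MulAction Γ E] :
    Γ →* AddMonoid.End (E →₀ ℤ) where
  toFun g := Finsupp.mapDomain.addMonoidHom (fun e : E => g • e)
  map_one' := by
    refine AddMonoidHom.ext fun f => ?_
    change Finsupp.mapDomain (fun e : E => (1 : Γ) • e) f = f
    have : (fun e : E => (1 : Γ) • e) = id := by ext e; simp
    rw [this, Finsupp.mapDomain_id]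
  map_mul' := fun g h => by
    refine AddMonoidHom.ext fun f => ?_
    change Finsupp.mapDomain (fun e : E => (g * h) • e) f =
      Finsupp.mapDomain (fun e : E => g • e) (Finsupp.mapDomain (fun e : E => h • e) f)
    rw [← Finsupp.mapDomain_comp]
    congr 1
    ext e
    simp [mul_smul]

theorem transEnd_apply {Γ : Type} [Group Γ] {E : Type} [MulAction Γ E] (g : Γ) (f : E →₀ ℤ) :
    transEnd Γ E g f = Finsupp.mapDomain (fun e : E => g • e) f := rfl

end CG
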