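import Pool.Agent.Helper32.CG.FreeTop

/-!
# Project CG, module FreeR2

`W` is a set of finitely supported functions on the free group, stable under left translation by
the generators, such that every `y ∈ W` is of the form `∑_x (x f_x - f_x)` with all `f_x ∈ W`.
Then every element of `W` is zero.

Proof. For `y : FreeGroup X →₀ E` and `r : ℕ` say `y` has radius `≤ r` if `y s ≠ 0 → nm s ≤ r`.
Suppose some `y ∈ W` is nonzero, let `r` be minimal such that some nonzero `y ∈ W` has radius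
`≤ r` (`Nat.find`), and fix such `y`. Write `y = fsum f`, `f x ∈ W`. As `y ≠ 0`, `f ≠ 0`, and by
`fsum_ne_zero` there is `v` with `y v ≠ 0` and `nm s, nm (x s) ≤ nm v ≤ r` whenever `f x s ≠ 0`.
Pick `x` with `f x ≠ 0` and put `y' = f x ∈ W`. Then `y' s ≠ 0 → nm s ≤ r ∧ nm (x s) ≤ r`.
In particular: (T) if `nm s = r` and `y' s ≠ 0` then `nm (x s) < nm s`.
Decompose again `y' = fsum g`, `g z ∈ W`, and by `fsum_ne_zero` again
`nm s ≤ r`, `nm (z s) ≤ r` whenever `g z s ≠ 0` (the `v` obtained has `y' v ≠ 0`, so `nm v ≤ r`).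
We show that all `g z` are zero, so that `y' = 0`, a contradiction.
* For `z ≠ x`, `g z` has radius `≤ r - 1`, so `g z = 0` by minimality: let `nm v = r` with
  `g z v ≠ 0`. Then `nm (z v) ≤ r`, so `nm (z v) < nm v`, and `y' v = - g z v ≠ 0` by
  `fsum_top_neg`; by (T) `nm (x v) < nm v`, so `z = x` by `nm_unique_pos_pos`. Contradiction.
* For `z = x` consider the translate `h s = g x (x⁻¹ s)` of `g x`, which is in `W`. It has radius
  `≤ r - 1`: if `h s ≠ 0` then `nm s ≤ r` (as `s = x (x⁻¹ s)`), and if `nm s = r` then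
  `nm (x⁻¹ s) ≤ r` so `nm (x⁻¹ s) < nm s`, and `y' s = g x (x⁻¹ s) ≠ 0` by `fsum_top_pos`; by (T)
  `nm (x s) < nm s`, contradicting `nm_unique_inv_pos`. So `h = 0` and `g x = 0`.
(If `r = 0`: radius `≤ r - 1` means: no `s` with `y s ≠ 0` has `nm s = r = 0`, so the function is zero;
it is convenient to express radius `≤ r - 1` as `∀ s, y s ≠ 0 → nm s < r`.)
-/

namespace CG

variable {X E : Type} [AddCommGroup E]

theorem free_zero (W : Set (FreeGroup X →₀ E))
    (hdec : ∀ y ∈ W, ∃ f : X →₀ (FreeGroup X →₀ E), (∀ x, f x ∈ W) ∧ ∀ v, y v = fsum f v)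
    (htr : ∀ y ∈ W, ∀ x : X, ∃ y' ∈ W, ∀ v, y' v = y ((FreeGroup.of x)⁻¹ * v))
    (y : FreeGroup X →₀ E) (hy : y ∈ W) : y = 0 := by
  classical
  by_contra hy0
  have hex : ∃ r : ℕ, ∃ y ∈ W, y ≠ 0 ∧ ∀ s, y s ≠ 0 → nm s ≤ r := by
    refine ⟨y.support.sup nm, y, hy, hy0, fun s hs => ?_⟩
    exact Finset.le_sup (f := nm) (Finsupp.mem_support_iff.2 hs)
  obtain ⟨r, ⟨y, hy, hy0, hr⟩, hmin0⟩ : ∃ r : ℕ, (∃ y ∈ W, y ≠ 0 ∧ ∀ s, y s ≠ 0 → nm s ≤ r) ∧
      ∀ m < r, ¬ ∃ y ∈ W, y ≠ 0 ∧ ∀ s, y s ≠ 0 → nm s ≤ m :=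
    ⟨Nat.find hex, Nat.find_spec hex, fun m hm => Nat.find_min hex hm⟩
  have hmin : ∀ z ∈ W, (∀ s, z s ≠ 0 → nm s < r) → z = 0 := by
    intro z hz hlt
    by_contra hz0
    obtain ⟨s, hs⟩ := Finsupp.ne_iff.1 hz0
    have hs' := hlt s hs
    refine hmin0 (r - 1) (by omega) ⟨z, hz, hz0, fun s hs => ?_⟩
    have := hlt s hs
    omega
  have hdec0 : ∀ y ∈ W, y ≠ 0 → ∃ f : X →₀ (FreeGroup X →₀ E), (∀ x, f x ∈ W) ∧
      (∀ v, y v = fsum f v) ∧ f ≠ 0 ∧ ∃ v, y v ≠ 0 ∧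
        ∀ x s, f x s ≠ 0 → nm s ≤ nm v ∧ nm (FreeGroup.of x * s) ≤ nm v := by
    intro y hy hy0
    obtain ⟨f, hf, hyf⟩ := hdec y hy
    have hf0 : f ≠ 0 := by
      rintro rfl
      apply hy0
      ext v
      rw [hyf v]
      unfold fsum
      rw [Finsupp.sum_zero_index]
      rfl
    obtain ⟨v, hv, hR⟩ := fsum_ne_zero f hf0
    exact ⟨f, hf, hyf, hf0, v, by rw [hyf v]; exact hv, hR⟩
  obtain ⟨f, hf, -, hf0, v, hv, hR⟩ := hdec0 y hy hy0
  have hvr := hr v hv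
  obtain ⟨x, hx⟩ := Finsupp.ne_iff.1 hf0
  have hx0 : f x ≠ 0 := hx
  -- the element `y' = f x`
  have hr' : ∀ s, f x s ≠ 0 → nm s ≤ r := fun s hs => (hR x s hs).1.trans hvr
  have hT : ∀ s, f x s ≠ 0 → nm s = r → nm (FreeGroup.of x * s) < nm s := by
    intro s hs hsr
    have h1 := (hR x s hs).2.trans hvr
    rcases nm_of_mul x s with h2 | h2 <;> omega
  obtain ⟨g, hg, hyg, hg0, w, hw, hS⟩ := hdec0 (f x) (hf x) hx0
  have hwr := hr' w hw
  have hS' : ∀ z s, g z s ≠ 0 → nm s ≤ r ∧ nm (FreeGroup.of z * s) ≤ r := fun z s hs =>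
    ⟨(hS z s hs).1.trans hwr, (hS z s hs).2.trans hwr⟩
  apply hg0
  ext z : 1
  show g z = 0
  by_cases hzx : z = x
  · subst hzx
    obtain ⟨h, hhW, hh⟩ := htr (g z) (hg z) z
    have h0 : h = 0 := by
      refine hmin h hhW ?_
      intro s hs
      rw [hh s] at hs
      have h1 := (hS' z _ hs).2
      rw [mul_inv_cancel_left] at h1
      rcases Nat.lt_or_ge (nm s) r with h2 | h2
      · exact h2
      exfalso
      have hsr : nm s = r := le_antisymm h1 h2
      have h3 := (hS' z _ hs).1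
      have h4 : nm ((FreeGroup.of z)⁻¹ * s) < nm s := by
        have h5 := nm_of_mul z ((FreeGroup.of z)⁻¹ * s)
        rw [mul_inv_cancel_left] at h5
        omega
      have h6 : f z s ≠ 0 := by
        rw [hyg s, fsum_top_pos g r hS' hsr h4]
        exact hs
      exact nm_unique_inv_pos h4 (hT s h6 hsr)
    ext v
    have h1 := hh (FreeGroup.of z * v)
    rw [inv_mul_cancel_left, h0] at h1
    exact h1.symm
  · refine hmin (g z) (hg z) ?_
    intro s hs
    have h1 := hS' z s hs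
    rcases Nat.lt_or_ge (nm s) r with h2 | h2
    · exact h2
    exfalso
    have hsr : nm s = r := le_antisymm h1.1 h2
    have h4 : nm (FreeGroup.of z * s) < nm s := by
      rcases nm_of_mul z s with h5 | h5 <;> omega
    have h6 : f x s ≠ 0 := by
      rw [hyg s, fsum_top_neg g r hS' hsr h4]
      exact neg_ne_zero.2 hs
    exact hzx (nm_unique_pos_pos h4 (hT s h6 hsr))

end CG
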