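import Pool.Agent.Helper32.CG.AugFree
import Pool.Agent.Helper32.CG.FreeR2

/-!
# Project CG, module LemAB

`N` is a free group (`IsFreeGroup ↥N`; take `φ : FreeGroup X ≃* ↥N`,
`(IsFreeGroup.toFreeGroup ↥N).symm` with `X = IsFreeGroup.Generators ↥N`), `A ≤ A'` are `N`-stable.

* `lemA`: if `Sep B N A' A` then `A ⊓ aug B N A' ≤ aug B N A`.
  Proof: let `m ∈ A ⊓ aug B N A'`, write `m = ∑_x (x a_x - a_x)`, `a_x ∈ A'` (`aug_free`). All `a_x`
  are in `A`: otherwise take `E, u` from `Sep` with `u a_x ≠ 0` for some `x`. As `u` is additive and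
  equivariant on `A'` and `u m = 0`, the family `f z := (u a_z) ∘ φ : FreeGroup X →₀ E`
  (`Finsupp.equivMapDomain φ.symm`, or `Finsupp.comapDomain`) satisfies `fsum f v = 0` for all `v`.
  By `fsum_ne_zero`, `f = 0`, contradiction.
  (`u 0 = 0` and `u (-x) = - u x` follow from additivity on `A'`; finite sums by induction.)
* `lemB`: if `Sep B N A' A` and `A' ≤ A ⊔ aug B N A'` then `A' ≤ A`.
  Proof: otherwise take `m ∈ A'`, `m ∉ A`, and `E, u` with `u m ≠ 0`. Let `W` be the set of the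
  functions `(u a) ∘ φ`, `a ∈ A'`. For `a ∈ A'`, `a = b + ∑_x (x a_x - a_x)`, `b ∈ A`, `a_x ∈ A'`,
  so `u a = ∑_x (x (u a_x) - u a_x)`. By `free_zero`, `u m = 0`.
-/

namespace CG

variable {B : Type} [CommRing B] {Γ : Type} [Group Γ] {Y : Type} [MulAction Γ Y]

theorem lab_sep_zero {E : Type} [AddCommGroup E] {N : Subgroup Γ} {A' : Submodule B (Y →₀ B)}
    {u : (Y →₀ B) → (↥N →₀ E)} (hu : ∀ x ∈ A', ∀ y ∈ A', u (x + y) = u x + u y) : u 0 = 0 := by
  have h := hu 0 A'.zero_mem 0 A'.zero_mem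
  rw [add_zero] at h
  have h2 : u 0 + 0 = u 0 + u 0 := by rw [add_zero]; exact h
  exact (add_left_cancel h2).symm

theorem lab_sep_sub {E : Type} [AddCommGroup E] {N : Subgroup Γ} {A' : Submodule B (Y →₀ B)}
    {u : (Y →₀ B) → (↥N →₀ E)} (hu : ∀ x ∈ A', ∀ y ∈ A', u (x + y) = u x + u y)
    {x y : Y →₀ B} (hx : x ∈ A') (hy : y ∈ A') : u (x - y) = u x - u y := by
  have h := hu (x - y) (A'.sub_mem hx hy) y hy
  rw [sub_add_cancel] at h
  rw [h, add_sub_cancel_right]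

theorem lab_sep_sum {E : Type} [AddCommGroup E] {N : Subgroup Γ} {A' : Submodule B (Y →₀ B)}
    {u : (Y →₀ B) → (↥N →₀ E)} (hu : ∀ x ∈ A', ∀ y ∈ A', u (x + y) = u x + u y)
    {ι : Type} (s : Finset ι) (h : ι → (Y →₀ B)) (hh : ∀ i, h i ∈ A') :
    u (∑ i ∈ s, h i) = ∑ i ∈ s, u (h i) := by
  classical
  induction s using Finset.induction_on with
  | empty => simpa using lab_sep_zero hu
  | insert i s hi ih =>
    rw [Finset.sum_insert hi, Finset.sum_insert hi,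
      hu _ (hh i) _ (A'.sum_mem fun j _ => hh j), ih]

/-- The family obtained from `f` by applying `u` and reindexing. -/
noncomputable def lab_pull {E : Type} [AddCommGroup E] {N : Subgroup Γ} {X : Type}
    (φ : FreeGroup X ≃* ↥N) {u : (Y →₀ B) → (↥N →₀ E)} (h0 : u 0 = 0)
    (f : X →₀ (Y →₀ B)) : X →₀ (FreeGroup X →₀ E) :=
  f.mapRange (fun a => (u a).equivMapDomain φ.symm.toEquiv)
    (by rw [h0]; exact Finsupp.equivMapDomain_zero)

theorem lab_emd_apply {E : Type} [AddCommGroup E] {N : Subgroup Γ} {X : Type}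
    (φ : FreeGroup X ≃* ↥N) (w : ↥N →₀ E) (v : FreeGroup X) :
    (w.equivMapDomain φ.symm.toEquiv) v = w (φ v) := by
  rw [Finsupp.equivMapDomain_apply]
  rfl

theorem lab_pull_apply {E : Type} [AddCommGroup E] {N : Subgroup Γ} {X : Type}
    (φ : FreeGroup X ≃* ↥N) {u : (Y →₀ B) → (↥N →₀ E)} (h0 : u 0 = 0)
    (f : X →₀ (Y →₀ B)) (x : X) :
    lab_pull φ h0 f x = (u (f x)).equivMapDomain φ.symm.toEquiv := by
  rw [lab_pull, Finsupp.mapRange_apply]

theorem lab_sep_fsum {E : Type} [AddCommGroup E] {N : Subgroup Γ} {X : Type}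
    (φ : FreeGroup X ≃* ↥N) {A' : Submodule B (Y →₀ B)} (hA' : Stb B N A')
    {u : (Y →₀ B) → (↥N →₀ E)} (hu : ∀ x ∈ A', ∀ y ∈ A', u (x + y) = u x + u y)
    (he : ∀ (n : ↥N), ∀ x ∈ A', ∀ k : ↥N, u (tr B (n : Γ) x) k = u x (n⁻¹ * k))
    (h0 : u 0 = 0) (f : X →₀ (Y →₀ B)) (hf : ∀ x, f x ∈ A') (v : FreeGroup X) :
    u (f.sum fun x a => tr B ((φ (FreeGroup.of x) : ↥N) : Γ) a - a) (φ v)
      = fsum (lab_pull φ h0 f) v := by
  rw [fsum, lab_pull, Finsupp.sum_mapRange_index]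
  · rw [Finsupp.sum, Finsupp.sum, lab_sep_sum hu f.support
      (fun x => tr B ((φ (FreeGroup.of x) : ↥N) : Γ) (f x) - f x)
      (fun x => A'.sub_mem (hA' _ (φ (FreeGroup.of x)).2 _ (hf x)) (hf x)),
      Finsupp.finsetSum_apply]
    refine Finset.sum_congr rfl fun x _ => ?_
    rw [lab_sep_sub hu (hA' _ (φ (FreeGroup.of x)).2 _ (hf x)) (hf x), Finsupp.sub_apply,
      he _ _ (hf x), lab_emd_apply, lab_emd_apply, map_mul φ, map_inv φ]
  · intro x
    simp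

theorem lemA {N : Subgroup Γ} (hN : IsFreeGroup ↥N) {A' A : Submodule B (Y →₀ B)}
    (hA' : Stb B N A') (hAA : A ≤ A') (hS : Sep B N A' A) :
    A ⊓ aug B N A' ≤ aug B N A := by
  intro m hm
  let φ : FreeGroup (IsFreeGroup.Generators ↥N) ≃* ↥N := (IsFreeGroup.toFreeGroup ↥N).symm
  obtain ⟨f, hf, hfm⟩ := aug_free φ hA' hm.2
  have hfA : ∀ x, f x ∈ A := by
    intro x
    by_contra hx
    obtain ⟨E, _, u, hu, he, hz, hne⟩ := hS (f x) (hf x) hx
    have h0 : u 0 = 0 := lab_sep_zero hu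
    have hg : lab_pull φ h0 f = 0 := by
      by_contra hg
      obtain ⟨v, hv, -⟩ := fsum_ne_zero _ hg
      apply hv
      rw [← lab_sep_fsum φ hA' hu he h0 f hf v, ← hfm, hz m hm.1]
      rfl
    apply hne
    have h1 : lab_pull φ h0 f x = 0 := by rw [hg]; rfl
    rw [lab_pull_apply] at h1
    ext k
    have h2 := DFunLike.congr_fun h1 (φ.symm k)
    rw [lab_emd_apply, MulEquiv.apply_symm_apply] at h2
    exact h2
  rw [hfm]
  exact Submodule.sum_mem _ fun x _ => sub_mem_aug (φ (FreeGroup.of x)).2 (hfA x)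

theorem lemB {N : Subgroup Γ} (hN : IsFreeGroup ↥N) {A' A : Submodule B (Y →₀ B)}
    (hA' : Stb B N A') (hAA : A ≤ A') (hS : Sep B N A' A) (h : A' ≤ A ⊔ aug B N A') :
    A' ≤ A := by
  intro m hm
  by_contra hmA
  let φ : FreeGroup (IsFreeGroup.Generators ↥N) ≃* ↥N := (IsFreeGroup.toFreeGroup ↥N).symm
  obtain ⟨E, _, u, hu, he, hz, hne⟩ := hS m hm hmA
  have h0 : u 0 = 0 := lab_sep_zero hu
  have key : (u m).equivMapDomain φ.symm.toEquiv = 0 := by
    refine free_zero {w | ∃ a ∈ A', w = (u a).equivMapDomain φ.symm.toEquiv} ?_ ?_ _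
      ⟨m, hm, rfl⟩
    · rintro _ ⟨a, ha, rfl⟩
      obtain ⟨b, hb, c, hc, hbc⟩ := Submodule.mem_sup.1 (h ha)
      obtain ⟨f, hf, hfc⟩ := aug_free φ hA' hc
      refine ⟨lab_pull φ h0 f, fun x => ⟨f x, hf x, lab_pull_apply φ h0 f x⟩, fun v => ?_⟩
      rw [lab_emd_apply, ← lab_sep_fsum φ hA' hu he h0 f hf v, ← hfc, ← hbc,
        hu b (hAA hb) c (aug_le hA' hc), hz b hb, zero_add]
    · rintro _ ⟨a, ha, rfl⟩ x
      refine ⟨_, ⟨tr B ((φ (FreeGroup.of x) : ↥N) : Γ) a,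
        hA' _ (φ (FreeGroup.of x)).2 _ ha, rfl⟩, fun v => ?_⟩
      rw [lab_emd_apply, lab_emd_apply, he _ _ ha, map_mul φ, map_inv φ]
  apply hne
  ext k
  have h2 := DFunLike.congr_fun key (φ.symm k)
  rw [lab_emd_apply, MulEquiv.apply_symm_apply] at h2
  exact h2

end CG
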