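import Pool.Agent.Helper32.CG.TreeBasic

/-!
# Project CG, module TreeGood

Every finite set of vertices is contained in a good pair `(Vt, Et)`.

Proof. Good pairs are closed under union (`Good.union`: a vertex `h F ∈ Vt ∪ Vt'`
is in one of the two, so `supp d(h)` is in the corresponding edge set). `({F}, ∅)` is good
(`h F = F` gives `h ∈ F`, `d h = 0`). So it is enough to find, for each `g : Γ`, a good pair with
`g F ∈ Vt` (then take unions over the finite set, `Finset.induction_on`).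
Let `T'` be the set of `g` such that for every `h` and every good pair containing `h F` there is a good pair
containing `h g F`. `T'` is closed under products and contains
* `f ∈ F`: `h f F = h F`;
* `t i`: add to `(Vt, Et)` the vertex `h t_i F` and the edge `e = (i, h A_i)`. If `h' F = h t_i F` then
  `d h' = d (h t_i) = d h + h • single (i, A_i) 1`, with support in `Et ∪ {e}`;
* `(t i)⁻¹`: add the vertex `h t_i⁻¹ F` and the edge `e = (i, h t_i⁻¹ A_i)`, whose source is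
  `h t_i⁻¹ F` and whose target is `h F`; `d (h t_i⁻¹) = d h - single e 1` (since `h = (h t_i⁻¹) t_i`).
Hence `T'` contains `Subgroup.closure (F ∪ range t) = ⊤` (`Subgroup.closure_induction`; prove for
`g` and `g⁻¹` simultaneously, or use `Subgroup.closure_toSubmonoid`). Apply with `h = 1` and
`({F}, ∅)`.
-/

namespace CG

namespace TreeData

variable {Γ : Type} [Group Γ] (T : TreeData Γ)

theorem good_base : T.Good {((1 : Γ) : Γ ⧸ T.F)} ∅ := by
  refine ⟨by simp, by simp, by simp, ?_⟩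
  intro h hh e he
  exfalso
  apply he
  have h1 : ((h : Γ) : Γ ⧸ T.F) = ((1 : Γ) : Γ ⧸ T.F) := by simpa using hh
  rw [T.d_eq_of_coe h1, T.d_one, Finsupp.zero_apply]

open Classical in
theorem good_union {Vt Vt' : Finset (Γ ⧸ T.F)} {Et Et' : Finset (Σ i, Γ ⧸ T.A i)}
    (h : T.Good Vt Et) (h' : T.Good Vt' Et') : T.Good (Vt ∪ Vt') (Et ∪ Et') := by
  refine ⟨Finset.mem_union_left _ h.one, ?_, ?_, ?_⟩
  · intro e he
    rcases Finset.mem_union.1 he with he | he
    · exact Finset.mem_union_left _ (h.src e he)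
    · exact Finset.mem_union_right _ (h'.src e he)
  · intro e he
    rcases Finset.mem_union.1 he with he | he
    · exact Finset.mem_union_left _ (h.tgt e he)
    · exact Finset.mem_union_right _ (h'.tgt e he)
  · intro k hk e he
    rcases Finset.mem_union.1 hk with hk | hk
    · exact Finset.mem_union_left _ (h.sup k hk e he)
    · exact Finset.mem_union_right _ (h'.sup k hk e he)

open Classical in
theorem good_insert {Vt : Finset (Γ ⧸ T.F)} {Et : Finset (Σ i, Γ ⧸ T.A i)}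
    (h : T.Good Vt Et) (h' : Γ) (e0 : Σ i, Γ ⧸ T.A i)
    (hs : T.src e0 ∈ insert ((h' : Γ) : Γ ⧸ T.F) Vt)
    (ht : T.tgt e0 ∈ insert ((h' : Γ) : Γ ⧸ T.F) Vt)
    (hd : ∀ e, T.d h' e ≠ 0 → e ∈ insert e0 Et) :
    T.Good (insert ((h' : Γ) : Γ ⧸ T.F) Vt) (insert e0 Et) := by
  refine ⟨Finset.mem_insert_of_mem h.one, ?_, ?_, ?_⟩
  · intro e he
    rcases Finset.mem_insert.1 he with rfl | he
    · exact hs
    · exact Finset.mem_insert_of_mem (h.src e he)
  · intro e he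
    rcases Finset.mem_insert.1 he with rfl | he
    · exact ht
    · exact Finset.mem_insert_of_mem (h.tgt e he)
  · intro k hk e he
    rcases Finset.mem_insert.1 hk with hk | hk
    · rw [T.d_eq_of_coe hk] at he
      exact hd e he
    · exact Finset.mem_insert_of_mem (h.sup k hk e he)

/-- one can go from `h F` to `h g F` within good pairs -/
def Reach (g : Γ) : Prop :=
  ∀ (h : Γ) (Vt : Finset (Γ ⧸ T.F)) (Et : Finset (Σ i, Γ ⧸ T.A i)), T.Good Vt Et →
    ((h : Γ) : Γ ⧸ T.F) ∈ Vt →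
    ∃ (Vt' : Finset (Γ ⧸ T.F)) (Et' : Finset (Σ i, Γ ⧸ T.A i)), T.Good Vt' Et' ∧
      ((h * g : Γ) : Γ ⧸ T.F) ∈ Vt'

theorem reach_mul {g g' : Γ} (hg : T.Reach g) (hg' : T.Reach g') : T.Reach (g * g') := by
  intro h Vt Et hG hv
  obtain ⟨V1, E1, h1, h2⟩ := hg h Vt Et hG hv
  obtain ⟨V2, E2, h3, h4⟩ := hg' (h * g) V1 E1 h1 h2
  exact ⟨V2, E2, h3, by rwa [← mul_assoc]⟩

theorem reach_F {f : Γ} (hf : f ∈ T.F) : T.Reach f := by
  intro h Vt Et hG hv
  refine ⟨Vt, Et, hG, ?_⟩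
  have h1 : ((h * f : Γ) : Γ ⧸ T.F) = ((h : Γ) : Γ ⧸ T.F) := by
    rw [QuotientGroup.eq]
    have : (h * f)⁻¹ * h = f⁻¹ := by group
    rw [this]
    exact T.F.inv_mem hf
  rw [h1]
  exact hv

theorem d_mul_t_apply (h : Γ) (i : T.I) (e : Σ i, Γ ⧸ T.A i)
    (he : e ≠ ⟨i, ((h : Γ) : Γ ⧸ T.A i)⟩) : T.d (h * T.t i) e = T.d h e := by
  classical
  rw [T.d_mul_apply, T.d_t, Finsupp.single_apply, if_neg, add_zero]
  intro h1
  apply he
  have h2 : e = h • (⟨i, ((1 : Γ) : Γ ⧸ T.A i)⟩ : Σ i, Γ ⧸ T.A i) := by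
    rw [h1, smul_inv_smul]
  rw [h2, T.smul_mk, mul_one]

theorem reach_t (i : T.I) : T.Reach (T.t i) := by
  classical
  intro h Vt Et hG hv
  refine ⟨insert ((h * T.t i : Γ) : Γ ⧸ T.F) Vt, insert ⟨i, ((h : Γ) : Γ ⧸ T.A i)⟩ Et,
    T.good_insert hG _ _ ?_ ?_ ?_, Finset.mem_insert_self _ _⟩
  · rw [T.src_mk]
    exact Finset.mem_insert_of_mem hv
  · rw [T.tgt_mk]
    exact Finset.mem_insert_self _ _
  · intro e he
    by_cases h1 : e = ⟨i, ((h : Γ) : Γ ⧸ T.A i)⟩
    · rw [h1]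
      exact Finset.mem_insert_self _ _
    · rw [T.d_mul_t_apply h i e h1] at he
      exact Finset.mem_insert_of_mem (hG.sup h hv e he)

theorem reach_t_inv (i : T.I) : T.Reach (T.t i)⁻¹ := by
  classical
  intro h Vt Et hG hv
  have hh : h * (T.t i)⁻¹ * T.t i = h := by group
  refine ⟨insert ((h * (T.t i)⁻¹ : Γ) : Γ ⧸ T.F) Vt,
    insert ⟨i, ((h * (T.t i)⁻¹ : Γ) : Γ ⧸ T.A i)⟩ Et,
    T.good_insert hG _ _ ?_ ?_ ?_, Finset.mem_insert_self _ _⟩
  · rw [T.src_mk]
    exact Finset.mem_insert_self _ _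
  · rw [T.tgt_mk, hh]
    exact Finset.mem_insert_of_mem hv
  · intro e he
    by_cases h1 : e = ⟨i, ((h * (T.t i)⁻¹ : Γ) : Γ ⧸ T.A i)⟩
    · rw [h1]
      exact Finset.mem_insert_self _ _
    · have h2 := T.d_mul_t_apply (h * (T.t i)⁻¹) i e h1
      rw [hh] at h2
      rw [← h2] at he
      exact Finset.mem_insert_of_mem (hG.sup h hv e he)

theorem reach_all (g : Γ) : T.Reach g ∧ T.Reach g⁻¹ := by
  have hg : g ∈ Subgroup.closure ((T.F : Set Γ) ∪ Set.range T.t) := by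
    rw [T.gen]
    exact Subgroup.mem_top g
  refine Subgroup.closure_induction (p := fun x _ => T.Reach x ∧ T.Reach x⁻¹) ?_ ?_ ?_ ?_ hg
  · rintro x (hx | ⟨i, rfl⟩)
    · exact ⟨T.reach_F hx, T.reach_F (T.F.inv_mem hx)⟩
    · exact ⟨T.reach_t i, T.reach_t_inv i⟩
  · rw [inv_one]
    exact ⟨T.reach_F T.F.one_mem, T.reach_F T.F.one_mem⟩
  · intro x y _ _ hx hy
    refine ⟨T.reach_mul hx.1 hy.1, ?_⟩
    rw [mul_inv_rev]
    exact T.reach_mul hy.2 hx.2
  · intro x _ hx
    rw [inv_inv]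
    exact ⟨hx.2, hx.1⟩

theorem exists_good (S : Finset (Γ ⧸ T.F)) :
    ∃ (Vt : Finset (Γ ⧸ T.F)) (Et : Finset (Σ i, Γ ⧸ T.A i)), T.Good Vt Et ∧ S ⊆ Vt := by
  classical
  induction S using Finset.induction_on with
  | empty => exact ⟨_, _, T.good_base, Finset.empty_subset _⟩
  | insert a S _ ih =>
    obtain ⟨Vt, Et, hG, hS⟩ := ih
    obtain ⟨g, rfl⟩ := QuotientGroup.mk_surjective a
    obtain ⟨V1, E1, h1, h2⟩ := (T.reach_all g).1 1 _ _ T.good_base (Finset.mem_singleton_self _)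
    rw [one_mul] at h2
    refine ⟨V1 ∪ Vt, E1 ∪ Et, T.good_union h1 hG, ?_⟩
    intro x hx
    rcases Finset.mem_insert.1 hx with rfl | hx
    · exact Finset.mem_union_left _ h2
    · exact Finset.mem_union_right _ (hS hx)

end TreeData

end CG
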