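import Pool.Agent.Helper32.CG.TreeEx

/-!
# Project CG, module TreeKey

Notation: `v₀ = F` (the coset of `1`), `L_v`, `L_e` as before, `e_i = (i, A_i)`.

Claim: `L_{v₀} ≤ gspan F P ⊔ (⨆ i, gspan F L_{e_i}) ⊔ (⨆ i, gspan F (t_i⁻¹ L_{e_i})) ⊔ aug (N ⊓ F) L_{v₀}`,
if `P ⊆ L_{v₀}`, `L ≤ gspan ⊤ P ⊔ aug N L` and `L ≤ ⨆ v, L_v`.

Proof. Let `R` be the right hand side (a submodule of `Y →₀ B`).
(0) Define `λ : ((Γ ⧸ F) →₀ (Y →₀ B)) →+ (Y →₀ B)`, `λ(single v x) = n_v⁻¹ x`, if `v = n F` for some `n ∈ N`,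
with `n_v ∈ N` a chosen element with `n_v F = v`; and `λ(single v x) = 0` otherwise.
(`Finsupp.liftAddHom`, or a linear map by `Finsupp.lsum`.)
(1) If `v = n F`, `n ∈ N` and `x ∈ L_v` then `λ(single v x) - n⁻¹ x ∈ aug (N ⊓ F) L_{v₀}`:
`s := n_v⁻¹ n ∈ N ⊓ F`, and `n_v⁻¹ x = s (n⁻¹ x)` with `n⁻¹ x ∈ L_{v₀}` (`tr_mem_Lv`).
(2) Hence for `n ∈ N` and `x ∈ L_v`: `λ(single (n v) (n x)) - λ(single v x) ∈ aug (N ⊓ F) L_{v₀} ≤ R`
(if `v ∉ N F` both are zero; if `v = n' F` apply (1) to `v, n'` and to `n v, n n'`).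
(3) If `p ∈ P` and `g ∈ Γ` then `λ(single (g F) (g p)) ∈ R`: if `g F = n F` for some `n ∈ N` then `g = n f`,
`f ∈ F`, and by (1) it is `f p` modulo `aug`, in `gspan F P ⊔ aug`. Otherwise zero.
(4) If `x ∈ L_e`, `e = (i, g A_i)`, then `λ(single (src e) x) ∈ R`: `src e = g F`; if `g = n f` (`n ∈ N`,
`f ∈ F`) it is `n⁻¹ x` modulo `aug`, and `n⁻¹ x = f (g⁻¹ x)` with `g⁻¹ x ∈ L_{e_i}` (`tr_mem_Le`).
(5) If `x ∈ L_e`, then `λ(single (tgt e) x) ∈ R`: `tgt e = g t_i F`; if `g t_i = n f` then modulo `aug` it is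
`n⁻¹ x = f t_i⁻¹ g⁻¹ x`, in `gspan F (t_i⁻¹ L_{e_i})`.
(6) Every element `z` of `gspan ⊤ P` is the sum of a finite chain `ζ` (`ζ.sum (fun _ m => m) = z`) with
`ζ v ∈ L_v` and `λ ζ ∈ R` (the set of `z` with this property is a submodule
containing the `g p` by (3)).
(7) Every `z ∈ aug N L` is the sum of a finite chain `ζ` with `ζ v ∈ L_v` and `λ ζ ∈ R`: for
`z = n y - y`, `y ∈ L`, `y` is the sum of a chain `χ` with `χ v ∈ L_v` (`Submodule.mem_iSup_iff_exists_finsupp`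
or similar, from `L ≤ ⨆ v, L_v`); take `ζ = n χ - χ`, `(n χ) = ∑ single (n v) (n (χ v))`
(`Finsupp.mapDomain (n • ·) (χ.mapRange (tr B n) _)`), and use (2).
(8) Let `x ∈ L_{v₀}`. Then `x ∈ L`, so `x = z + z'` with chains `ζ, ζ'` as in (6), (7). The chain
`ξ = single v₀ x - ζ - ζ'` has values in `L_v` and sum zero, so by `exact`
`ξ = mapDomain tgt η - mapDomain src η`, `η e ∈ L_e`, and `λ ξ ∈ R` by (4), (5). So
`λ(single v₀ x) = λ ξ + λ ζ + λ ζ' ∈ R`, and by (1) (with `n = 1`) `x - λ(single v₀ x) ∈ R`.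
-/

namespace CG

namespace TreeData

variable {Γ : Type} [Group Γ] {T : TreeData Γ} {Y : Type} [MulAction Γ Y] {B : Type} [CommRing B]

open Classical in
/-- the component at `v` of the map `λ` of the header -/
noncomputable def lamv (T : TreeData Γ) (Y : Type) [MulAction Γ Y] (B : Type) [CommRing B]
    (N : Subgroup Γ) (v : Γ ⧸ T.F) : (Y →₀ B) →ₗ[B] (Y →₀ B) :=
  if h : ∃ n : Γ, n ∈ N ∧ ((n : Γ) : Γ ⧸ T.F) = v then tr B (h.choose)⁻¹ else 0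

/-- the map `λ` of the header -/
noncomputable def lam (T : TreeData Γ) (Y : Type) [MulAction Γ Y] (B : Type) [CommRing B]
    (N : Subgroup Γ) : ((Γ ⧸ T.F) →₀ (Y →₀ B)) →ₗ[B] (Y →₀ B) :=
  Finsupp.lsum B (fun v => lamv T Y B N v)

theorem lam_single (N : Subgroup Γ) (v : Γ ⧸ T.F) (x : Y →₀ B) :
    lam T Y B N (Finsupp.single v x) = lamv T Y B N v x := by
  simp [lam]

theorem lamv_zero {N : Subgroup Γ} {v : Γ ⧸ T.F} (h : ¬ ∃ n : Γ, n ∈ N ∧ ((n : Γ) : Γ ⧸ T.F) = v)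
    (x : Y →₀ B) : lamv T Y B N v x = 0 := by
  rw [lamv, dif_neg h, LinearMap.zero_apply]

theorem lamv_sub_mem {Vt : Finset (Γ ⧸ T.F)}
    {γ : Y → Γ} (hγ : ∀ (g : Γ) (y : Y), γ (g • y) = g * γ y) {N : Subgroup Γ}
    {L : Submodule B (Y →₀ B)} (hL : Stb B (⊤ : Subgroup Γ) L) {v : Γ ⧸ T.F} {n : Γ} (hn : n ∈ N)
    (hv : ((n : Γ) : Γ ⧸ T.F) = v) {x : Y →₀ B} (hx : x ∈ Lv B γ Vt L v) :
    lamv T Y B N v x - tr B n⁻¹ x ∈ aug B (N ⊓ T.F) (Lv B γ Vt L ((1 : Γ) : Γ ⧸ T.F)) := by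
  have h : ∃ n : Γ, n ∈ N ∧ ((n : Γ) : Γ ⧸ T.F) = v := ⟨n, hn, hv⟩
  rw [lamv, dif_pos h]
  obtain ⟨hm, hmv⟩ := h.choose_spec
  set m := h.choose with hmdef
  have hs : m⁻¹ * n ∈ T.F := by
    rw [← QuotientGroup.eq, hmv, hv]
  have e : tr B m⁻¹ x = tr B (m⁻¹ * n) (tr B n⁻¹ x) := by
    rw [← tr_mul]
    congr 1
    group
  rw [e]
  refine sub_mem_aug (Subgroup.mem_inf.2 ⟨N.mul_mem (N.inv_mem hm) hn, hs⟩) ?_
  have h2 := tr_mem_Lv hγ hL hx n⁻¹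
  have h3 : n⁻¹ • v = ((1 : Γ) : Γ ⧸ T.F) := by
    rw [← hv, T.smul_vmk, inv_mul_cancel]
  rwa [h3] at h2

theorem lamv_smul_sub_mem {Vt : Finset (Γ ⧸ T.F)}
    {γ : Y → Γ} (hγ : ∀ (g : Γ) (y : Y), γ (g • y) = g * γ y) {N : Subgroup Γ}
    {L : Submodule B (Y →₀ B)} (hL : Stb B (⊤ : Subgroup Γ) L) {v : Γ ⧸ T.F} {n : Γ} (hn : n ∈ N)
    {x : Y →₀ B} (hx : x ∈ Lv B γ Vt L v) :
    lamv T Y B N (n • v) (tr B n x) - lamv T Y B N v x ∈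
      aug B (N ⊓ T.F) (Lv B γ Vt L ((1 : Γ) : Γ ⧸ T.F)) := by
  by_cases h : ∃ n' : Γ, n' ∈ N ∧ ((n' : Γ) : Γ ⧸ T.F) = v
  · obtain ⟨n', hn', hv⟩ := h
    have h1 := lamv_sub_mem hγ hL hn' hv hx
    have h2 := lamv_sub_mem (n := n * n') (v := n • v) hγ hL (N.mul_mem hn hn')
      (by rw [← hv, T.smul_vmk]) (tr_mem_Lv hγ hL hx n)
    have e : tr B (n * n')⁻¹ (tr B n x) = tr B n'⁻¹ x := by
      rw [← tr_mul]
      congr 1
      group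
    rw [e] at h2
    have := Submodule.sub_mem _ h2 h1
    convert this using 1
    abel
  · have h' : ¬ ∃ n' : Γ, n' ∈ N ∧ ((n' : Γ) : Γ ⧸ T.F) = n • v := by
      rintro ⟨n', hn', hv⟩
      refine h ⟨n⁻¹ * n', N.mul_mem (N.inv_mem hn) hn', ?_⟩
      rw [← T.smul_vmk, hv, inv_smul_smul]
    rw [lamv_zero h, lamv_zero h', sub_zero]
    exact Submodule.zero_mem _

theorem tree_key {Vt : Finset (Γ ⧸ T.F)} {Et : Finset (Σ i, Γ ⧸ T.A i)} (hg : T.Good Vt Et)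
    {γ : Y → Γ} (hγ : ∀ (g : Γ) (y : Y), γ (g • y) = g * γ y) (N : Subgroup Γ)
    (L : Submodule B (Y →₀ B)) (hL : Stb B (⊤ : Subgroup Γ) L) (P : Set (Y →₀ B))
    (hP : P ⊆ (Lv B γ Vt L ((1 : Γ) : Γ ⧸ T.F) : Set (Y →₀ B)))
    (hPL : L ≤ gspan B (⊤ : Subgroup Γ) P ⊔ aug B N L) (hτ : L ≤ ⨆ v, Lv B γ Vt L v) :
    Lv B γ Vt L ((1 : Γ) : Γ ⧸ T.F) ≤
      gspan B T.F P ⊔
      (⨆ i, gspan B T.F (Le B γ Et L ⟨i, ((1 : Γ) : Γ ⧸ T.A i)⟩ : Set (Y →₀ B))) ⊔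
      (⨆ i, gspan B T.F ((tr B (T.t i)⁻¹) ''
        (Le B γ Et L ⟨i, ((1 : Γ) : Γ ⧸ T.A i)⟩ : Set (Y →₀ B)))) ⊔
      aug B (N ⊓ T.F) (Lv B γ Vt L ((1 : Γ) : Γ ⧸ T.F)) := by
  set v₀ : Γ ⧸ T.F := ((1 : Γ) : Γ ⧸ T.F) with hv₀
  set R : Submodule B (Y →₀ B) := gspan B T.F P ⊔
      (⨆ i, gspan B T.F (Le B γ Et L ⟨i, ((1 : Γ) : Γ ⧸ T.A i)⟩ : Set (Y →₀ B))) ⊔
      (⨆ i, gspan B T.F ((tr B (T.t i)⁻¹) ''
        (Le B γ Et L ⟨i, ((1 : Γ) : Γ ⧸ T.A i)⟩ : Set (Y →₀ B)))) ⊔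
      aug B (N ⊓ T.F) (Lv B γ Vt L v₀) with hR
  have hAugR : aug B (N ⊓ T.F) (Lv B γ Vt L v₀) ≤ R := le_sup_right
  have hPR : gspan B T.F P ≤ R := le_sup_left.trans (le_sup_left.trans le_sup_left)
  have hSR : ∀ i, gspan B T.F (Le B γ Et L ⟨i, ((1 : Γ) : Γ ⧸ T.A i)⟩ : Set (Y →₀ B)) ≤ R :=
    fun i => (le_iSup (fun i => gspan B T.F
      (Le B γ Et L ⟨i, ((1 : Γ) : Γ ⧸ T.A i)⟩ : Set (Y →₀ B))) i).trans
      (le_sup_right.trans (le_sup_left.trans le_sup_left))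
  have hTR : ∀ i, gspan B T.F ((tr B (T.t i)⁻¹) ''
        (Le B γ Et L ⟨i, ((1 : Γ) : Γ ⧸ T.A i)⟩ : Set (Y →₀ B))) ≤ R :=
    fun i => (le_iSup (fun i => gspan B T.F ((tr B (T.t i)⁻¹) ''
      (Le B γ Et L ⟨i, ((1 : Γ) : Γ ⧸ T.A i)⟩ : Set (Y →₀ B)))) i).trans
      (le_sup_right.trans le_sup_left)
  -- (3)
  have h3 : ∀ (g : Γ), ∀ p ∈ P, lamv T Y B N ((g : Γ) : Γ ⧸ T.F) (tr B g p) ∈ R := by
    intro g p hp
    by_cases h : ∃ n : Γ, n ∈ N ∧ ((n : Γ) : Γ ⧸ T.F) = ((g : Γ) : Γ ⧸ T.F)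
    · obtain ⟨n, hn, hv⟩ := h
      have hx : tr B g p ∈ Lv B γ Vt L ((g : Γ) : Γ ⧸ T.F) := by
        have := tr_mem_Lv hγ hL (hP hp) g
        rwa [T.smul_vmk, mul_one] at this
      have h1 := hAugR (lamv_sub_mem hγ hL hn hv hx)
      have hf : n⁻¹ * g ∈ T.F := by rw [← QuotientGroup.eq, hv]
      have e : tr B n⁻¹ (tr B g p) = tr B (n⁻¹ * g) p := by rw [← tr_mul]
      rw [e] at h1
      have h2 : tr B (n⁻¹ * g) p ∈ R := hPR (tr_mem_gspan hf hp)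
      have := R.add_mem h1 h2
      simpa using this
    · rw [lamv_zero h]
      exact R.zero_mem
  -- (4)
  have h4 : ∀ e, ∀ x ∈ Le B γ Et L e, lamv T Y B N (T.src e) x ∈ R := by
    intro e x hx
    obtain ⟨i, g, rfl⟩ := T.exists_rep e
    by_cases h : ∃ n : Γ, n ∈ N ∧ ((n : Γ) : Γ ⧸ T.F) = T.src ⟨i, (g : Γ ⧸ T.A i)⟩
    · obtain ⟨n, hn, hv⟩ := h
      have h1 := hAugR (lamv_sub_mem hγ hL hn hv (Le_le_src hg _ hx))
      have hf : n⁻¹ * g ∈ T.F := by rw [← QuotientGroup.eq, hv, T.src_mk]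
      have e : tr B n⁻¹ x = tr B (n⁻¹ * g) (tr B g⁻¹ x) := by
        rw [← tr_mul]
        congr 1
        group
      rw [e] at h1
      have hx' := tr_mem_Le hγ hL hx g⁻¹
      rw [T.smul_mk, inv_mul_cancel] at hx'
      have h2 : tr B (n⁻¹ * g) (tr B g⁻¹ x) ∈ R := hSR i (tr_mem_gspan hf hx')
      have := R.add_mem h1 h2
      simpa using this
    · rw [lamv_zero h]
      exact R.zero_mem
  -- (5)
  have h5 : ∀ e, ∀ x ∈ Le B γ Et L e, lamv T Y B N (T.tgt e) x ∈ R := by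
    intro e x hx
    obtain ⟨i, g, rfl⟩ := T.exists_rep e
    by_cases h : ∃ n : Γ, n ∈ N ∧ ((n : Γ) : Γ ⧸ T.F) = T.tgt ⟨i, (g : Γ ⧸ T.A i)⟩
    · obtain ⟨n, hn, hv⟩ := h
      have h1 := hAugR (lamv_sub_mem hγ hL hn hv (Le_le_tgt hg _ hx))
      have hf : n⁻¹ * (g * T.t i) ∈ T.F := by rw [← QuotientGroup.eq, hv, T.tgt_mk]
      have e : tr B n⁻¹ x = tr B (n⁻¹ * (g * T.t i)) (tr B (T.t i)⁻¹ (tr B g⁻¹ x)) := by
        rw [← tr_mul, ← tr_mul]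
        congr 1
        group
      rw [e] at h1
      have hx' := tr_mem_Le hγ hL hx g⁻¹
      rw [T.smul_mk, inv_mul_cancel] at hx'
      have h2 : tr B (n⁻¹ * (g * T.t i)) (tr B (T.t i)⁻¹ (tr B g⁻¹ x)) ∈ R :=
        hTR i (tr_mem_gspan hf ⟨_, hx', rfl⟩)
      have := R.add_mem h1 h2
      simpa using this
    · rw [lamv_zero h]
      exact R.zero_mem
  -- chains with values in the `L_v`
  let S : Submodule B ((Γ ⧸ T.F) →₀ (Y →₀ B)) :=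
    { carrier := {ζ | ∀ v, ζ v ∈ Lv B γ Vt L v}
      add_mem' := fun {a b} ha hb v => (Lv B γ Vt L v).add_mem (ha v) (hb v)
      zero_mem' := fun v => (Lv B γ Vt L v).zero_mem
      smul_mem' := fun c a ha v => (Lv B γ Vt L v).smul_mem c (ha v) }
  have hS1 : ∀ v, ∀ x ∈ Lv B γ Vt L v, Finsupp.single v x ∈ S := by
    classical
    intro v x hx w
    rw [Finsupp.single_apply]
    split_ifs with hvw
    · rw [← hvw]; exact hx
    · exact Submodule.zero_mem _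
  let σ : ((Γ ⧸ T.F) →₀ (Y →₀ B)) →ₗ[B] (Y →₀ B) := Finsupp.lsum B (fun _ => LinearMap.id)
  have hσ : ∀ ζ, σ ζ = ζ.sum fun _ m => m := fun ζ => rfl
  have hσs : ∀ v x, σ (Finsupp.single v x) = x := fun v x => by simp [σ]
  let W : Submodule B ((Γ ⧸ T.F) →₀ (Y →₀ B)) := S ⊓ R.comap (lam T Y B N)
  -- (6)
  have h6 : gspan B (⊤ : Subgroup Γ) P ≤ W.map σ := by
    refine Submodule.span_le.2 ?_
    rintro _ ⟨g, -, p, hp, rfl⟩
    refine ⟨Finsupp.single ((g : Γ) : Γ ⧸ T.F) (tr B g p), ⟨hS1 _ _ ?_, ?_⟩, hσs _ _⟩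
    · have := tr_mem_Lv hγ hL (hP hp) g
      rwa [T.smul_vmk, mul_one] at this
    · change lam T Y B N _ ∈ R
      rw [lam_single]
      exact h3 g p hp
  -- (7)
  have h7 : aug B N L ≤ W.map σ := by
    refine Submodule.span_le.2 ?_
    rintro _ ⟨n, hn, y, hy, rfl⟩
    obtain ⟨χ, hχ, hsum⟩ := (Submodule.mem_iSup_iff_exists_finsupp _ _).1 (hτ hy)
    refine ⟨χ.sum fun v x => Finsupp.single (n • v) (tr B n x) + Finsupp.single v (-x), ?_, ?_⟩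
    · refine Submodule.sum_mem _ fun v _ => ⟨?_, ?_⟩
      · exact add_mem (hS1 _ _ (tr_mem_Lv hγ hL (hχ v) n)) (hS1 _ _ (neg_mem (hχ v)))
      · change lam T Y B N (Finsupp.single (n • v) (tr B n (χ v)) + Finsupp.single v (-(χ v))) ∈ R
        rw [map_add, lam_single, lam_single, map_neg, ← sub_eq_add_neg]
        exact hAugR (lamv_smul_sub_mem hγ hL hn (hχ v))
    · rw [Finsupp.sum, map_sum]
      have h1 : ∀ v ∈ χ.support, σ (Finsupp.single (n • v) (tr B n (χ v)) +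
          Finsupp.single v (-(χ v))) = tr B n (χ v) - χ v := fun v _ => by
        rw [map_add, hσs, hσs, sub_eq_add_neg]
      refine (Finset.sum_congr rfl h1).trans ?_
      rw [Finset.sum_sub_distrib, ← map_sum]
      have : ∑ v ∈ χ.support, χ v = y := hsum
      rw [this]
  -- (8)
  intro x hx
  obtain ⟨ζ, ⟨hζS, hζR⟩, hζx⟩ := (hPL.trans (sup_le h6 h7)) hx.1
  have hξS : Finsupp.single v₀ x + (-1 : B) • ζ ∈ S := S.add_mem (hS1 _ _ hx) (S.smul_mem _ hζS)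
  have hξ0 : ((Finsupp.single v₀ x + (-1 : B) • ζ).sum fun _ m => m) = 0 := by
    rw [← hσ, map_add, hσs, map_smul, hζx, neg_smul, one_smul, add_neg_cancel]
  obtain ⟨η, hη, hbd⟩ := exact hg γ L _ hξS hξ0
  have hbd' : (Finsupp.single v₀ x + (-1 : B) • ζ) + Finsupp.mapDomain T.src η =
      Finsupp.mapDomain T.tgt η := by
    rw [hbd]
    ext v y
    exact congrArg (fun m : Y →₀ B => m y)
      (sub_add_cancel (Finsupp.mapDomain T.tgt η v) (Finsupp.mapDomain T.src η v))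
  have hlt : lam T Y B N (Finsupp.mapDomain T.tgt η) ∈ R := by
    rw [Finsupp.mapDomain, Finsupp.sum, map_sum]
    refine R.sum_mem fun e _ => ?_
    rw [lam_single]
    exact h5 e _ (hη e)
  have hls : lam T Y B N (Finsupp.mapDomain T.src η) ∈ R := by
    rw [Finsupp.mapDomain, Finsupp.sum, map_sum]
    refine R.sum_mem fun e _ => ?_
    rw [lam_single]
    exact h4 e _ (hη e)
  have hζR' : lam T Y B N ζ ∈ R := hζR
  rw [← hbd', map_add, map_add, map_smul, lam_single] at hlt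
  have h8 : lamv T Y B N v₀ x ∈ R := by
    have h9 := R.add_mem (R.sub_mem hlt hls) hζR'
    have e : lamv T Y B N v₀ x + (-1 : B) • lam T Y B N ζ + lam T Y B N (Finsupp.mapDomain T.src η)
        - lam T Y B N (Finsupp.mapDomain T.src η) + lam T Y B N ζ = lamv T Y B N v₀ x := by
      rw [neg_smul, one_smul]
      abel
    rwa [e] at h9
  have h10 := hAugR (lamv_sub_mem (v := v₀) (n := 1) hγ hL N.one_mem rfl hx)
  rw [inv_one, tr_one] at h10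
  have h11 := R.sub_mem h8 h10
  rwa [sub_sub_cancel] at h11

end TreeData

end CG
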