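import Pool.Agent.Helper32.CG.Basic

/-!
# Project CG, module Gamma

* `exists_gamma`: a free `Γ`-set admits an equivariant map `γ : Y → Γ`.
  Proof: choose a representative of each orbit (`MulAction.orbitRel.Quotient`, `Quotient.out`); for
  `y` choose `g` with `g • rep = y` (unique by freeness) and set `γ y = g`.
* `gamma_orb`: the points `y` of `orb ⊤ Z` with `γ y ∈ H T`, `T` finite, are in finitely many
  `H`-orbits: if `y = g • z`, `z ∈ Z`, then `γ y = g γ(z)`, so with `γ y = h t` we get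
  `y = h • (t • (γ z)⁻¹ • z)`. Take `Z' = {t • (γ z)⁻¹ • z | t ∈ T, z ∈ Z}` (`Finset.image₂`).
-/

namespace CG

variable {Γ : Type} [Group Γ] {Y : Type} [MulAction Γ Y]

theorem exists_gamma (hY : FreeAct Γ Y) : ∃ γ : Y → Γ, ∀ (g : Γ) (y : Y), γ (g • y) = g * γ y := by
  classical
  let rep : Y → Y := fun y => (Quotient.mk (MulAction.orbitRel Γ Y) y).out
  have hrep : ∀ y : Y, ∃ g : Γ, g • rep y = y := by
    intro y
    have h1 : (MulAction.orbitRel Γ Y) (rep y) y := Quotient.mk_out (s := MulAction.orbitRel Γ Y) y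
    have h2 : y ∈ MulAction.orbit Γ (rep y) := by
      have h3 := (MulAction.orbitRel Γ Y).symm h1
      exact MulAction.orbitRel_apply.1 h3
    exact MulAction.mem_orbit_iff.1 h2
  have hrep2 : ∀ (g : Γ) (y : Y), rep (g • y) = rep y := by
    intro g y
    have h1 : (Quotient.mk (MulAction.orbitRel Γ Y) (g • y)) =
        (Quotient.mk (MulAction.orbitRel Γ Y) y) := by
      apply Quotient.sound
      exact MulAction.orbitRel_apply.2 (MulAction.mem_orbit y g)
    change Quotient.out _ = Quotient.out _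
    rw [h1]
  choose γ hγ using hrep
  refine ⟨γ, fun g y => ?_⟩
  have h1 : γ (g • y) • rep y = g • y := by
    have := hγ (g • y)
    rwa [hrep2] at this
  have h2 : (g * γ y) • rep y = g • y := by
    rw [mul_smul, hγ y]
  have h3 : ((g * γ y)⁻¹ * γ (g • y)) • rep y = rep y := by
    rw [mul_smul, h1, ← h2, inv_smul_smul]
  have h4 := hY _ _ h3
  have h5 := inv_mul_eq_one.1 h4
  exact h5.symm

theorem gamma_orb {γ : Y → Γ} (hγ : ∀ (g : Γ) (y : Y), γ (g • y) = g * γ y) (Z : Finset Y)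
    (H : Subgroup Γ) (T : Finset Γ) :
    ∃ Z' : Finset Y, ∀ y ∈ orb (⊤ : Subgroup Γ) (Z : Set Y), (∃ h ∈ H, ∃ t ∈ T, γ y = h * t) →
      y ∈ orb H (Z' : Set Y) := by
  classical
  refine ⟨(T ×ˢ Z).image (fun p => p.1 • ((γ p.2)⁻¹ • p.2)), ?_⟩
  rintro _ ⟨g, -, z, hz, rfl⟩ ⟨h, hh, t, ht, e⟩
  refine ⟨h, hh, t • ((γ z)⁻¹ • z), ?_, ?_⟩
  · rw [Finset.mem_coe, Finset.mem_image]
    exact ⟨(t, z), Finset.mem_product.2 ⟨ht, hz⟩, rfl⟩
  · rw [hγ] at e
    rw [← mul_smul, ← mul_smul, ← e, mul_assoc, mul_inv_cancel, mul_one]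

end CG
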