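import Pool.Agent.Helper32.CG.TreeBasic
import Pool.Agent.Helper32.CG.Gamma

/-!
# Project CG, module TreeOrb

Inside `orb ⊤ Z`, `Z` finite:
* `orb_vertex`: the points of `B_{v₀}` (`v₀ = F`) are in finitely many `F`-orbits. Proof: `γ(y)⁻¹ F ∈ Vt`; let `T`
  be the finite set of the `(Quotient.out v)⁻¹`, `v ∈ Vt`. With `v = γ(y)⁻¹ F`,
  `γ(y)⁻¹ = out(v) f`, so `γ(y) = f⁻¹ out(v)⁻¹`; apply `gamma_orb` with `H = F`.
* `orb_edge`: the points of `B_{e_i}`, `e_i = (i, A_i)`, are in finitely many `A_i`-orbits: the same with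
  `H = A_i` and the finite set of the `(out q)⁻¹`, `(i, q) ∈ Et`.
-/

namespace CG

namespace TreeData

variable {Γ : Type} [Group Γ] {T : TreeData Γ} {Y : Type} [MulAction Γ Y]

open Classical in
theorem orb_coset_aux {γ : Y → Γ} (hγ : ∀ (g : Γ) (y : Y), γ (g • y) = g * γ y) (Z : Finset Y)
    (H : Subgroup Γ) (Q : Finset (Γ ⧸ H)) :
    ∃ Z' : Finset Y, ∀ y ∈ orb (⊤ : Subgroup Γ) (Z : Set Y),
      (γ y)⁻¹ • ((1 : Γ) : Γ ⧸ H) ∈ Q → y ∈ orb H (Z' : Set Y) := by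
  obtain ⟨Z', hZ'⟩ := gamma_orb hγ Z H (Q.image (fun q => (Quotient.out q)⁻¹))
  refine ⟨Z', fun y hy hq => hZ' y hy ?_⟩
  have e1 : (γ y)⁻¹ • ((1 : Γ) : Γ ⧸ H) = (((γ y)⁻¹ : Γ) : Γ ⧸ H) := by
    rw [MulAction.Quotient.smul_coe, smul_eq_mul, mul_one]
  rw [e1] at hq
  set q : Γ ⧸ H := (((γ y)⁻¹ : Γ) : Γ ⧸ H) with hqdef
  have h1 : ((Quotient.out q : Γ) : Γ ⧸ H) = (((γ y)⁻¹ : Γ) : Γ ⧸ H) := Quotient.out_eq' q
  rw [QuotientGroup.eq] at h1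
  have h2 := H.inv_mem h1
  refine ⟨γ y * Quotient.out q, ?_, (Quotient.out q)⁻¹, Finset.mem_image_of_mem _ hq, ?_⟩
  · have e2 : ((Quotient.out q)⁻¹ * (γ y)⁻¹)⁻¹ = γ y * Quotient.out q := by
      rw [mul_inv_rev, inv_inv, inv_inv]
    rw [← e2]
    exact h2
  · group

theorem orb_vertex (Vt : Finset (Γ ⧸ T.F)) {γ : Y → Γ}
    (hγ : ∀ (g : Γ) (y : Y), γ (g • y) = g * γ y) (Z : Finset Y) :
    ∃ Z' : Finset Y, orb (⊤ : Subgroup Γ) (Z : Set Y) ∩ Bv γ Vt ((1 : Γ) : Γ ⧸ T.F) ⊆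
      orb T.F (Z' : Set Y) := by
  obtain ⟨Z', hZ'⟩ := orb_coset_aux hγ Z T.F Vt
  exact ⟨Z', fun y hy => hZ' y hy.1 hy.2⟩

theorem orb_edge (Et : Finset (Σ i, Γ ⧸ T.A i)) {γ : Y → Γ}
    (hγ : ∀ (g : Γ) (y : Y), γ (g • y) = g * γ y) (Z : Finset Y) (i : T.I) :
    ∃ Z' : Finset Y, orb (⊤ : Subgroup Γ) (Z : Set Y) ∩
      Be γ Et (⟨i, ((1 : Γ) : Γ ⧸ T.A i)⟩ : Σ i, Γ ⧸ T.A i) ⊆ orb (T.A i) (Z' : Set Y) := by
  classical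
  have hinj : Function.Injective (fun q : Γ ⧸ T.A i => (⟨i, q⟩ : Σ i, Γ ⧸ T.A i)) := by
    intro a b hab
    simpa using hab
  obtain ⟨Z', hZ'⟩ := orb_coset_aux hγ Z (T.A i) (Et.preimage _ hinj.injOn)
  refine ⟨Z', fun y hy => hZ' y hy.1 ?_⟩
  rw [Finset.mem_preimage]
  exact hy.2

end TreeData

end CG
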