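import Pool.Agent.Helper32.CG.TreeSep
import Pool.Agent.Helper32.CG.TreeKey
import Pool.Agent.Helper32.CG.TreeGood
import Pool.Agent.Helper32.CG.TreeOrb
import Pool.Agent.Helper32.CG.LemAB

/-! Project CG: the tree theorem (assembly, proved from the modules). -/

namespace CG

open TreeData in
theorem tree_star {B : Type} [CommRing B] {Γ : Type} [Group Γ] (T : TreeData Γ) (N : Subgroup Γ)
    (hN : IsFreeGroup ↥N) (hA : ∀ i, NoethAct B ↥(T.A i) ⊥)
    (hfree : ∀ (i : T.I) (g : Γ), ∀ n ∈ N, g⁻¹ * n * g ∈ T.A i → n = 1)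
    (hF : Star B ↥T.F (N.subgroupOf T.F)) : Star B Γ N := by
  classical
  intro Y _ hY Z L hLZ hL hex
  obtain ⟨s, hsL, hLs⟩ := hex
  obtain ⟨γ, hγ⟩ := exists_gamma hY
  let S : Finset (Γ ⧸ T.F) :=
    s.biUnion fun m => m.support.image fun y => (((γ y)⁻¹ : Γ) : Γ ⧸ T.F)
  obtain ⟨Vt, Et, hg, hS⟩ := T.exists_good S
  have hs1 : (s : Set (Y →₀ B)) ⊆ (Lv B γ Vt L ((1 : Γ) : Γ ⧸ T.F) : Set (Y →₀ B)) := by
    intro m hm
    refine ⟨hsL hm, mem_supp.2 fun y hy => ?_⟩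
    change (γ y)⁻¹ • ((1 : Γ) : Γ ⧸ T.F) ∈ Vt
    rw [smul_vmk, mul_one]
    apply hS
    exact Finset.mem_biUnion.2 ⟨m, hm, Finset.mem_image.2 ⟨y, by simpa using hy, rfl⟩⟩
  have hstbτ : Stb B (⊤ : Subgroup Γ) (⨆ v, Lv B γ Vt L v) := by
    intro g _ y hy
    have : (⨆ v, Lv B γ Vt L v) ≤ (⨆ v, Lv B γ Vt L v).comap (tr B g) := by
      refine iSup_le fun v z hz => ?_
      exact Submodule.mem_iSup_of_mem (g • v) (tr_mem_Lv hγ hL hz g)
    exact this hy
  have hs2 : (s : Set (Y →₀ B)) ⊆ ((⨆ v, Lv B γ Vt L v : Submodule B (Y →₀ B)) :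
      Set (Y →₀ B)) := fun m hm => Submodule.mem_iSup_of_mem _ (hs1 hm)
  have hτ : L ≤ ⨆ v, Lv B γ Vt L v :=
    lemB hN (hL.mono le_top) (iSup_le fun v => inf_le_left) (tree_sep hg hγ N hfree L hL)
      (hLs.trans (sup_le_sup_right (gspan_le hstbτ hs2) _))
  have key := tree_key hg hγ N L hL (s : Set (Y →₀ B)) hs1 hLs hτ
  have hLe : ∀ i, GFG B (T.A i) (Le B γ Et L ⟨i, ((1 : Γ) : Γ ⧸ T.A i)⟩) := by
    intro i
    obtain ⟨Z', hZ'⟩ := orb_edge Et hγ Z i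
    refine (hA i).apply_bot Z' _ ?_ ?_
    · intro m hm
      refine mem_supp.2 fun y hy => ?_
      exact hZ' ⟨mem_supp.1 (hLZ hm.1) y hy, mem_supp.1 hm.2 y hy⟩
    · intro a ha m hm
      have := tr_mem_Le hγ hL hm a
      have e : a • (⟨i, ((1 : Γ) : Γ ⧸ T.A i)⟩ : Σ i, Γ ⧸ T.A i) = ⟨i, ((1 : Γ) : Γ ⧸ T.A i)⟩ := by
        rw [smul_mk, mul_one]
        congr 1
        exact QuotientGroup.eq.2 (by simpa using (T.A i).inv_mem ha)
      rwa [e] at this
  choose Q hQ using hLe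
  have := T.fin
  cases nonempty_fintype T.I
  let s' : Finset (Y →₀ B) := s ∪ Finset.univ.biUnion Q ∪
    Finset.univ.biUnion (fun i => (Q i).image (tr B (T.t i)⁻¹))
  have hQe : ∀ i, (Q i : Set (Y →₀ B)) ⊆ (Le B γ Et L ⟨i, ((1 : Γ) : Γ ⧸ T.A i)⟩ :
      Set (Y →₀ B)) := by
    intro i
    rw [hQ i]
    exact subset_gspan _ _
  have hstbF : Stb B T.F (Lv B γ Vt L ((1 : Γ) : Γ ⧸ T.F)) := by
    intro f hf m hm
    have := tr_mem_Lv hγ hL hm f
    have e : f • ((1 : Γ) : Γ ⧸ T.F) = ((1 : Γ) : Γ ⧸ T.F) := by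
      rw [smul_vmk, mul_one]
      exact QuotientGroup.eq.2 (by simpa using T.F.inv_mem hf)
    rwa [e] at this
  have hs'v : (s' : Set (Y →₀ B)) ⊆ (Lv B γ Vt L ((1 : Γ) : Γ ⧸ T.F) : Set (Y →₀ B)) := by
    intro m hm
    simp only [s', Finset.coe_union, Finset.coe_biUnion, Set.mem_union, Set.mem_iUnion,
      Finset.mem_coe, Finset.mem_univ, Finset.mem_image] at hm
    rcases hm with (hm | ⟨i, -, hm⟩) | ⟨i, -, x, hx, rfl⟩
    · exact hs1 hm
    · have := Le_le_src hg _ (hQe i hm)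
      rwa [src_mk] at this
    · have h1 := Le_le_tgt hg _ (hQe i hx)
      rw [tgt_mk] at h1
      have h2 := tr_mem_Lv hγ hL h1 (T.t i)⁻¹
      rwa [smul_vmk, one_mul, inv_mul_cancel] at h2
  obtain ⟨Z', hZ'⟩ := orb_vertex Vt hγ Z
  have hv : GFG B T.F (Lv B γ Vt L ((1 : Γ) : Γ ⧸ T.F)) := by
    refine hF.apply hY Z' _ ?_ hstbF s' hs'v ?_
    · intro m hm
      refine mem_supp.2 fun y hy => ?_
      exact hZ' ⟨mem_supp.1 (hLZ hm.1) y hy, mem_supp.1 hm.2 y hy⟩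
    · refine key.trans (sup_le_sup_right (sup_le (sup_le ?_ (iSup_le fun i => ?_))
        (iSup_le fun i => ?_)) _)
      · refine gspan_mono le_rfl ?_
        intro m hm
        simp only [s', Finset.coe_union, Set.mem_union]
        exact Or.inl (Or.inl hm)
      · refine gspan_le (stb_gspan _ _) ?_
        have h1 : (Le B γ Et L ⟨i, ((1 : Γ) : Γ ⧸ T.A i)⟩) ≤ gspan B T.F (s' : Set (Y →₀ B)) := by
          rw [hQ i]
          refine gspan_mono (T.hAF i) ?_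
          intro m hm
          simp only [s', Finset.coe_union, Finset.coe_biUnion, Set.mem_union, Set.mem_iUnion]
          exact Or.inl (Or.inr ⟨i, by simp, hm⟩)
        exact h1
      · refine gspan_le (stb_gspan _ _) ?_
        rintro _ ⟨m, hm, rfl⟩
        have h1 : (Le B γ Et L ⟨i, ((1 : Γ) : Γ ⧸ T.A i)⟩) ≤
            (gspan B T.F (s' : Set (Y →₀ B))).comap (tr B (T.t i)⁻¹) := by
          rw [hQ i]
          refine Submodule.span_le.2 ?_
          rintro _ ⟨a, ha, q, hq, rfl⟩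
          change tr B (T.t i)⁻¹ (tr B a q) ∈ gspan B T.F (s' : Set (Y →₀ B))
          have e : tr B (T.t i)⁻¹ (tr B a q) =
              tr B ((T.t i)⁻¹ * a * T.t i) (tr B (T.t i)⁻¹ q) := by
            rw [← tr_mul, ← tr_mul]
            congr 1
            group
          rw [e]
          refine tr_mem_gspan (T.htF i a ha) ?_
          simp only [s', Finset.coe_union, Finset.coe_biUnion, Set.mem_union, Set.mem_iUnion,
            Finset.coe_image]
          exact Or.inr ⟨i, by simp, q, hq, rfl⟩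
        exact h1 hm
  obtain ⟨s'', hs''⟩ := hv
  have hsub : (s'' : Set (Y →₀ B)) ⊆ (Lv B γ Vt L ((1 : Γ) : Γ ⧸ T.F) : Set (Y →₀ B)) := by
    rw [hs'']
    exact subset_gspan _ _
  refine ⟨s'', le_antisymm (hτ.trans (iSup_le fun v => ?_)) (gspan_le hL fun m hm => (hsub hm).1)⟩
  intro m hm
  obtain ⟨g, rfl⟩ := QuotientGroup.mk_surjective v
  have h1 := tr_mem_Lv hγ hL hm g⁻¹
  rw [smul_vmk, inv_mul_cancel, hs''] at h1
  have h2 : tr B g⁻¹ m ∈ gspan B (⊤ : Subgroup Γ) (s'' : Set (Y →₀ B)) :=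
    gspan_mono le_top le_rfl h1
  have h3 := stb_gspan (⊤ : Subgroup Γ) (s'' : Set (Y →₀ B)) g (Subgroup.mem_top _) _ h2
  simpa using h3

end CG
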