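import Pool.Agent.Helper32.CG.Deriv
import Pool.Agent.Helper32.CG.StarBase
import Pool.Agent.Helper32.CG.TreeStar
import Pool.Agent.Helper32.CG.Trans

/-!
# Project CG, module StarFree

For a free group of finite rank and any subgroup `N`, `Star B (FreeGroup X) N` holds.

Proof. Take `T : TreeData (FreeGroup X)` with `F = ⊥`, `I = X`, `A i = ⊥`, `t i = of i` and the Fox
derivation `d` from `exists_free_deriv`, with `M = (Σ i, FreeGroup X ⧸ ⊥) →₀ ℤ` and `ρ = transEnd _ _` the
action by translation (`Trans.lean`), `δ i = single ⟨i, 1⟩ 1`.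
`d 1 = 0` follows from `d (1 * 1) = d 1 + d 1`. `gen`: `FreeGroup.closure_range_of`.
Then apply `tree_star`: `N` is free by Nielsen-Schreier (`subgroupIsFreeOfIsFree`), `NoethAct B ↥⊥ ⊥` by
`noethAct_of_comm`, `Star B ↥⊥ _` by `star_of_subsingleton`, and
`g⁻¹ n g ∈ ⊥` gives `n = 1`.
-/

namespace CG

theorem star_free (B : Type) [CommRing B] [IsNoetherianRing B] (X : Type) [Finite X]
    (N : Subgroup (FreeGroup X)) : Star B (FreeGroup X) N := by
  classical
  let Γ := FreeGroup X
  let A : X → Subgroup Γ := fun _ => ⊥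
  obtain ⟨D, hD1, hD2⟩ := exists_free_deriv (X := X) (M := (Σ i, Γ ⧸ A i) →₀ ℤ)
    (transEnd Γ (Σ i, Γ ⧸ A i))
    (fun i => Finsupp.single (⟨i, ((1 : Γ) : Γ ⧸ A i)⟩ : Σ i, Γ ⧸ A i) 1)
  have hD0 : D 1 = 0 := by
    have h := hD1 1 1
    rw [mul_one, map_one] at h
    have h2 : D 1 = D 1 + D 1 := h
    simpa using h2
  let T : TreeData Γ :=
    { F := ⊥
      I := X
      fin := inferInstance
      A := A
      t := fun i => FreeGroup.of i
      hAF := fun i => le_rfl
      htF := by
        intro i a ha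
        have ha1 : a = 1 := Subgroup.mem_bot.1 ha
        subst ha1
        simp
      gen := by
        rw [eq_top_iff, ← FreeGroup.closure_range_of X]
        exact Subgroup.closure_mono Set.subset_union_right
      d := D
      d_mul := fun g h => hD1 g h
      d_F := by
        intro f hf
        have hf1 : f = 1 := Subgroup.mem_bot.1 hf
        rw [hf1, hD0]
      d_t := fun i => hD2 i }
  have hfg : Group.FG (↥(⊥ : Subgroup Γ)) := inferInstance
  refine tree_star T N ?_ ?_ ?_ ?_
  · exact subgroupIsFreeOfIsFree N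
  · intro i
    refine noethAct_of_comm B (↥(⊥ : Subgroup Γ)) ⊥ ?_
    intro x _
    rw [Subsingleton.elim x 1]
    exact Subgroup.one_mem _
  · intro i g n _ h
    have h1 : g⁻¹ * n * g = 1 := Subgroup.mem_bot.1 h
    have h2 := congrArg (fun x : Γ => g * x * g⁻¹) h1
    simpa [mul_assoc] using h2
  · exact star_of_subsingleton B (↥(⊥ : Subgroup Γ)) _

end CG
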