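import Pool.Agent.Helper32.CG.Basic

/-!
# Project CG, module Deriv

Derivations on free groups and on presented groups with values in an abelian group `M` on which the
group acts, `ρ : G →* AddMonoid.End M`.

* `exists_free_deriv`: for every `δ : X → M` there is `D : FreeGroup X → M` with
  `D (x y) = D x + ρ x (D y)` and `D (of x) = δ x`. Proof: let `FreeGroup X` act on
  `M × FreeGroup X` by the permutations `π_x : (m, g) ↦ (δ x + ρ (of x) m, of x * g)` (inverse:
  `(m, g) ↦ (ρ (of x)⁻¹ (m - δ x), (of x)⁻¹ * g)`), `Λ := FreeGroup.lift π : FreeGroup X →* Equiv.Perm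
  (M × FreeGroup X)`, and put `D w := (Λ w (0, 1)).1`. By `FreeGroup.induction_on`,
  `Λ w (m, g) = (D w + ρ w m, w * g)`, which gives the product rule.
  (Alternatively: lift `x ↦ ⟨ofAdd (δ x), of x⟩` to `Multiplicative M ⋊[φ] FreeGroup X`.)
* `exists_pres_deriv`: on a presented group, given that every derivation `D` of the free
  group (for the induced action) with `D (of x) = δ x` kills the relators. Proof: the same permutations
  of `M × PresentedGroup rels`, `π_x : (m, g) ↦ (δ x + ρ (of x) m, of x * g)`; the free group lift `Λ`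
  satisfies `Λ w (m, g) = (D w + ρ [w] m, [w] * g)` with `D w := (Λ w (0, 1)).1` a derivation, so a
  relator `r` is sent to the identity (`D r = 0`, `[r] = 1`) and `Λ` factors through the
  presented group (`PresentedGroup.toGroup`).
-/

namespace CG

variable {X M : Type} [AddCommGroup M]

private theorem act_inv_left {G : Type} [Group G] (ρ : G →* AddMonoid.End M) (a : G) (m : M) :
    ρ a⁻¹ (ρ a m) = m := by
  have h : ρ (a⁻¹ * a) m = ρ a⁻¹ (ρ a m) := by rw [map_mul]; rfl
  rw [← h, inv_mul_cancel, map_one]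
  rfl

private theorem act_inv_right {G : Type} [Group G] (ρ : G →* AddMonoid.End M) (a : G) (m : M) :
    ρ a (ρ a⁻¹ m) = m := by
  have h : ρ (a * a⁻¹) m = ρ a (ρ a⁻¹ m) := by rw [map_mul]; rfl
  rw [← h, mul_inv_cancel, map_one]
  rfl

/-- the affine permutation of `M × G` attached to a generator -/
private noncomputable def affPerm {G : Type} [Group G] (ρ : G →* AddMonoid.End M) (a : G) (c : M) :
    Equiv.Perm (M × G) where
  toFun z := (c + ρ a z.1, a * z.2)
  invFun z := (ρ a⁻¹ (z.1 - c), a⁻¹ * z.2)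
  left_inv z := by
    ext
    · change ρ a⁻¹ (c + ρ a z.1 - c) = z.1
      rw [add_sub_cancel_left, act_inv_left]
    · change a⁻¹ * (a * z.2) = z.2
      rw [inv_mul_cancel_left]
  right_inv z := by
    ext
    · change c + ρ a (ρ a⁻¹ (z.1 - c)) = z.1
      rw [act_inv_right, add_sub_cancel]
    · change a * (a⁻¹ * z.2) = z.2
      rw [mul_inv_cancel_left]

private theorem lift_aff {G : Type} [Group G] (ρ : G →* AddMonoid.End M) (q : FreeGroup X →* G)
    (δ : X → M) (w : FreeGroup X) : ∀ (m : M) (g : G),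
    FreeGroup.lift (fun x => affPerm ρ (q (FreeGroup.of x)) (δ x)) w (m, g) =
      ((FreeGroup.lift (fun x => affPerm ρ (q (FreeGroup.of x)) (δ x)) w (0, 1)).1 + ρ (q w) m,
        q w * g) := by
  induction w using FreeGroup.induction_on with
  | C1 =>
    intro m g
    rw [map_one, map_one, map_one]
    simp
  | of x =>
    intro m g
    rw [FreeGroup.lift_apply_of]
    change (δ x + ρ (q (FreeGroup.of x)) m, q (FreeGroup.of x) * g) =
      (δ x + ρ (q (FreeGroup.of x)) 0 + ρ (q (FreeGroup.of x)) m, q (FreeGroup.of x) * g)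
    rw [map_zero, add_zero]
  | inv_of x _ =>
    intro m g
    rw [map_inv, map_inv, FreeGroup.lift_apply_of]
    change (ρ (q (FreeGroup.of x))⁻¹ (m - δ x), (q (FreeGroup.of x))⁻¹ * g) =
      (ρ (q (FreeGroup.of x))⁻¹ (0 - δ x) + ρ (q (FreeGroup.of x))⁻¹ m,
        (q (FreeGroup.of x))⁻¹ * g)
    rw [map_sub, map_sub, map_zero]
    congr 1
    abel
  | mul x y hx hy =>
    intro m g
    rw [map_mul, Equiv.Perm.mul_apply, Equiv.Perm.mul_apply, hy m g, hy 0 1, hx, map_zero, add_zero,
      mul_one, hx _ (q y), map_mul, map_mul, map_add]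
    rw [add_assoc, mul_assoc]
    rfl

private theorem lift_aff_mul {G : Type} [Group G] (ρ : G →* AddMonoid.End M)
    (q : FreeGroup X →* G) (δ : X → M) (x y : FreeGroup X) :
    (FreeGroup.lift (fun x => affPerm ρ (q (FreeGroup.of x)) (δ x)) (x * y) (0, 1)).1 =
      (FreeGroup.lift (fun x => affPerm ρ (q (FreeGroup.of x)) (δ x)) x (0, 1)).1 +
        ρ (q x) (FreeGroup.lift (fun x => affPerm ρ (q (FreeGroup.of x)) (δ x)) y (0, 1)).1 := by
  rw [map_mul, Equiv.Perm.mul_apply, lift_aff ρ q δ y 0 1, map_zero, add_zero, lift_aff ρ q δ x]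

private theorem lift_aff_of {G : Type} [Group G] (ρ : G →* AddMonoid.End M)
    (q : FreeGroup X →* G) (δ : X → M) (x : X) :
    (FreeGroup.lift (fun x => affPerm ρ (q (FreeGroup.of x)) (δ x)) (FreeGroup.of x) (0, 1)).1 =
      δ x := by
  rw [FreeGroup.lift_apply_of]
  change δ x + ρ (q (FreeGroup.of x)) 0 = δ x
  rw [map_zero, add_zero]

theorem exists_free_deriv (ρ : FreeGroup X →* AddMonoid.End M) (δ : X → M) :
    ∃ D : FreeGroup X → M, (∀ x y, D (x * y) = D x + ρ x (D y)) ∧
      ∀ x, D (FreeGroup.of x) = δ x :=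
  ⟨fun w => (FreeGroup.lift (fun x => affPerm ρ (MonoidHom.id _ (FreeGroup.of x)) (δ x)) w
    (0, 1)).1, fun x y => lift_aff_mul ρ (MonoidHom.id _) δ x y,
    fun x => lift_aff_of ρ (MonoidHom.id _) δ x⟩

theorem exists_pres_deriv (rels : Set (FreeGroup X))
    (ρ : PresentedGroup rels →* AddMonoid.End M) (δ : X → M)
    (h : ∀ D : FreeGroup X → M,
      (∀ x y, D (x * y) = D x + ρ (PresentedGroup.mk rels x) (D y)) →
      (∀ x, D (FreeGroup.of x) = δ x) → ∀ r ∈ rels, D r = 0) :
    ∃ D : PresentedGroup rels → M, (∀ x y, D (x * y) = D x + ρ x (D y)) ∧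
      ∀ x, D (PresentedGroup.of x) = δ x := by
  have h0 := h (fun w => (FreeGroup.lift (fun x => affPerm ρ (PresentedGroup.mk rels
    (FreeGroup.of x)) (δ x)) w (0, 1)).1) (fun x y => lift_aff_mul ρ (PresentedGroup.mk rels) δ x y)
    (fun x => lift_aff_of ρ (PresentedGroup.mk rels) δ x)
  have h1 : ∀ r ∈ rels, FreeGroup.lift (fun x => affPerm ρ (PresentedGroup.mk rels
      (FreeGroup.of x)) (δ x)) r = 1 := by
    intro r hr
    refine Equiv.ext fun z => ?_
    obtain ⟨m, g⟩ := z
    rw [lift_aff ρ (PresentedGroup.mk rels) δ r m g, PresentedGroup.one_of_mem hr, map_one]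
    rw [h0 r hr, zero_add, one_mul]
    rfl
  refine ⟨fun p => (PresentedGroup.toGroup h1 p (0, 1)).1, ?_, ?_⟩
  · intro p p'
    obtain ⟨x, rfl⟩ := PresentedGroup.mk_surjective rels p
    obtain ⟨y, rfl⟩ := PresentedGroup.mk_surjective rels p'
    exact lift_aff_mul ρ (PresentedGroup.mk rels) δ x y
  · intro x
    exact lift_aff_of ρ (PresentedGroup.mk rels) δ x

end CG
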