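import Pool.Agent.Helper32.CG.SurfDefs
import Pool.Agent.Helper32.CG.Deriv

/-!
# Project CG, module SurfTree

The surface group of genus `h + 1` acts on a tree with one orbit of vertices and one orbit of edges,
vertex group `F = range iota`, edge group `A = ⟨a₀⟩`, stable letter `t = b₀⁻¹`.

Proof. `I = Unit`. `A ≤ F`: `a₀ = iota (of none)`. `t⁻¹ a₀^k t = b₀ a₀^k b₀⁻¹ = (b₀ a₀ b₀⁻¹)^k ∈ F` by
`surf_conj`. `gen`: `surf_closure`. The derivation: `exists_pres_deriv` for
`M = (Σ _ : Unit, S ⧸ ⟨a₀⟩) →₀ ℤ`, `ρ = transEnd _ _`, `δ (0, true) = - b₀ • [A]`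
(`- Finsupp.single (b₀ • ⟨(), 1⟩) 1`) and `δ = 0` on the other generators. Every such
derivation `D` of the free group kills the relator: `SurfRel (h + 1) = [a, b] * commProd (..)`
(`commProd_succ`), `D` vanishes on the subgroup generated by the generators with `δ = 0`
(`D (x y) = D x + ρ x (D y)`, `D x⁻¹ = - ρ x⁻¹ (D x)`; for `commProd` use `List.prod` induction), so
`D` of the second factor is zero, and
`D (a b a⁻¹ b⁻¹) = ρ a (D b) + ρ (a b a⁻¹) (D b⁻¹)`, `D b⁻¹ = - ρ b⁻¹ (D b) = [A]`, i.e.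
`- a₀ b₀ [A] + a₀ b₀ a₀⁻¹ [A] = 0` as `a₀⁻¹ • [A] = [A]`.
`d` vanishes on `F`: on the generators of `F` and `{x | d x = 0}` is closed under products and inverses
(`F = range iota`, `FreeGroup.induction_on`).
`d t = d b₀⁻¹ = - ρ b₀⁻¹ (d b₀) = [A] = single ⟨(), 1⟩ 1`.
-/

namespace CG

section deriv

variable {G M : Type} [Group G] [AddCommGroup M]

theorem surfTree_D_one {ρ : G →* AddMonoid.End M} {D : G → M}
    (hD : ∀ x y, D (x * y) = D x + ρ x (D y)) : D 1 = 0 := by
  have h := hD 1 1
  rw [mul_one, map_one] at h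
  change D 1 = D 1 + D 1 at h
  exact left_eq_add.1 h

theorem surfTree_D_inv {ρ : G →* AddMonoid.End M} {D : G → M}
    (hD : ∀ x y, D (x * y) = D x + ρ x (D y)) (x : G) : D x⁻¹ = - ρ x⁻¹ (D x) := by
  have h := hD x⁻¹ x
  rw [inv_mul_cancel, surfTree_D_one hD] at h
  exact eq_neg_of_add_eq_zero_left h.symm

/-- the kernel of a derivation -/
def surfTreeKer (ρ : G →* AddMonoid.End M) (D : G → M)
    (hD : ∀ x y, D (x * y) = D x + ρ x (D y)) : Subgroup G where
  carrier := {x | D x = 0}
  mul_mem' := by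
    intro a b ha hb
    change D (a * b) = 0
    have ha' : D a = 0 := ha
    have hb' : D b = 0 := hb
    rw [hD, ha', hb', map_zero, add_zero]
  one_mem' := surfTree_D_one hD
  inv_mem' := by
    intro a ha
    change D a⁻¹ = 0
    have ha' : D a = 0 := ha
    rw [surfTree_D_inv hD, ha', map_zero, neg_zero]

theorem mem_surfTreeKer {ρ : G →* AddMonoid.End M} {D : G → M}
    {hD : ∀ x y, D (x * y) = D x + ρ x (D y)} {x : G} :
    x ∈ surfTreeKer ρ D hD ↔ D x = 0 := Iff.rfl

theorem surfTree_commProd_mem {g : ℕ} (K : Subgroup G) (x : Fin g × Bool → G)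
    (hx : ∀ q, x q ∈ K) : commProd x ∈ K := by
  rw [commProd]
  apply Subgroup.list_prod_mem
  intro y hy
  obtain ⟨i, -, rfl⟩ := List.mem_map.1 hy
  exact K.mul_mem (K.mul_mem (K.mul_mem (hx _) (hx _)) (K.inv_mem (hx _))) (K.inv_mem (hx _))

end deriv

theorem exists_surfTree (h : ℕ) : ∃ T : TreeData (SurfaceGroup (h + 1)),
    T.F = (iota h).range ∧ ∀ i, T.A i = Subgroup.zpowers (a0 h) := by
  classical
  have e1 : (a0 h)⁻¹ • (⟨(), ((1 : SurfaceGroup (h + 1)) :
      SurfaceGroup (h + 1) ⧸ Subgroup.zpowers (a0 h))⟩ :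
      Σ _ : Unit, SurfaceGroup (h + 1) ⧸ Subgroup.zpowers (a0 h)) =
      ⟨(), ((1 : SurfaceGroup (h + 1)) :
      SurfaceGroup (h + 1) ⧸ Subgroup.zpowers (a0 h))⟩ := by
    change (⟨(), (((a0 h)⁻¹ * 1 : SurfaceGroup (h + 1)) :
      SurfaceGroup (h + 1) ⧸ Subgroup.zpowers (a0 h))⟩ :
      Σ _ : Unit, SurfaceGroup (h + 1) ⧸ Subgroup.zpowers (a0 h)) = _
    congr 1
    rw [QuotientGroup.eq]
    simp
  generalize he : (⟨(), ((1 : SurfaceGroup (h + 1)) :
      SurfaceGroup (h + 1) ⧸ Subgroup.zpowers (a0 h))⟩ :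
      Σ _ : Unit, SurfaceGroup (h + 1) ⧸ Subgroup.zpowers (a0 h)) = e0 at e1
  have key : ∀ D : FreeGroup (Fin (h + 1) × Bool) →
      ((Σ _ : Unit, SurfaceGroup (h + 1) ⧸ Subgroup.zpowers (a0 h)) →₀ ℤ),
      (∀ x y, D (x * y) = D x + (transEnd (SurfaceGroup (h + 1))
        (Σ _ : Unit, SurfaceGroup (h + 1) ⧸ Subgroup.zpowers (a0 h)))
        (PresentedGroup.mk ({SurfRel (h + 1)} : Set (FreeGroup (Fin (h + 1) × Bool))) x) (D y)) →
      (∀ x, D (FreeGroup.of x) =
        if x = (0, true) then - Finsupp.single (b0 h • e0) 1 else 0) →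
      ∀ r ∈ ({SurfRel (h + 1)} : Set (FreeGroup (Fin (h + 1) × Bool))), D r = 0 := by
    intro D hD hδ r hr
    rw [Set.mem_singleton_iff] at hr
    subst hr
    have hD' : ∀ x y, D (x * y) = D x + ((transEnd (SurfaceGroup (h + 1))
        (Σ _ : Unit, SurfaceGroup (h + 1) ⧸ Subgroup.zpowers (a0 h))).comp
        (PresentedGroup.mk ({SurfRel (h + 1)} : Set (FreeGroup (Fin (h + 1) × Bool))))) x (D y) :=
      hD
    have hcomm : D (commProd (fun p : Fin h × Bool =>
        FreeGroup.of ((p.1.succ, p.2) : Fin (h + 1) × Bool))) = 0 := by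
      apply mem_surfTreeKer.1
      · apply surfTree_commProd_mem (surfTreeKer _ D hD')
        intro q
        rw [mem_surfTreeKer, hδ, if_neg]
        intro hq
        exact Fin.succ_ne_zero _ (congrArg Prod.fst hq)
    have ha : D (FreeGroup.of ((0, false) : Fin (h + 1) × Bool)) = 0 := by
      rw [hδ, if_neg]
      intro hq
      exact Bool.false_ne_true (congrArg Prod.snd hq)
    have hb : D (FreeGroup.of ((0, true) : Fin (h + 1) × Bool)) =
        - Finsupp.single (b0 h • e0) 1 := by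
      rw [hδ, if_pos rfl]
    have ha' : D (FreeGroup.of ((0, false) : Fin (h + 1) × Bool))⁻¹ = 0 := by
      rw [surfTree_D_inv hD', ha, map_zero, neg_zero]
    have hb' : D (FreeGroup.of ((0, true) : Fin (h + 1) × Bool))⁻¹ = Finsupp.single e0 1 := by
      rw [surfTree_D_inv hD', hb, map_neg, neg_neg]
      change (transEnd (SurfaceGroup (h + 1))
        (Σ _ : Unit, SurfaceGroup (h + 1) ⧸ Subgroup.zpowers (a0 h))) (b0 h)⁻¹ _ = _
      rw [transEnd_apply, Finsupp.mapDomain_single, inv_smul_smul]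
    have hrel : SurfRel (h + 1) = FreeGroup.of ((0, false) : Fin (h + 1) × Bool) *
        FreeGroup.of ((0, true) : Fin (h + 1) × Bool) *
        (FreeGroup.of ((0, false) : Fin (h + 1) × Bool))⁻¹ *
        (FreeGroup.of ((0, true) : Fin (h + 1) × Bool))⁻¹ *
        commProd (fun p : Fin h × Bool =>
          FreeGroup.of ((p.1.succ, p.2) : Fin (h + 1) × Bool)) := commProd_succ _
    refine (congrArg D hrel).trans ?_
    rw [hD, hcomm, map_zero, add_zero, hD, hD, ha', map_zero, add_zero,
      hD, ha, zero_add, hb, hb']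
    rw [map_neg]
    change - (transEnd (SurfaceGroup (h + 1))
        (Σ _ : Unit, SurfaceGroup (h + 1) ⧸ Subgroup.zpowers (a0 h))) (a0 h) _ +
        (transEnd (SurfaceGroup (h + 1))
        (Σ _ : Unit, SurfaceGroup (h + 1) ⧸ Subgroup.zpowers (a0 h)))
          (a0 h * b0 h * (a0 h)⁻¹) _ = 0
    rw [transEnd_apply, transEnd_apply, Finsupp.mapDomain_single, Finsupp.mapDomain_single,
      mul_smul, mul_smul, e1, neg_add_cancel]
  obtain ⟨d, hd1, hd2⟩ := exists_pres_deriv _ _ _ key
  have hda : d (a0 h) = 0 := by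
    refine (hd2 (0, false)).trans ?_
    rw [if_neg]
    intro hq
    exact Bool.false_ne_true (congrArg Prod.snd hq)
  have hdab : ∀ p, d (ab h p) = 0 := by
    intro p
    refine (hd2 (p.1.succ, p.2)).trans ?_
    rw [if_neg]
    intro hq
    exact Fin.succ_ne_zero _ (congrArg Prod.fst hq)
  have hdb : d (b0 h) = - Finsupp.single (b0 h • e0) 1 := by
    refine (hd2 (0, true)).trans ?_
    rw [if_pos rfl]
  have hF : ∀ f ∈ (iota h).range, d f = 0 := by
    have hle : (iota h).range ≤ surfTreeKer _ d hd1 := by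
      rintro _ ⟨w, rfl⟩
      induction w using FreeGroup.induction_on with
      | C1 => rw [map_one]; exact Subgroup.one_mem _
      | of x =>
        cases x with
        | none =>
          rw [iota_none]
          exact hda
        | some p =>
          rw [iota_some]
          exact hdab p
      | inv_of x ih => rw [map_inv]; exact Subgroup.inv_mem _ ih
      | mul x y hx hy => rw [map_mul]; exact Subgroup.mul_mem _ hx hy
    exact fun f hf => hle hf
  refine ⟨{ F := (iota h).range
            I := Unit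
            fin := inferInstance
            A := fun _ => Subgroup.zpowers (a0 h)
            t := fun _ => (b0 h)⁻¹
            hAF := ?_
            htF := ?_
            gen := ?_
            d := d
            d_mul := hd1
            d_F := hF
            d_t := ?_ }, rfl, fun _ => rfl⟩
  · intro _
    rw [Subgroup.zpowers_le]
    exact ⟨_, iota_none h⟩
  · intro _ a ha
    obtain ⟨k, rfl⟩ := Subgroup.mem_zpowers_iff.1 ha
    rw [inv_inv, ← conj_zpow, surf_conj]
    exact Subgroup.zpow_mem _ (MonoidHom.mem_range.2 ⟨_, rfl⟩) k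
  · rw [eq_top_iff, ← surf_closure, Subgroup.closure_le]
    rintro x ((rfl | hx) | ⟨p, rfl⟩)
    · exact Subgroup.subset_closure (Or.inl ⟨_, iota_none h⟩)
    · rw [Set.mem_singleton_iff] at hx
      subst hx
      rw [SetLike.mem_coe, ← inv_inv (b0 h)]
      exact Subgroup.inv_mem _ (Subgroup.subset_closure (Or.inr (Set.mem_range_self ())))
    · exact Subgroup.subset_closure (Or.inl ⟨_, iota_some h p⟩)
  · rintro ⟨⟩
    rw [surfTree_D_inv hd1, hdb, map_neg, neg_neg, transEnd_apply, Finsupp.mapDomain_single,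
      inv_smul_smul, he]

end CG
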