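import Pool.Agent.Helper32.CG.SurfFacts
import Pool.Agent.Helper32.CG.SurfTree
import Pool.Agent.Helper32.CG.StarFree

/-! Project CG: property (*) for surface groups (assembly, proved from the modules). -/

namespace CG

theorem star_surf (B : Type) [CommRing B] [IsNoetherianRing B] (h : ℕ) :
    Star B (SurfaceGroup (h + 1)) (commutator (SurfaceGroup (h + 1))) := by
  obtain ⟨T, hF, hA⟩ := exists_surfTree h
  refine tree_star T _ (isFreeGroup_commutator h) ?_ ?_ ?_
  · intro i
    have : Group.FG ↥(T.A i) := by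
      rw [hA i, Group.fg_iff_subgroup_fg]
      exact ⟨{a0 h}, by rw [Finset.coe_singleton, Subgroup.zpowers_eq_closure]⟩
    refine noethAct_of_comm B ↥(T.A i) ⊥ ?_
    rw [commutator_def, Subgroup.commutator_le]
    rintro ⟨x, hx⟩ - ⟨y, hy⟩ -
    rw [hA i] at hx hy
    obtain ⟨m, rfl⟩ := Subgroup.mem_zpowers_iff.1 hx
    obtain ⟨n, rfl⟩ := Subgroup.mem_zpowers_iff.1 hy
    rw [Subgroup.mem_bot, commutatorElement_eq_one_iff_mul_comm]
    ext
    simp only [Subgroup.coe_mul]
    rw [← zpow_add, ← zpow_add, add_comm m n]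
  · intro i g n hn hg
    rw [hA i] at hg
    exact a0_conj h g n hn hg
  · have e : FreeGroup (XX h) ≃* ↥T.F :=
      (MonoidHom.ofInjective (iota_injective h)).trans (MulEquiv.subgroupCongr hF.symm)
    refine Star.of_equiv e (N := ((commutator (SurfaceGroup (h + 1))).subgroupOf T.F).comap
      e.toMonoidHom) (fun x => Iff.rfl) (star_free B (XX h) _)

end CG
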