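import Pool.Agent.Helper32.CG.Basic

/-!
# Project CG, module Translate

`Coh B G` implies that every finitely generated left ideal of the group ring is finitely
presented.

Proof. Let `R = MonoidAlgebra B G` and `I` the left ideal generated by `r : Fin n → R`
(`Submodule.fg_iff_exists_fin_generating_family`). Let `f : (Fin n → R) →ₗ[R] I`, `f x = ∑_i x_i • r_i`,
surjective. By `Module.finitePresentation_of_surjective` it suffices that `ker f` is finitely generated.
Let `Y = G × Fin n` with `g • (h, i) = (g h, i)` (`MulAction` defined by hand, or on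
`Σ _ : Fin n, G`, to be free), `Z = {(1, i)}`, `Y' = G` with left multiplication. There is a `B`-linear equivalence
`Ψ : (Y →₀ B) ≃ (Fin n → R)` with `(Ψ m) i g = m (g, i)` and `Ψ (tr g m) = single g 1 • Ψ m`, and `R` is `G →₀ B`
(as additive groups), with `tr g x = single g 1 * x`. The map `a = f ∘ Ψ : (Y →₀ B) →ₗ[B] (G →₀ B)`
is equivariant, so `ker a = gspan B ⊤ s`, `s` finite, and `ker f = Ψ(ker a)` is the `R`-span of the finite set
`Ψ(s)` (`b • single g 1 • Ψ m = Ψ (b • tr g m)`).
-/

namespace CG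

theorem fp_of_coh {B : Type} [CommRing B] {G : Type} [Group G] (h : Coh B G)
    (I : Submodule (MonoidAlgebra B G) (MonoidAlgebra B G)) (hI : I.FG) :
    Module.FinitePresentation (MonoidAlgebra B G) I := by
  classical
  obtain ⟨n, r, hr⟩ := Submodule.fg_iff_exists_fin_generating_family.1 hI
  subst hr
  let R := MonoidAlgebra B G
  let F : (Fin n → R) →ₗ[R] R := Fintype.linearCombination R r
  have hF : LinearMap.range F = Submodule.span R (Set.range r) :=
    Fintype.range_linearCombination R r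
  rw [← hF]
  refine Module.finitePresentation_of_surjective F.rangeRestrict
    (LinearMap.surjective_rangeRestrict F) ?_
  rw [LinearMap.ker_rangeRestrict]
  -- the free set
  let Y := (_ : Fin n) × G
  have hYfree : FreeAct G Y := by
    rintro g ⟨i, k⟩ hg
    have h1 : (⟨i, g * k⟩ : Y) = ⟨i, k⟩ := hg
    have h2 : g * k = k := by simpa using h1
    exact mul_eq_right.1 h2
  have hGfree : FreeAct G G := by
    intro g k hg
    exact mul_eq_right.1 hg
  let Z : Finset Y := Finset.univ.image fun i : Fin n => (⟨i, 1⟩ : Y)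
  have hZ : ∀ y : Y, y ∈ orb (⊤ : Subgroup G) (Z : Set Y) := by
    rintro ⟨i, k⟩
    refine ⟨k, Subgroup.mem_top _, ⟨i, 1⟩, ?_, ?_⟩
    · simp [Z]
    · change (⟨i, k⟩ : Y) = ⟨i, k * 1⟩
      rw [mul_one]
  let Ψ : (Y →₀ B) ≃ₗ[B] (Fin n → R) :=
    (Finsupp.sigmaFinsuppLEquivPiFinsupp B).trans
      (LinearEquiv.piCongrRight fun _ => (MonoidAlgebra.coeffLinearEquiv B).symm)
  have hΨ : ∀ (m : Y →₀ B) (i : Fin n) (k : G), (Ψ m i).coeff k = m ⟨i, k⟩ := by
    intro m i k
    rfl
  have hΨtr : ∀ (g : G) (m : Y →₀ B), Ψ (tr B g m) = MonoidAlgebra.single g (1 : B) • Ψ m := by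
    intro g m
    funext i
    refine MonoidAlgebra.ext ?_
    ext k
    rw [hΨ, Pi.smul_apply, smul_eq_mul, MonoidAlgebra.coeff_single_mul_apply, hΨ, one_mul,
      tr_apply]
    rfl
  let a : (Y →₀ B) →ₗ[B] (G →₀ B) :=
    (MonoidAlgebra.coeffLinearEquiv B).toLinearMap ∘ₗ (F.restrictScalars B) ∘ₗ Ψ.toLinearMap
  have ha' : ∀ m, a m = (F (Ψ m)).coeff := fun m => rfl
  have ha : ∀ (g : G) (m : Y →₀ B), a (tr B g m) = tr B g (a m) := by
    intro g m
    rw [ha', ha', hΨtr, map_smul]
    ext k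
    rw [smul_eq_mul, MonoidAlgebra.coeff_single_mul_apply, one_mul, tr_apply]
    rfl
  obtain ⟨s, hs⟩ := h Y G hYfree hGfree Z hZ a ha
  refine ⟨s.image Ψ, le_antisymm ?_ ?_⟩
  · refine Submodule.span_le.2 ?_
    intro x hx
    rw [Finset.coe_image] at hx
    obtain ⟨m, hm, rfl⟩ := hx
    have hm' : m ∈ LinearMap.ker a := by
      rw [hs]
      exact subset_gspan _ _ hm
    rw [LinearMap.mem_ker, ha'] at hm'
    exact MonoidAlgebra.coeff_eq_zero.1 hm'
  · intro x hx
    obtain ⟨m, rfl⟩ := Ψ.surjective x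
    have hm : m ∈ gspan B (⊤ : Subgroup G) (s : Set (Y →₀ B)) := by
      rw [← hs, LinearMap.mem_ker, ha']
      have hx' : F (Ψ m) = 0 := hx
      rw [hx']
      rfl
    have hle : gspan B (⊤ : Subgroup G) (s : Set (Y →₀ B)) ≤
        ((Submodule.span R ((s.image Ψ : Finset (Fin n → R)) : Set (Fin n → R))).restrictScalars
          B).comap Ψ.toLinearMap := by
      refine Submodule.span_le.2 ?_
      rintro _ ⟨g, -, y, hy, rfl⟩
      change Ψ (tr B g y) ∈ Submodule.span R _
      rw [hΨtr]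
      refine Submodule.smul_mem _ _ (Submodule.subset_span ?_)
      rw [Finset.coe_image]
      exact ⟨y, hy, rfl⟩
    exact hle hm

end CG
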