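import Pool.Agent.Helper32.CG.Main
import Pool.Agent.Helper32.CG.StarSurf
import Pool.Agent.Helper32.CG.FinIndex
import Pool.Agent.Helper32.CG.Translate

/-! Project CG: the final theorem (assembly, proved from the modules). -/

namespace CG

theorem coh_surf (B : Type) [CommRing B] [IsNoetherianRing B] {G : Type} [Group G]
    (S : Subgroup G) (hSn : S.Normal) (g : ℕ) (hg : 1 ≤ g) (e : ↥S ≃* SurfaceGroup g)
    (p : G →* Multiplicative ℤ) (hp : Function.Surjective p) (hpS : p.ker = S) : Coh B G := by
  obtain ⟨h, rfl⟩ : ∃ h, g = h + 1 := ⟨g - 1, by omega⟩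
  subst hpS
  have hmap : (commutator ↥p.ker).map p.ker.subtype = ⁅p.ker, p.ker⁆ :=
    Subgroup.map_subtype_commutator _
  have hsub : (⁅p.ker, p.ker⁆ : Subgroup G).subgroupOf p.ker = commutator ↥p.ker := by
    rw [← hmap, Subgroup.subgroupOf, Subgroup.comap_map_eq_self_of_injective]
    exact Subtype.coe_injective
  have hcomm : ∀ x, x ∈ commutator (SurfaceGroup (h + 1)) ↔ e.symm x ∈ commutator ↥p.ker := by
    intro x
    have : (commutator (SurfaceGroup (h + 1))).map e.symm.toMonoidHom = commutator ↥p.ker := by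
      rw [commutator_def, Subgroup.map_commutator, commutator_def]
      congr 1 <;> exact Subgroup.map_top_of_surjective _ e.symm.surjective
    rw [← this]
    constructor
    · intro hx
      exact ⟨x, hx, rfl⟩
    · rintro ⟨y, hy, hyx⟩
      have : y = x := e.symm.injective hyx
      rwa [← this]
  have hfree1 : IsFreeGroup ↥(commutator (SurfaceGroup (h + 1))) := isFreeGroup_commutator h
  have hfree : IsFreeGroup ↥(⁅p.ker, p.ker⁆ : Subgroup G) := by
    have e1 : ↥(commutator (SurfaceGroup (h + 1))) ≃* ↥(commutator ↥p.ker) :=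
      { toFun := fun x => ⟨e.symm x, (hcomm x).1 x.2⟩
        invFun := fun y => ⟨e y, (hcomm (e y)).2 (by simpa using y.2)⟩
        left_inv := fun x => by ext; simp
        right_inv := fun x => by ext; simp
        map_mul' := fun x y => by ext; simp }
    have e2 : ↥(commutator ↥p.ker) ≃* ↥(⁅p.ker, p.ker⁆ : Subgroup G) :=
      ((commutator ↥p.ker).equivMapOfInjective p.ker.subtype Subtype.coe_injective).trans
        (MulEquiv.subgroupCongr hmap)
    exact IsFreeGroup.ofMulEquiv (e1.trans e2)
  have hfg : Group.FG ↥p.ker := by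
    have := surf_fg (h + 1)
    exact Group.fg_of_surjective (f := e.symm.toMonoidHom) e.symm.surjective
  refine main_coh (p := p) hp (N := ⁅p.ker, p.ker⁆) inferInstance
    (Subgroup.commutator_le_left _ _) hfree ?_ ?_
  · rw [hsub]
    exact Star.of_equiv e.symm hcomm (star_surf B h)
  · rw [hsub]
    exact noethAct_of_comm B ↥p.ker _ le_rfl

theorem final (B : Type) [CommRing B] [IsNoetherianRing B] (G : Type) [Group G]
    (G₁ : Subgroup G) [G₁.FiniteIndex] (S : Subgroup ↥G₁) [S.Normal] (g : ℕ) (hg : 1 ≤ g)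
    (e : ↥S ≃* SurfaceGroup g) (q : (↥G₁ ⧸ S) ≃* Multiplicative ℤ)
    (I : Submodule (MonoidAlgebra B G) (MonoidAlgebra B G)) (hI : I.FG) :
    Module.FinitePresentation (MonoidAlgebra B G) I := by
  refine fp_of_coh (coh_of_finiteIndex G₁ ?_) I hI
  refine coh_surf B S inferInstance g hg e (q.toMonoidHom.comp (QuotientGroup.mk' S))
    (q.surjective.comp (QuotientGroup.mk'_surjective S)) ?_
  ext x
  rw [MonoidHom.mem_ker]
  simp

end CG
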