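import Mathlib

/-!
# Project CG (coherence of group rings of 3-manifold groups): definitions

All modules are `B`-submodules of `Y →₀ B`, where `Y` is a set with an action of a group `Γ`,
and `Γ` acts on `Y →₀ B` by translation.
-/

namespace CG

section defs

variable (B : Type) [CommRing B] {Γ : Type} [Group Γ] {Y : Type} [MulAction Γ Y]

/-- Translation by `g`: `single y b ↦ single (g • y) b`. -/
noncomputable def tr (g : Γ) : (Y →₀ B) →ₗ[B] (Y →₀ B) :=
  Finsupp.lmapDomain B B (fun y => g • y)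

/-- `L` is stable under translation by the elements of `H`. -/
def Stb (H : Subgroup Γ) (L : Submodule B (Y →₀ B)) : Prop :=
  ∀ h ∈ H, ∀ y ∈ L, tr B h y ∈ L

/-- The `B`-span of the `H`-translates of the elements of `s`. -/
noncomputable def gspan (H : Subgroup Γ) (s : Set (Y →₀ B)) : Submodule B (Y →₀ B) :=
  Submodule.span B {z | ∃ h ∈ H, ∃ y ∈ s, z = tr B h y}

/-- `L` is generated by finitely many elements as a module over `B` and `H`. -/
def GFG (H : Subgroup Γ) (L : Submodule B (Y →₀ B)) : Prop :=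
  ∃ s : Finset (Y →₀ B), L = gspan B H (s : Set (Y →₀ B))

/-- The augmentation submodule: the span of the `n y - y`, `n ∈ N`, `y ∈ L`. -/
noncomputable def aug (N : Subgroup Γ) (L : Submodule B (Y →₀ B)) : Submodule B (Y →₀ B) :=
  Submodule.span B {z | ∃ n ∈ N, ∃ y ∈ L, z = tr B n y - y}

end defs

section acts

variable {Γ : Type} [Group Γ] {Y : Type} [MulAction Γ Y]

/-- The union of the `H`-orbits of the points of `Z`. -/
def orb (H : Subgroup Γ) (Z : Set Y) : Set Y := {y | ∃ h ∈ H, ∃ z ∈ Z, y = h • z}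

/-- The action is free. -/
def FreeAct (Γ : Type) [Group Γ] (Y : Type) [MulAction Γ Y] : Prop :=
  ∀ (g : Γ) (y : Y), g • y = y → g = 1

end acts

/-- Property (*) of the pair `(Γ, N)`. -/
def Star (B : Type) [CommRing B] (Γ : Type) [Group Γ] (N : Subgroup Γ) : Prop :=
  ∀ (Y : Type) [MulAction Γ Y], FreeAct Γ Y → ∀ (Z : Finset Y) (L : Submodule B (Y →₀ B)),
    L ≤ Finsupp.supported B B (orb (⊤ : Subgroup Γ) (Z : Set Y)) → Stb B (⊤ : Subgroup Γ) L →
    (∃ s : Finset (Y →₀ B), (s : Set (Y →₀ B)) ⊆ (L : Set (Y →₀ B)) ∧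
      L ≤ gspan B (⊤ : Subgroup Γ) (s : Set (Y →₀ B)) ⊔ aug B N L) →
    GFG B (⊤ : Subgroup Γ) L

/-- Stable submodules of finitely generated permutation modules on which `N` acts trivially are
finitely generated. -/
def NoethAct (B : Type) [CommRing B] (Γ : Type) [Group Γ] (N : Subgroup Γ) : Prop :=
  ∀ (Y : Type) [MulAction Γ Y], (∀ n ∈ N, ∀ y : Y, n • y = y) →
    ∀ (Z : Finset Y) (L : Submodule B (Y →₀ B)),
    L ≤ Finsupp.supported B B (orb (⊤ : Subgroup Γ) (Z : Set Y)) → Stb B (⊤ : Subgroup Γ) L →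
    GFG B (⊤ : Subgroup Γ) L

/-- Coherence: kernels of equivariant maps between free permutation modules, the source finitely
generated, are finitely generated. -/
def Coh (B : Type) [CommRing B] (Γ : Type) [Group Γ] : Prop :=
  ∀ (Y Y' : Type) [MulAction Γ Y] [MulAction Γ Y'], FreeAct Γ Y → FreeAct Γ Y' →
    ∀ Z : Finset Y, (∀ y : Y, y ∈ orb (⊤ : Subgroup Γ) (Z : Set Y)) →
    ∀ a : (Y →₀ B) →ₗ[B] (Y' →₀ B), (∀ (g : Γ) (m : Y →₀ B), a (tr B g m) = tr B g (a m)) →
    GFG B (⊤ : Subgroup Γ) (LinearMap.ker a)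

/-- Separation of the elements of `A'` outside `A` by equivariant additive maps to regular
modules `N →₀ E`. -/
def Sep (B : Type) [CommRing B] {Γ : Type} [Group Γ] {Y : Type} [MulAction Γ Y]
    (N : Subgroup Γ) (A' A : Submodule B (Y →₀ B)) : Prop :=
  ∀ m ∈ A', m ∉ A → ∃ (E : Type) (_ : AddCommGroup E) (u : (Y →₀ B) → (↥N →₀ E)),
    (∀ x ∈ A', ∀ y ∈ A', u (x + y) = u x + u y) ∧
    (∀ (n : ↥N), ∀ x ∈ A', ∀ k : ↥N, u (tr B (n : Γ) x) k = u x (n⁻¹ * k)) ∧
    (∀ x ∈ A, u x = 0) ∧ u m ≠ 0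

/-- The data of an action of `Γ` on a tree with one orbit of vertices, vertex stabilizer `F`,
edge stabilizers `A i`; the edge `(i, g A i)` goes from `g F` to `g (t i) F`. The tree property is
encoded by the derivation `d`. -/
structure TreeData (Γ : Type) [Group Γ] where
  /-- the vertex group -/
  F : Subgroup Γ
  /-- the set of orbits of edges -/
  I : Type
  fin : Finite I
  /-- the edge groups -/
  A : I → Subgroup Γ
  /-- the stable letters -/
  t : I → Γ
  hAF : ∀ i, A i ≤ F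
  htF : ∀ i, ∀ a ∈ A i, (t i)⁻¹ * a * t i ∈ F
  gen : Subgroup.closure ((F : Set Γ) ∪ Set.range t) = ⊤
  /-- the derivation -/
  d : Γ → ((Σ i, Γ ⧸ A i) →₀ ℤ)
  d_mul : ∀ g h, d (g * h) = d g + Finsupp.mapDomain (fun e : Σ i, Γ ⧸ A i => g • e) (d h)
  d_F : ∀ f ∈ F, d f = 0
  d_t : ∀ i, d (t i) = Finsupp.single (⟨i, ((1 : Γ) : Γ ⧸ A i)⟩ : Σ i, Γ ⧸ A i) 1

/-- The product of the commutators `[a_i, b_i] = a_i b_i a_i⁻¹ b_i⁻¹`, where `a_i = x (i, false)` and
`b_i = x (i, true)`. -/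
def commProd {G : Type} [Group G] {g : ℕ} (x : Fin g × Bool → G) : G :=
  ((List.finRange g).map fun i =>
    x (i, false) * x (i, true) * (x (i, false))⁻¹ * (x (i, true))⁻¹).prod

/-- The surface relation `[a_0, b_0] [a_1, b_1] ⋯ [a_{g-1}, b_{g-1}]`. -/
def SurfRel (g : ℕ) : FreeGroup (Fin g × Bool) := commProd (FreeGroup.of)

/-- The fundamental group of the closed orientable surface of genus `g`. -/
abbrev SurfaceGroup (g : ℕ) : Type := PresentedGroup ({SurfRel g} : Set (FreeGroup (Fin g × Bool)))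

end CG
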