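import Pool.Agent.Helper32.CG.Basic

/-! Project CG: word length in free groups and the sums `∑ (x f_x - f_x)` (definitions, proved). -/

namespace CG

open Classical in
/-- word length in a free group -/
noncomputable def nm {X : Type} (v : FreeGroup X) : ℕ := FreeGroup.norm v

/-- The function `v ↦ ∑_x (f_x (x⁻¹ v) - f_x v)`, that is `∑_x (x f_x - f_x)`. -/
noncomputable def fsum {X E : Type} [AddCommGroup E] (f : X →₀ (FreeGroup X →₀ E))
    (v : FreeGroup X) : E :=
  f.sum fun x a => a ((FreeGroup.of x)⁻¹ * v) - a v

end CG
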