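import Pool.Agent.Helper32.CG.FreeDefs

/-!
# Project CG, module FreeLen

Elementary facts on the word length `nm` in a free group: multiplying by a generator or its inverse
on the left changes the length by exactly one, and for `v ≠ 1` there is exactly one letter
(`x⁻¹` if the reduced word of `v` starts with `x`, or `x` if it starts with `x⁻¹`) whose left
multiplication shortens `v`.

Proof: `FreeGroup.toWord`, `FreeGroup.norm`, `FreeGroup.toWord_mk`/`FreeGroup.reduce.cons`
(the reduced word of `mk ((x,b) :: w)`, `w` reduced, is `w.tail` if the head of `w` is `(x, !b)`,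
and `(x,b) :: w` otherwise).
-/

namespace CG

variable {X : Type}

open Classical in
/-- the length of `(x,b) v` in terms of the reduced word of `v` -/
theorem nm_letter (x : X) (b : Bool) (v : FreeGroup X) :
    (∃ t, FreeGroup.toWord v = (x, !b) :: t ∧ nm v = t.length + 1 ∧
      nm (FreeGroup.mk [(x, b)] * v) = t.length) ∨
    ((∀ t, FreeGroup.toWord v ≠ (x, !b) :: t) ∧
      nm (FreeGroup.mk [(x, b)] * v) = nm v + 1) := by
  have hw : (FreeGroup.mk [(x, b)] * v) = FreeGroup.mk ((x, b) :: FreeGroup.toWord v) := by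
    conv_lhs => rw [← FreeGroup.mk_toWord (x := v)]
    rw [FreeGroup.mul_mk]
    rfl
  have hr : FreeGroup.toWord (FreeGroup.mk [(x, b)] * v) =
      FreeGroup.reduce ((x, b) :: FreeGroup.toWord v) := by
    rw [hw, FreeGroup.toWord_mk]
  have hv : FreeGroup.reduce (FreeGroup.toWord v) = FreeGroup.toWord v :=
    FreeGroup.reduce_toWord v
  rw [FreeGroup.reduce.cons, hv] at hr
  cases hL : FreeGroup.toWord v with
  | nil =>
    right
    refine ⟨fun t => by simp, ?_⟩
    rw [hL] at hr
    have h1 : nm (FreeGroup.mk [(x, b)] * v) = 1 := by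
      unfold nm FreeGroup.norm
      rw [hr]
      rfl
    have h2 : nm v = 0 := by
      unfold nm FreeGroup.norm
      rw [hL]
      rfl
    rw [h1, h2]
  | cons hd tl =>
    rw [hL] at hr
    have h2 : nm v = tl.length + 1 := by
      unfold nm FreeGroup.norm
      rw [hL]
      rfl
    by_cases hc : x = hd.1 ∧ b = !hd.2
    · left
      refine ⟨tl, ?_, h2, ?_⟩
      · rcases hd with ⟨y, c⟩
        obtain ⟨h3, h4⟩ := hc
        simp only at h3 h4
        subst h3
        subst h4
        simp
      · unfold nm FreeGroup.norm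
        rw [hr]
        simp only
        rw [if_pos hc]
    · right
      refine ⟨?_, ?_⟩
      · intro t ht
        apply hc
        have h5 := List.cons.inj ht
        rw [h5.1]
        simp
      · rw [h2]
        unfold nm FreeGroup.norm
        rw [hr]
        simp only
        rw [if_neg hc]
        simp

theorem of_eq_mk (x : X) : FreeGroup.of x = FreeGroup.mk [(x, true)] := rfl

theorem of_inv_eq_mk (x : X) : (FreeGroup.of x)⁻¹ = FreeGroup.mk [(x, false)] := rfl

theorem nm_one : nm (1 : FreeGroup X) = 0 := by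
  classical
  unfold nm
  exact FreeGroup.norm_one

theorem nm_eq_zero {v : FreeGroup X} : nm v = 0 ↔ v = 1 := by
  classical
  unfold nm
  exact FreeGroup.norm_eq_zero

/-- Left multiplication by a generator changes the length by exactly one. -/
theorem nm_of_mul (x : X) (v : FreeGroup X) :
    nm (FreeGroup.of x * v) = nm v + 1 ∨ nm (FreeGroup.of x * v) + 1 = nm v := by
  classical
  rcases nm_letter x true v with ⟨t, _, h2, h3⟩ | ⟨_, h⟩
  · right
    rw [of_eq_mk, h3, h2]
  · left
    rw [of_eq_mk, h]

open Classical in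
theorem short_inv {v : FreeGroup X} {x : X} (h : nm ((FreeGroup.of x)⁻¹ * v) < nm v) :
    ∃ t, FreeGroup.toWord v = (x, true) :: t := by
  rw [of_inv_eq_mk] at h
  rcases nm_letter x false v with ⟨t, h1, _, _⟩ | ⟨_, h2⟩
  · exact ⟨t, h1⟩
  · omega

open Classical in
theorem short_pos {v : FreeGroup X} {x : X} (h : nm (FreeGroup.of x * v) < nm v) :
    ∃ t, FreeGroup.toWord v = (x, false) :: t := by
  rw [of_eq_mk] at h
  rcases nm_letter x true v with ⟨t, h1, _, _⟩ | ⟨_, h2⟩
  · exact ⟨t, h1⟩
  · omega

theorem nm_unique_inv_inv {v : FreeGroup X} {x z : X} (h : nm ((FreeGroup.of x)⁻¹ * v) < nm v)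
    (h' : nm ((FreeGroup.of z)⁻¹ * v) < nm v) : x = z := by
  classical
  obtain ⟨t, ht⟩ := short_inv h
  obtain ⟨u, hu⟩ := short_inv h'
  rw [ht] at hu
  have h5 := (List.cons.inj hu).1
  exact (Prod.mk.inj h5).1

theorem nm_unique_inv_pos {v : FreeGroup X} {x z : X} (h : nm ((FreeGroup.of x)⁻¹ * v) < nm v) :
    ¬ nm (FreeGroup.of z * v) < nm v := by
  classical
  intro h'
  obtain ⟨t, ht⟩ := short_inv h
  obtain ⟨u, hu⟩ := short_pos h'
  rw [ht] at hu
  have h5 := (List.cons.inj hu).1
  have h6 := (Prod.mk.inj h5).2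
  exact absurd h6 (by decide)

theorem nm_unique_pos_pos {v : FreeGroup X} {x z : X} (h : nm (FreeGroup.of x * v) < nm v)
    (h' : nm (FreeGroup.of z * v) < nm v) : x = z := by
  classical
  obtain ⟨t, ht⟩ := short_pos h
  obtain ⟨u, hu⟩ := short_pos h'
  rw [ht] at hu
  have h5 := (List.cons.inj hu).1
  exact (Prod.mk.inj h5).1

/-- A nontrivial element is shortened by some letter. -/
theorem nm_exists {v : FreeGroup X} (hv : v ≠ 1) :
    ∃ x : X, nm ((FreeGroup.of x)⁻¹ * v) < nm v ∨ nm (FreeGroup.of x * v) < nm v := by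
  classical
  cases hL : FreeGroup.toWord v with
  | nil =>
    exact absurd (FreeGroup.toWord_eq_nil_iff.mp hL) hv
  | cons hd tl =>
    rcases hd with ⟨x, c⟩
    refine ⟨x, ?_⟩
    cases c with
    | true =>
      left
      rw [of_inv_eq_mk]
      rcases nm_letter x false v with ⟨t, _, h2, h3⟩ | ⟨h4, _⟩
      · omega
      · exact absurd hL (h4 tl)
    | false =>
      right
      rw [of_eq_mk]
      rcases nm_letter x true v with ⟨t, _, h2, h3⟩ | ⟨h4, _⟩
      · omega
      · exact absurd hL (h4 tl)

end CG
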