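import Pool.Agent.Helper32.CG.FreeLen

/-!
# Project CG, module FreeTop

Let `f : X →₀ (FreeGroup X →₀ E)`, let `fsum f = ∑_x (x f_x - f_x)` (as a function on the group),
and let `R` bound the lengths of `s` and of `x s` whenever `f x s ≠ 0`.

* `fsum_top_pos`: if `nm v = R` and `x⁻¹ v` is shorter than `v`, then `fsum f v = f x (x⁻¹ v)`.
  Proof: consider a summand `f z (z⁻¹ v) - f z v`. If `f z v ≠ 0` then `nm (z v) ≤ R = nm v`, so
  `nm (z v) < nm v` by `nm_of_mul` (it cannot be equal: the lengths differ by exactly one),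
  contradicting `nm_unique_inv_pos`. If `f z (z⁻¹ v) ≠ 0` then `nm (z⁻¹ v) ≤ R = nm v`, hence
  `nm (z⁻¹ v) < nm v` (apply `nm_of_mul z (z⁻¹ v)`), so `z = x` by `nm_unique_inv_inv`.
  So only the term `f x (x⁻¹ v)` survives.
* `fsum_top_neg`: if `nm v = R` and `x v` is shorter than `v`, then `fsum f v = - f x v`.
  Same proof with `nm_unique_pos_pos`, `nm_unique_inv_pos`.
* `fsum_ne_zero`: if `f ≠ 0` there is `v` with `fsum f v ≠ 0` such that `nm s ≤ nm v` and
  `nm (x s) ≤ nm v` whenever `f x s ≠ 0`. Proof: among the finitely many pairs `(x, s)` with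
  `f x s ≠ 0` choose one maximizing `R := max (nm s) (nm (x s))`. If `nm s = R` take `v = s`: then
  `nm (x s) < R` and `fsum f s = - f x s ≠ 0`. If `nm (x s) = R` take `v = x s`:
  then `x⁻¹ v = s` is shorter and `fsum f v = f x s ≠ 0`.
-/

namespace CG

variable {X E : Type} [AddCommGroup E]

theorem fsum_top_pos (f : X →₀ (FreeGroup X →₀ E)) (R : ℕ)
    (hR : ∀ x s, f x s ≠ 0 → nm s ≤ R ∧ nm (FreeGroup.of x * s) ≤ R) {v : FreeGroup X}
    (hv : nm v = R) {x : X} (hx : nm ((FreeGroup.of x)⁻¹ * v) < nm v) :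
    fsum f v = f x ((FreeGroup.of x)⁻¹ * v) := by
  have h1 : ∀ z, f z v = 0 := by
    intro z
    by_contra hz
    have h2 := (hR z v hz).2
    rcases nm_of_mul z v with h3 | h3
    · omega
    · exact nm_unique_inv_pos hx (z := z) (by omega)
  have h4 : ∀ z, z ≠ x → f z ((FreeGroup.of z)⁻¹ * v) = 0 := by
    intro z hzx
    by_contra hz
    have h2 := (hR z _ hz).1
    have h3 := nm_of_mul z ((FreeGroup.of z)⁻¹ * v)
    rw [mul_inv_cancel_left] at h3
    exact hzx (nm_unique_inv_inv (v := v) (by omega) hx)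
  unfold fsum Finsupp.sum
  rw [Finset.sum_eq_single x]
  · show f x ((FreeGroup.of x)⁻¹ * v) - f x v = _
    rw [h1 x, sub_zero]
  · intro z _ hzx
    show f z ((FreeGroup.of z)⁻¹ * v) - f z v = 0
    rw [h1 z, h4 z hzx, sub_zero]
  · intro hx0
    rw [Finsupp.notMem_support_iff.1 hx0]
    simp

theorem fsum_top_neg (f : X →₀ (FreeGroup X →₀ E)) (R : ℕ)
    (hR : ∀ x s, f x s ≠ 0 → nm s ≤ R ∧ nm (FreeGroup.of x * s) ≤ R) {v : FreeGroup X}
    (hv : nm v = R) {x : X} (hx : nm (FreeGroup.of x * v) < nm v) :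
    fsum f v = - f x v := by
  have h1 : ∀ z, z ≠ x → f z v = 0 := by
    intro z hzx
    by_contra hz
    have h2 := (hR z v hz).2
    rcases nm_of_mul z v with h3 | h3
    · omega
    · exact hzx (nm_unique_pos_pos (v := v) (by omega) hx)
  have h4 : ∀ z, f z ((FreeGroup.of z)⁻¹ * v) = 0 := by
    intro z
    by_contra hz
    have h2 := (hR z _ hz).1
    have h3 := nm_of_mul z ((FreeGroup.of z)⁻¹ * v)
    rw [mul_inv_cancel_left] at h3
    exact nm_unique_inv_pos (v := v) (x := z) (z := x) (by omega) hx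
  unfold fsum Finsupp.sum
  rw [Finset.sum_eq_single x]
  · show f x ((FreeGroup.of x)⁻¹ * v) - f x v = _
    rw [h4 x, zero_sub]
  · intro z _ hzx
    show f z ((FreeGroup.of z)⁻¹ * v) - f z v = 0
    rw [h1 z hzx, h4 z, sub_zero]
  · intro hx0
    rw [Finsupp.notMem_support_iff.1 hx0]
    simp

theorem fsum_ne_zero (f : X →₀ (FreeGroup X →₀ E)) (hf : f ≠ 0) :
    ∃ v, fsum f v ≠ 0 ∧ ∀ x s, f x s ≠ 0 → nm s ≤ nm v ∧ nm (FreeGroup.of x * s) ≤ nm v := by
  let T : Finset (Σ _ : X, FreeGroup X) := f.support.sigma fun x => (f x).support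
  have hT : ∀ x s, f x s ≠ 0 → (⟨x, s⟩ : Σ _ : X, FreeGroup X) ∈ T := by
    intro x s hs
    refine Finset.mem_sigma.2 ⟨?_, ?_⟩
    · rw [Finsupp.mem_support_iff]
      intro h
      apply hs
      show f x s = 0
      rw [h]
      rfl
    · rw [Finsupp.mem_support_iff]
      exact hs
  have hne : T.Nonempty := by
    obtain ⟨x, hx⟩ := Finsupp.ne_iff.1 hf
    obtain ⟨s, hs⟩ := Finsupp.ne_iff.1 hx
    exact ⟨⟨x, s⟩, hT x s hs⟩
  obtain ⟨⟨x, s⟩, hxs, hmax⟩ := T.exists_max_image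
    (fun p => max (nm p.2) (nm (FreeGroup.of p.1 * p.2))) hne
  have hs : f x s ≠ 0 := Finsupp.mem_support_iff.1 (Finset.mem_sigma.1 hxs).2
  have hR : ∀ z t, f z t ≠ 0 → nm t ≤ max (nm s) (nm (FreeGroup.of x * s)) ∧
      nm (FreeGroup.of z * t) ≤ max (nm s) (nm (FreeGroup.of x * s)) := by
    intro z t ht
    have h := hmax ⟨z, t⟩ (hT z t ht)
    exact max_le_iff.1 h
  rcases nm_of_mul x s with h | h
  · have hm : max (nm s) (nm (FreeGroup.of x * s)) = nm (FreeGroup.of x * s) :=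
      max_eq_right (by omega)
    rw [hm] at hR
    refine ⟨FreeGroup.of x * s, ?_, hR⟩
    rw [fsum_top_pos f _ hR rfl (x := x) (by rw [inv_mul_cancel_left]; omega),
      inv_mul_cancel_left]
    exact hs
  · have hm : max (nm s) (nm (FreeGroup.of x * s)) = nm s := max_eq_left (by omega)
    rw [hm] at hR
    refine ⟨s, ?_, hR⟩
    rw [fsum_top_neg f _ hR rfl (x := x) (by omega)]
    exact neg_ne_zero.2 hs

end CG
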