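import Pool.Agent.Helper32.CG.LevDefs

/-!
# Project CG, module KEnd

`K` is generated over `G` by `K_[-c₁,0] = K ⊓ MM B l (-c₁) 0`.

Proof. Let `z` satisfy `p z = ofAdd 1`, `R = gspan B ⊤ (K ⊓ MM B l (-c₁) 0)`. By induction on `n : ℕ`: if
`κ ∈ K ⊓ MM B l i j` with `j - i ≤ n` then `κ ∈ R`. If `j - i ≤ c₁` then
`z^{-j} κ ∈ K ⊓ MM B l (i-j) 0 ≤ K ⊓ MM B l (-c₁) 0` and `κ ∈ R`. If `j - i > c₁`,
`x = z^{-j} κ ∈ K ⊓ MM B l (i-j) 0`, choose `κ'` by `h1` with the same level `0` part; then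
`x - κ' ∈ K ⊓ MM B l (i-j) 0` (as `i - j ≤ -c₁`) has zero level `0` part, so it is in `MM B l (i-j) (-1)`
(`mem_MM_of_lpart_eq_zero`) and in `R` by induction; so `x ∈ R`, `κ ∈ R`.
Every `κ ∈ K` is in some `MM B l i j` (finite support). So `K = R`, and if `K_[-c₁,0] = gspan S s` then
`K = gspan ⊤ s`.
-/

namespace CG

theorem k_end {B : Type} [CommRing B] {G : Type} [Group G] {p : G →* Multiplicative ℤ}
    (hp : Function.Surjective p) {Y : Type} [MulAction G Y] {l : Y → ℤ}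
    (hl : ∀ (g : G) (y : Y), l (g • y) = Multiplicative.toAdd (p g) + l y)
    (K : Submodule B (Y →₀ B)) (hK : Stb B (⊤ : Subgroup G) K) (c1 : ℕ)
    (h1 : ∀ κ ∈ K, (∀ y, κ y ≠ 0 → l y ≤ 0) →
      ∃ κ' ∈ K ⊓ MM B l (-(c1 : ℤ)) 0, lpart B l 0 κ' = lpart B l 0 κ)
    (h2 : GFG B p.ker (K ⊓ MM B l (-(c1 : ℤ)) 0)) : GFG B (⊤ : Subgroup G) K := by
  obtain ⟨s, hs⟩ := h2
  have hsub : K ⊓ MM B l (-(c1 : ℤ)) 0 ≤ gspan B (⊤ : Subgroup G) (s : Set (Y →₀ B)) := by
    rw [hs]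
    exact gspan_mono le_top subset_rfl
  have hstb : Stb B (⊤ : Subgroup G) (gspan B (⊤ : Subgroup G) (s : Set (Y →₀ B))) :=
    stb_gspan _ _
  have key : ∀ n : ℕ, ∀ i j : ℤ, j - i ≤ n → ∀ κ ∈ K, κ ∈ MM B l i j →
      κ ∈ gspan B (⊤ : Subgroup G) (s : Set (Y →₀ B)) := by
    intro n
    induction n with
    | zero =>
      intro i j hij κ hκ hκ2
      obtain ⟨g, hg⟩ := hp (Multiplicative.ofAdd (-j))
      rw [← hstb.mem_iff (Subgroup.mem_top g)]
      refine hsub ⟨hK g (Subgroup.mem_top g) κ hκ, ?_⟩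
      have h3 := tr_mem_MM hl hκ2 g
      rw [hg, toAdd_ofAdd] at h3
      refine MM_mono ?_ ?_ h3
      · push_cast at hij
        omega
      · omega
    | succ n ih =>
      intro i j hij κ hκ hκ2
      obtain ⟨g, hg⟩ := hp (Multiplicative.ofAdd (-j))
      rw [← hstb.mem_iff (Subgroup.mem_top g)]
      have h3 := tr_mem_MM hl hκ2 g
      rw [hg, toAdd_ofAdd] at h3
      have hxK : tr B g κ ∈ K := hK g (Subgroup.mem_top g) κ hκ
      by_cases hc : j - i ≤ c1
      · refine hsub ⟨hxK, ?_⟩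
        refine MM_mono ?_ ?_ h3
        · omega
        · omega
      · obtain ⟨κ', hκ', hκ'2⟩ := h1 (tr B g κ) hxK (by
          intro y hy
          have := (mem_MM.1 h3 y hy).2
          omega)
        have hd : tr B g κ - κ' ∈ MM B l (i - j) 0 := by
          refine Submodule.sub_mem _ (MM_mono ?_ ?_ h3) (MM_mono ?_ ?_ hκ'.2)
          · omega
          · omega
          · omega
          · omega
        have hd2 := mem_MM_of_lpart_eq_zero hd (by rw [map_sub, hκ'2, sub_self])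
        have hd3 := ih (i - j) (0 - 1) (by push_cast at hij; omega) (tr B g κ - κ')
          (Submodule.sub_mem _ hxK hκ'.1) hd2
        have h4 := Submodule.add_mem _ hd3 (hsub hκ')
        simpa using h4
  refine ⟨s, le_antisymm ?_ ?_⟩
  · intro κ hκ
    have hM : ∀ y ∈ κ.support, (l y).natAbs ≤ κ.support.sup (fun y => (l y).natAbs) :=
      fun y hy => Finset.le_sup (f := fun y => (l y).natAbs) hy
    refine key (2 * κ.support.sup (fun y => (l y).natAbs))
      (-((κ.support.sup (fun y => (l y).natAbs) : ℕ) : ℤ))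
      ((κ.support.sup (fun y => (l y).natAbs) : ℕ) : ℤ) (by push_cast; omega) κ hκ ?_
    rw [mem_MM]
    intro y hy
    have := hM y (by simpa using hy)
    omega
  · refine gspan_le hK ?_
    intro x hx
    have h5 : x ∈ K ⊓ MM B l (-(c1 : ℤ)) 0 := by
      rw [hs]
      exact subset_gspan _ _ hx
    exact h5.1

end CG
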