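import Pool.Agent.Helper32.CG.Basic

/-!
# Project CG, module Quot

* `exists_quot`: the quotient `Q = N \ Y` of a `Γ`-set by a normal subgroup `N`, with its
  `Γ`-action. Take `Q = MulAction.orbitRel.Quotient ↥N Y` (or the quotient by the setoid
  `∃ n ∈ N, y' = n • y`), `g • [y] = [g • y]`.
* `quot_ker`: the kernel of `(Y →₀ B) → (Q →₀ B)` on functions supported in an `N`-stable set `S`
  is contained in `aug B N (supported S)`. Proof: let `σ : Q → Y` be a section of `π`
  (`Function.surjInv`). For `m` supported in `S`, `m = ∑_y m(y) y` and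
  `m - mapDomain σ (mapDomain π m) = ∑_y m(y) (y - σ (π y))`, where `σ (π y) = n • y` for some `n ∈ N`,
  so each term is in `aug B N (supported S)` (`single y (m y) ∈ supported S`). Now
  `mapDomain π m = 0`.
-/

namespace CG

variable {B : Type} [CommRing B] {Γ : Type} [Group Γ] {Y : Type} [MulAction Γ Y]

theorem exists_quot (N : Subgroup Γ) (hN : N.Normal) (Y : Type) [MulAction Γ Y] :
    ∃ (Q : Type) (_ : MulAction Γ Q) (π : Y → Q), Function.Surjective π ∧
      (∀ (g : Γ) (y : Y), π (g • y) = g • π y) ∧ (∀ n ∈ N, ∀ q : Q, n • q = q) ∧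
      (∀ y y' : Y, π y = π y' → ∃ n ∈ N, y' = n • y) := by
  let s : Setoid Y :=
    { r := fun y y' => ∃ n ∈ N, y' = n • y
      iseqv :=
        { refl := fun y => ⟨1, N.one_mem, (one_smul Γ y).symm⟩
          symm := by
            rintro y y' ⟨n, hn, rfl⟩
            exact ⟨n⁻¹, N.inv_mem hn, (inv_smul_smul n y).symm⟩
          trans := by
            rintro y y' y'' ⟨n, hn, rfl⟩ ⟨n', hn', rfl⟩
            exact ⟨n' * n, N.mul_mem hn' hn, (mul_smul n' n y).symm⟩ } }
  let act : Γ → Quotient s → Quotient s := fun g =>
    Quotient.map (fun y => g • y) (by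
      rintro y y' ⟨n, hn, rfl⟩
      refine ⟨g * n * g⁻¹, hN.conj_mem n hn g, ?_⟩
      rw [mul_smul, mul_smul, inv_smul_smul])
  let inst : MulAction Γ (Quotient s) :=
    { smul := act
      one_smul := by
        intro q
        induction q using Quotient.inductionOn with
        | h y => exact congrArg (Quotient.mk s) (one_smul Γ y)
      mul_smul := by
        intro g h q
        induction q using Quotient.inductionOn with
        | h y => exact congrArg (Quotient.mk s) (mul_smul g h y) }
  refine ⟨Quotient s, inst, Quotient.mk s, Quotient.mk_surjective, ?_, ?_, ?_⟩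
  · intro g y
    rfl
  · intro n hn q
    induction q using Quotient.inductionOn with
    | h y =>
      refine Quotient.sound (s := s) ?_
      exact ⟨n⁻¹, N.inv_mem hn, (inv_smul_smul n y).symm⟩
  · intro y y' h
    exact Quotient.exact h

theorem quot_ker {Q : Type} (N : Subgroup Γ) (π : Y → Q) (hsurj : Function.Surjective π)
    (hπ : ∀ y y' : Y, π y = π y' → ∃ n ∈ N, y' = n • y) (S : Set Y)
    {m : Y →₀ B} (hm : m ∈ Finsupp.supported B B S) (h0 : Finsupp.lmapDomain B B π m = 0) :
    m ∈ aug B N (Finsupp.supported B B S) := by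
  classical
  have h1 : Finsupp.mapDomain (Function.surjInv hsurj ∘ π) m = 0 := by
    rw [Finsupp.mapDomain_comp]
    rw [Finsupp.lmapDomain_apply] at h0
    rw [h0, Finsupp.mapDomain_zero]
  have h2 : m = m.sum (fun y b => Finsupp.single y b -
      Finsupp.single (Function.surjInv hsurj (π y)) b) := by
    have e1 : m.sum (fun y b => Finsupp.single y b -
        Finsupp.single (Function.surjInv hsurj (π y)) b) =
        m.sum Finsupp.single - Finsupp.mapDomain (Function.surjInv hsurj ∘ π) m := by
      simp only [Finsupp.sum, Finset.sum_sub_distrib, Finsupp.mapDomain, Function.comp]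
    rw [e1, Finsupp.sum_single, h1, sub_zero]
  rw [mem_supp] at hm
  rw [h2]
  refine Submodule.sum_mem _ ?_
  intro y hy
  rw [Finsupp.mem_support_iff] at hy
  have hyS : y ∈ S := hm y hy
  obtain ⟨n, hn, hny⟩ := hπ y (Function.surjInv hsurj (π y))
    (Function.surjInv_eq hsurj (π y)).symm
  have hsingle : Finsupp.single y (m y) ∈ Finsupp.supported B B S :=
    Finsupp.single_mem_supported B (m y) hyS
  have h3 : tr B n (Finsupp.single y (m y)) - Finsupp.single y (m y) ∈
      aug B N (Finsupp.supported B B S) := sub_mem_aug hn hsingle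
  rw [tr_single, ← hny] at h3
  have h4 := Submodule.neg_mem _ h3
  rwa [neg_sub] at h4

end CG
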