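import Pool.Agent.Helper32.CG.LevDefs
import Pool.Agent.Helper32.CG.LemAB
import Pool.Agent.Helper32.CG.Quot

/-!
# Project CG, module KSlab

`K_[i,j] = K ⊓ MM B l i j` is finitely generated over `S = ker p`.

Proof. Let `P = MM B l i j = supported (slab l i j)`, `A = K ⊓ P`. Take `Q, π` from
`exists_quot N hNn Y` and `π_* = Finsupp.lmapDomain B B π : (Y →₀ B) → (Q →₀ B)`, equivariant.
`π_*(A)` is `S`-stable, supported in `orb S (π(Z'))` where `slab l i j ⊆ orb S Z'` (`hslab`), and `N` acts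
trivially on `Q`, so by `hNo.apply` it is `gspan S s` for a finite set `s`, `s ⊆ π_*(A)`. Choose
a finite set `s₁ ⊆ A` with `π_*(s₁) = s` (`Finset.subset_image_iff`, or `choose` on `s`); then `π_*(A) = π_*(gspan S s₁)` (`map_gspan`).
For `κ ∈ A` there is `κ' ∈ gspan S s₁ ≤ A` with `π_* κ = π_* κ'`, so
`κ - κ' ∈ A`, and `κ - κ' ∈ aug N P` by `quot_ker`; by `lemA`, `κ - κ' ∈ aug N A`. Therefore
`A ≤ gspan S s₁ ⊔ aug N A` and `hStar.apply` (with `F = ker p`, `N ⊓ ker p = N`) gives the result.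
-/

namespace CG

theorem kslab_lmap_tr {B : Type} [CommRing B] {G : Type} [Group G] {Y Q : Type} [MulAction G Y]
    [MulAction G Q] (π : Y → Q) (h : ∀ (g : G) (y : Y), π (g • y) = g • π y) (g : G)
    (m : Y →₀ B) :
    Finsupp.lmapDomain B B π (tr B g m) = tr B g (Finsupp.lmapDomain B B π m) := by
  simp only [tr, Finsupp.lmapDomain_apply]
  rw [← Finsupp.mapDomain_comp, ← Finsupp.mapDomain_comp]
  congr 1
  funext y
  exact h g y

theorem kslab_gfg {B : Type} [CommRing B] {G : Type} [Group G] {p : G →* Multiplicative ℤ}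
    {N : Subgroup G} (hNn : N.Normal) (hNS : N ≤ p.ker) (hNf : IsFreeGroup ↥N)
    (hStar : Star B ↥p.ker (N.subgroupOf p.ker)) (hNo : NoethAct B ↥p.ker (N.subgroupOf p.ker))
    {Y : Type} [MulAction G Y] (hY : FreeAct G Y) {l : Y → ℤ}
    (hl : ∀ (g : G) (y : Y), l (g • y) = Multiplicative.toAdd (p g) + l y)
    (K : Submodule B (Y →₀ B)) (hK : Stb B (⊤ : Subgroup G) K) (i j : ℤ)
    (hslab : ∃ Z' : Finset Y, slab l i j ⊆ orb p.ker (Z' : Set Y))
    (hSep : Sep B N (MM B l i j) (K ⊓ MM B l i j)) :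
    GFG B p.ker (K ⊓ MM B l i j) := by
  classical
  obtain ⟨Q, _, π, hsurj, hequiv, htriv, hfib⟩ := exists_quot N hNn Y
  obtain ⟨Z', hZ'⟩ := hslab
  have hπ' : ∀ (g : G) (m : Y →₀ B), Finsupp.lmapDomain B B π (tr B g m) =
      tr B g (Finsupp.lmapDomain B B π m) := fun g m => kslab_lmap_tr π hequiv g m
  have hAst : Stb B p.ker (K ⊓ MM B l i j) := (hK.mono le_top).inf (stb_MM hl i j)
  have hPst : Stb B N (MM B l i j) := (stb_MM hl i j).mono hNS
  have hmap : GFG B p.ker ((K ⊓ MM B l i j).map (Finsupp.lmapDomain B B π)) := by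
    refine hNo.apply (fun n hn q => htriv n hn.1 q) (Z'.image π) _ ?_
      (hAst.map _ (fun h _ m => hπ' h m))
    rintro _ ⟨m, hm, rfl⟩
    rw [mem_supp]
    intro q hq
    have h1 : q ∈ (Finsupp.mapDomain π m).support := by
      rw [Finsupp.mem_support_iff]
      exact hq
    obtain ⟨y, hy, rfl⟩ := Finset.mem_image.1 (Finsupp.mapDomain_support h1)
    have h2 : y ∈ slab l i j := mem_MM.1 hm.2 y (Finsupp.mem_support_iff.1 hy)
    obtain ⟨h, hh, z, hz, rfl⟩ := hZ' h2
    refine ⟨h, hh, π z, ?_, hequiv h z⟩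
    rw [Finset.coe_image]
    exact Set.mem_image_of_mem π hz
  obtain ⟨s, hs⟩ := hmap
  have hlift : ∀ x ∈ s, ∃ a ∈ K ⊓ MM B l i j, Finsupp.lmapDomain B B π a = x := by
    intro x hx
    have h1 : x ∈ (K ⊓ MM B l i j).map (Finsupp.lmapDomain B B π) := by
      rw [hs]
      exact subset_gspan _ _ hx
    obtain ⟨a, ha, hax⟩ := h1
    exact ⟨a, ha, hax⟩
  choose! f hfA hfπ using hlift
  have hs1 : ((s.image f : Finset (Y →₀ B)) : Set (Y →₀ B)) ⊆
      ((K ⊓ MM B l i j : Submodule B (Y →₀ B)) : Set (Y →₀ B)) := by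
    intro x hx
    rw [Finset.coe_image] at hx
    obtain ⟨y, hy, rfl⟩ := hx
    exact hfA y hy
  have himg : (Finsupp.lmapDomain B B π : (Y →₀ B) →ₗ[B] (Q →₀ B)) ''
      ((s.image f : Finset (Y →₀ B)) : Set (Y →₀ B)) = (s : Set (Q →₀ B)) := by
    rw [Finset.coe_image, Set.image_image]
    ext x
    constructor
    · rintro ⟨y, hy, rfl⟩
      have := hfπ y hy
      change Finsupp.lmapDomain B B π (f y) ∈ (s : Set (Q →₀ B))
      rw [this]
      exact hy
    · intro hx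
      exact ⟨x, hx, hfπ x hx⟩
  refine hStar.apply hY Z' _ ?_ hAst (s.image f) hs1 ?_
  · exact inf_le_right.trans (Finsupp.supported_mono hZ')
  · intro κ hκ
    have h1 : Finsupp.lmapDomain B B π κ ∈
        (gspan B p.ker ((s.image f : Finset (Y →₀ B)) : Set (Y →₀ B))).map
          (Finsupp.lmapDomain B B π) := by
      rw [map_gspan _ (fun h _ m => hπ' h m), himg, ← hs]
      exact Submodule.mem_map_of_mem hκ
    obtain ⟨κ', hκ', he⟩ := h1
    have hκA : κ' ∈ K ⊓ MM B l i j := gspan_le hAst hs1 hκ'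
    have h2 : κ - κ' ∈ K ⊓ MM B l i j := Submodule.sub_mem _ hκ hκA
    have h3 : κ - κ' ∈ aug B N (MM B l i j) := by
      refine quot_ker N π hsurj hfib (slab l i j) h2.2 ?_
      rw [map_sub, he, sub_self]
    have h4 : κ - κ' ∈ aug B N (K ⊓ MM B l i j) := lemA hNf hPst inf_le_right hSep ⟨h2, h3⟩
    have h5 : N ⊓ p.ker = N := inf_eq_left.2 hNS
    rw [h5]
    have h6 : κ = κ' + (κ - κ') := by abel
    rw [h6]
    exact Submodule.add_mem_sup hκ' h4

end CG
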