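import Pool.Agent.Helper32.CG.VStep
import Pool.Agent.Helper32.CG.LemAB
import Pool.Agent.Helper32.CG.Quot

/-!
# Project CG, module KStep

With `K_[i,j] = K ⊓ MM B l i j`: for all large `c`,
`K_[-c-1,0] ≤ K_[-c,0] ⊔ K_[-c-1,-1] ⊔ aug N K_[-c-1,0]`.

Proof. Take `Q, π` from `exists_quot N hNn Y`. The level function descends to `Q`
(`l̄ q = l (Function.surjInv π q)`; `l (n • y) = l y` for `n ∈ N ≤ ker p`), `l̄ (π y) = l y`, and slabs of
`Q` are contained in `orb (ker p) (π(Z'))`. Apply `vstep` to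
`V i j = (K ⊓ MM B l i j).map (Finsupp.lmapDomain B B π)`.
For `x ∈ K_[-c-1,0]` we get `x' ∈ K_[-c,0]`, `x'' ∈ K_[-c-1,-1]` with `π_* x = π_* x' + π_* x''`. Then
`x - x' - x'' ∈ K_[-c-1,0]` is in `ker π_*`, so in `aug N (MM B l (-c-1) 0)` by `quot_ker`, and in
`aug N K_[-c-1,0]` by `lemA`.
-/

namespace CG

theorem kstep_lmap_tr {B : Type} [CommRing B] {G : Type} [Group G] {Y Q : Type} [MulAction G Y]
    [MulAction G Q] (π : Y → Q) (h : ∀ (g : G) (y : Y), π (g • y) = g • π y) (g : G)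
    (m : Y →₀ B) :
    Finsupp.lmapDomain B B π (tr B g m) = tr B g (Finsupp.lmapDomain B B π m) := by
  simp only [tr, Finsupp.lmapDomain_apply]
  rw [← Finsupp.mapDomain_comp, ← Finsupp.mapDomain_comp]
  congr 1
  funext y
  exact h g y

theorem kstep {B : Type} [CommRing B] {G : Type} [Group G] {p : G →* Multiplicative ℤ}
    (hp : Function.Surjective p) {N : Subgroup G} (hNn : N.Normal) (hNS : N ≤ p.ker)
    (hNf : IsFreeGroup ↥N) (hNo : NoethAct B ↥p.ker (N.subgroupOf p.ker))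
    {Y : Type} [MulAction G Y] {l : Y → ℤ}
    (hl : ∀ (g : G) (y : Y), l (g • y) = Multiplicative.toAdd (p g) + l y)
    (K : Submodule B (Y →₀ B)) (hK : Stb B (⊤ : Subgroup G) K)
    (hslab : ∀ i j : ℤ, ∃ Z' : Finset Y, slab l i j ⊆ orb p.ker (Z' : Set Y))
    (hSep : ∀ i j : ℤ, Sep B N (MM B l i j) (K ⊓ MM B l i j)) :
    ∃ c0 : ℕ, ∀ c : ℕ, c0 ≤ c →
      K ⊓ MM B l (-(c : ℤ) - 1) 0 ≤ (K ⊓ MM B l (-(c : ℤ)) 0) ⊔ (K ⊓ MM B l (-(c : ℤ) - 1) (-1)) ⊔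
        aug B N (K ⊓ MM B l (-(c : ℤ) - 1) 0) := by
  classical
  obtain ⟨Q, _, π, hsurj, hequiv, htriv, hfib⟩ := exists_quot N hNn Y
  have hπ' : ∀ (g : G) (m : Y →₀ B), Finsupp.lmapDomain B B π (tr B g m) =
      tr B g (Finsupp.lmapDomain B B π m) := fun g m => kstep_lmap_tr π hequiv g m
  -- the level function on the quotient
  set lq : Q → ℤ := fun q => l (Function.surjInv hsurj q) with hlq
  have hlN : ∀ n ∈ N, ∀ y : Y, l (n • y) = l y := by
    intro n hn y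
    rw [hl, MonoidHom.mem_ker.1 (hNS hn)]
    simp
  have hlπ : ∀ y : Y, lq (π y) = l y := by
    intro y
    have h1 : π (Function.surjInv hsurj (π y)) = π y := Function.surjInv_eq hsurj (π y)
    obtain ⟨n, hn, hy⟩ := hfib _ _ h1
    change l (Function.surjInv hsurj (π y)) = l y
    conv_rhs => rw [hy]
    exact (hlN n hn _).symm
  have hlQ : ∀ (g : G) (q : Q), lq (g • q) = Multiplicative.toAdd (p g) + lq q := by
    intro g q
    obtain ⟨y, rfl⟩ := hsurj q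
    rw [← hequiv, hlπ, hlπ, hl]
  have hslabQ : ∀ i j : ℤ, ∃ Z' : Finset Q, slab lq i j ⊆ orb p.ker (Z' : Set Q) := by
    intro i j
    obtain ⟨Z', hZ'⟩ := hslab i j
    refine ⟨Z'.image π, ?_⟩
    intro q hq
    obtain ⟨y, rfl⟩ := hsurj q
    have h1 : y ∈ slab l i j := by
      have : i ≤ lq (π y) ∧ lq (π y) ≤ j := hq
      rw [hlπ] at this
      exact this
    obtain ⟨h, hh, z, hz, rfl⟩ := hZ' h1
    refine ⟨h, hh, π z, ?_, hequiv h z⟩
    rw [Finset.coe_image]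
    exact Set.mem_image_of_mem π hz
  obtain ⟨c0, hc0⟩ := vstep hp hNo (fun n hn q => htriv n hn.1 q) hlQ hslabQ
    (fun i j => (K ⊓ MM B l i j).map (Finsupp.lmapDomain B B π)) (by
      rintro i j _ ⟨m, hm, rfl⟩
      rw [mem_MM]
      intro q hq
      have h1 : q ∈ (Finsupp.mapDomain π m).support := by
        rw [Finsupp.mem_support_iff]
        exact hq
      obtain ⟨y, hy, rfl⟩ := Finset.mem_image.1 (Finsupp.mapDomain_support h1)
      rw [hlπ]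
      exact mem_MM.1 hm.2 y (Finsupp.mem_support_iff.1 hy)) (by
      rintro g i j _ ⟨m, hm, rfl⟩
      refine ⟨tr B g m, ⟨hK g (Subgroup.mem_top g) m hm.1, tr_mem_MM hl hm.2 g⟩, hπ' g m⟩) (by
      intro i j i' j' hi hj
      exact Submodule.map_mono (inf_le_inf_left K (MM_mono hi hj)))
  refine ⟨c0, fun c hc x hx => ?_⟩
  have h1 : Finsupp.lmapDomain B B π x ∈
      (K ⊓ MM B l (-(c : ℤ) - 1) 0).map (Finsupp.lmapDomain B B π) :=
    Submodule.mem_map_of_mem hx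
  obtain ⟨_, ⟨x', hx', rfl⟩, _, ⟨x'', hx'', rfl⟩, he⟩ := Submodule.mem_sup.1 (hc0 c hc h1)
  have hx'1 : x' ∈ K ⊓ MM B l (-(c : ℤ) - 1) 0 :=
    ⟨hx'.1, MM_mono (by omega) le_rfl hx'.2⟩
  have hx''1 : x'' ∈ K ⊓ MM B l (-(c : ℤ) - 1) 0 :=
    ⟨hx''.1, MM_mono le_rfl (by omega) hx''.2⟩
  have h2 : x - (x' + x'') ∈ K ⊓ MM B l (-(c : ℤ) - 1) 0 :=
    Submodule.sub_mem _ hx (Submodule.add_mem _ hx'1 hx''1)
  have h3 : x - (x' + x'') ∈ aug B N (MM B l (-(c : ℤ) - 1) 0) := by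
    refine quot_ker N π hsurj hfib (slab l (-(c : ℤ) - 1) 0) h2.2 ?_
    rw [map_sub, map_add, he, sub_self]
  have h4 : x - (x' + x'') ∈ aug B N (K ⊓ MM B l (-(c : ℤ) - 1) 0) :=
    lemA hNf ((stb_MM hl _ _).mono hNS) inf_le_right (hSep _ _) ⟨h2, h3⟩
  have h6 : x = (x' + x'') + (x - (x' + x'')) := by abel
  rw [h6]
  exact Submodule.add_mem_sup (Submodule.add_mem_sup hx' hx'') h4

end CG
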