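import Pool.Agent.Helper32.CG.Basic

/-!
# Project CG, module KerSep

For an equivariant map `a : (Y →₀ B) → (Y' →₀ B)`, `Y'` a free `G`-set, any submodule `P` and any
subgroup `N`: `Sep B N P (ker a ⊓ P)`.

Proof. Let `m ∈ P` with `a m ≠ 0`, and let `y'` be a point with `a m y' ≠ 0`. Put `E = B` and
`u x n = a x (n • y')`, `n : ↥N`; finitely supported since `n ↦ n • y'` is injective
(`Finsupp.comapDomain`). `u (tr n x) k = tr n (a x) (k • y') = a x (n⁻¹ • k • y') = u x (n⁻¹ k)`
(`tr_apply`), and `u m 1 ≠ 0`.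
-/

namespace CG

variable {B : Type} [CommRing B] {G : Type} [Group G] {Y Y' : Type} [MulAction G Y]
  [MulAction G Y']

theorem ker_sep (hY' : FreeAct G Y') (a : (Y →₀ B) →ₗ[B] (Y' →₀ B))
    (ha : ∀ (g : G) (m : Y →₀ B), a (tr B g m) = tr B g (a m)) (N : Subgroup G)
    (P : Submodule B (Y →₀ B)) : Sep B N P (LinearMap.ker a ⊓ P) := by
  intro m hm hmk
  have ham : a m ≠ 0 := fun h => hmk ⟨LinearMap.mem_ker.2 h, hm⟩
  obtain ⟨y', hy'⟩ : ∃ y', a m y' ≠ 0 := by
    by_contra hcon
    push Not at hcon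
    exact ham (Finsupp.ext hcon)
  have hinj : Function.Injective (fun n : ↥N => (n : G) • y') := by
    intro n k h
    have h1 : ((k : G)⁻¹ * (n : G)) • y' = y' := by
      rw [mul_smul]
      have h2 : (n : G) • y' = (k : G) • y' := h
      rw [h2, inv_smul_smul]
    have h2 := hY' _ _ h1
    exact Subtype.ext (inv_mul_eq_one.1 h2).symm
  refine ⟨B, inferInstance, fun x => Finsupp.comapDomain (fun n : ↥N => (n : G) • y') (a x)
    hinj.injOn, ?_, ?_, ?_, ?_⟩
  · intro x _ y _
    ext n
    simp [Finsupp.comapDomain_apply]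
  · intro n x _ k
    simp only [Finsupp.comapDomain_apply]
    rw [ha, tr_apply]
    congr 1
    simp [mul_smul]
  · intro x hx
    have h0 : a x = 0 := LinearMap.mem_ker.1 hx.1
    ext n
    simp [Finsupp.comapDomain_apply, h0]
  · intro h
    have h1 := DFunLike.congr_fun h (1 : ↥N)
    simp only [Finsupp.comapDomain_apply] at h1
    apply hy'
    simpa using h1

end CG
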