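import Pool.Agent.Helper32.CG.LevDefs

/-!
# Project CG, module LFG

There is `c₁` such that the level `0` part of every `κ ∈ K` supported in levels `≤ 0` is the level `0` part of
some element of `K_[-c₁,0] = K ⊓ MM B l (-c₁) 0`.

Proof. Let `L c = (K ⊓ MM B l (-c) 0).map (lpart B l 0)`, increasing in `c : ℕ`, stable under
`S = ker p` (`lpart_tr_ker`), contained in `MM B l 0 0`, and `L∞ = ⨆ c, L c`. Applying
`lpart B l 0` to the inclusion `hstep` gives `L (c+1) ≤ L c ⊔ aug N (L (c+1))` for `c ≥ c₀`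
(`lpart 0` kills `MM B l (-c-1) (-1)`, `lpart_eq_zero`; `map_aug`, as `lpart 0` commutes with
`N ≤ ker p`). By induction `L c ≤ L c₀ ⊔ aug N L∞` for all `c`, hence `L∞ ≤ L c₀ ⊔ aug N L∞`. `L c₀` is `gspan S s`
with `s` finite (`GFG.map` and `hfg c₀`), so `hStar.apply` (with `F = ker p`, `N ⊓ ker p = N`,
`L∞ ≤ supported (slab l 0 0)`, `hslab`) shows `GFG S L∞`. The finitely many generators lie in
some `L c₁` (`Submodule.mem_iSup_of_directed`), so `L∞ ≤ L c₁`.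
Given `κ ∈ K` supported in levels `≤ 0`, `κ ∈ MM B l (-c) 0` for some `c : ℕ` (finite support), so
`lpart 0 κ ∈ L c ≤ L∞ ≤ L c₁`.
-/

namespace CG

theorem l_fg {B : Type} [CommRing B] {G : Type} [Group G] {p : G →* Multiplicative ℤ}
    {N : Subgroup G} (hNS : N ≤ p.ker)
    (hStar : Star B ↥p.ker (N.subgroupOf p.ker))
    {Y : Type} [MulAction G Y] (hY : FreeAct G Y) {l : Y → ℤ}
    (hl : ∀ (g : G) (y : Y), l (g • y) = Multiplicative.toAdd (p g) + l y)
    (K : Submodule B (Y →₀ B)) (hK : Stb B (⊤ : Subgroup G) K)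
    (hslab : ∃ Z' : Finset Y, slab l 0 0 ⊆ orb p.ker (Z' : Set Y))
    (hfg : ∀ c : ℕ, GFG B p.ker (K ⊓ MM B l (-(c : ℤ)) 0)) (c0 : ℕ)
    (hstep : ∀ c : ℕ, c0 ≤ c →
      K ⊓ MM B l (-(c : ℤ) - 1) 0 ≤ (K ⊓ MM B l (-(c : ℤ)) 0) ⊔ (K ⊓ MM B l (-(c : ℤ) - 1) (-1)) ⊔
        aug B N (K ⊓ MM B l (-(c : ℤ) - 1) 0)) :
    ∃ c1 : ℕ, ∀ κ ∈ K, (∀ y, κ y ≠ 0 → l y ≤ 0) →
      ∃ κ' ∈ K ⊓ MM B l (-(c1 : ℤ)) 0, lpart B l 0 κ' = lpart B l 0 κ := by
  set L : ℕ → Submodule B (Y →₀ B) :=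
    fun c => (K ⊓ MM B l (-(c : ℤ)) 0).map (lpart B l 0) with hLdef
  have hSK : Stb B p.ker K := hK.mono le_top
  have hcomm : ∀ h ∈ p.ker, ∀ m : Y →₀ B, lpart B l 0 (tr B h m) = tr B h (lpart B l 0 m) :=
    fun h hh m => lpart_tr_ker hl 0 hh m
  have hmono : Monotone L := by
    intro c d hcd
    refine Submodule.map_mono (inf_le_inf le_rfl (MM_mono ?_ le_rfl))
    have : (c : ℤ) ≤ d := by exact_mod_cast hcd
    omega
  have hstbL : ∀ c, Stb B p.ker (L c) := by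
    intro c
    exact Stb.map (lpart B l 0) hcomm (hSK.inf (stb_MM hl _ _))
  have hLsupp : ∀ c, L c ≤ Finsupp.supported B B (slab l 0 0) := by
    intro c
    rintro _ ⟨m, -, rfl⟩
    exact lpart_mem 0 m
  have hst : ∀ c : ℕ, c0 ≤ c → L (c + 1) ≤ L c ⊔ aug B N (L (c + 1)) := by
    intro c hc
    have hcast : (-((c + 1 : ℕ) : ℤ)) = -(c : ℤ) - 1 := by push_cast; ring
    rintro _ ⟨m, hm, rfl⟩
    have hm' : m ∈ K ⊓ MM B l (-(c : ℤ) - 1) 0 := by rw [← hcast]; exact hm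
    have h1 := hstep c hc hm'
    obtain ⟨x, hx, e, he, rfl⟩ := Submodule.mem_sup.1 h1
    obtain ⟨a, ha, b, hb, rfl⟩ := Submodule.mem_sup.1 hx
    rw [map_add, map_add]
    have hb0 : lpart B l 0 b = 0 := lpart_eq_zero (i := -(c : ℤ) - 1) (j := -1) hb.2 (by norm_num)
    rw [hb0, add_zero]
    refine Submodule.add_mem_sup (Submodule.mem_map_of_mem ha) ?_
    have h2 : lpart B l 0 e ∈ (aug B N (K ⊓ MM B l (-(c : ℤ) - 1) 0)).map (lpart B l 0) :=
      Submodule.mem_map_of_mem he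
    rw [map_aug (lpart B l 0) (fun h hh m => hcomm h (hNS hh) m)] at h2
    rw [← hcast] at h2
    exact h2
  set Li : Submodule B (Y →₀ B) := ⨆ c, L c with hLi
  have hle : ∀ c, L c ≤ Li := fun c => le_iSup L c
  have hind : ∀ d : ℕ, L (c0 + d) ≤ L c0 ⊔ aug B N Li := by
    intro d
    induction d with
    | zero => exact le_sup_left
    | succ d ih =>
      refine (hst (c0 + d) (Nat.le_add_right _ _)).trans ?_
      exact sup_le ih ((aug_mono le_rfl (hle _)).trans le_sup_right)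
  have hLile : Li ≤ L c0 ⊔ aug B N Li := by
    refine iSup_le fun c => ?_
    refine (hmono (Nat.le_add_left c c0)).trans (hind c)
  obtain ⟨s, hs⟩ : GFG B p.ker (L c0) := GFG.map (lpart B l 0) hcomm (hfg c0)
  obtain ⟨Z', hZ'⟩ := hslab
  have hG : GFG B p.ker Li := by
    refine hStar.apply hY Z' Li ?_ (Stb.iSup hstbL) s ?_ ?_
    · refine iSup_le fun c => (hLsupp c).trans ?_
      exact Finsupp.supported_mono hZ'
    · refine (subset_gspan p.ker _).trans ?_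
      rw [← hs]
      exact hle c0
    · rw [← hs, inf_eq_left.2 hNS]
      exact hLile
  obtain ⟨t, ht⟩ := hG
  have htLi : ∀ x ∈ t, x ∈ Li := by
    intro x hx
    rw [ht]
    exact subset_gspan p.ker _ hx
  have hdir : ∀ x ∈ t, ∃ c, x ∈ L c := by
    intro x hx
    have := htLi x hx
    exact (Submodule.mem_iSup_of_directed L (hmono.directed_le)).1 this
  choose! f hf using hdir
  have hLi1 : Li ≤ L (t.sup f) := by
    rw [ht]
    refine gspan_le (hstbL _) ?_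
    intro x hx
    exact hmono (Finset.le_sup (f := f) hx) (hf x hx)
  refine ⟨t.sup f, ?_⟩
  intro κ hκ hκ0
  -- a lower bound for the levels
  obtain ⟨c, hc⟩ : ∃ c : ℕ, ∀ y ∈ κ.support, -(c : ℤ) ≤ l y := by
    refine ⟨κ.support.sup (fun y => (l y).natAbs), ?_⟩
    intro y hy
    have h1 : (l y).natAbs ≤ κ.support.sup (fun y => (l y).natAbs) :=
      Finset.le_sup (f := fun y => (l y).natAbs) hy
    omega
  have hκm : κ ∈ K ⊓ MM B l (-(c : ℤ)) 0 := by
    refine ⟨hκ, mem_MM.2 ?_⟩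
    intro y hy
    exact ⟨hc y (Finsupp.mem_support_iff.2 hy), hκ0 y hy⟩
  have hfin : lpart B l 0 κ ∈ L (t.sup f) := hLi1 (hle c (Submodule.mem_map_of_mem hκm))
  obtain ⟨κ', h1, h2⟩ := hfin
  exact ⟨κ', h1, h2⟩

end CG
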