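import Pool.Agent.Helper32.CG.Basic

/-! Project CG: levels and slabs (definitions and first facts, proved). -/

namespace CG

/-- The points with level between `i` and `j`. -/
def slab {Y : Type} (l : Y → ℤ) (i j : ℤ) : Set Y := {y | i ≤ l y ∧ l y ≤ j}

/-- The functions supported in a slab. -/
noncomputable def MM (B : Type) [CommRing B] {Y : Type} (l : Y → ℤ) (i j : ℤ) :
    Submodule B (Y →₀ B) := Finsupp.supported B B (slab l i j)

/-- The part of level `k`. -/
noncomputable def lpart (B : Type) [CommRing B] {Y : Type} (l : Y → ℤ) (k : ℤ) :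
    (Y →₀ B) →ₗ[B] (Y →₀ B) where
  toFun m := m.filter (fun y => l y = k)
  map_add' _ _ := Finsupp.filter_add
  map_smul' _ _ := Finsupp.filter_smul

section

variable {B : Type} [CommRing B] {Y : Type} {l : Y → ℤ}

theorem lpart_apply (k : ℤ) (m : Y →₀ B) (y : Y) :
    lpart B l k m y = if l y = k then m y else 0 := by
  change (m.filter (fun y => l y = k)) y = _
  rw [Finsupp.filter_apply]

theorem mem_MM {i j : ℤ} {m : Y →₀ B} : m ∈ MM B l i j ↔ ∀ y, m y ≠ 0 → i ≤ l y ∧ l y ≤ j :=
  mem_supp

theorem MM_mono {i j i' j' : ℤ} (hi : i' ≤ i) (hj : j ≤ j') : MM B l i j ≤ MM B l i' j' := by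
  intro m hm
  rw [mem_MM] at hm ⊢
  intro y hy
  have := hm y hy
  omega

theorem lpart_mem (k : ℤ) (m : Y →₀ B) : lpart B l k m ∈ MM B l k k := by
  rw [mem_MM]
  intro y hy
  rw [lpart_apply] at hy
  by_cases h : l y = k
  · omega
  · simp [h] at hy

/-- Elements of a slab with zero top part are in a smaller slab. -/
theorem mem_MM_of_lpart_eq_zero {i j : ℤ} {m : Y →₀ B} (hm : m ∈ MM B l i j)
    (h0 : lpart B l j m = 0) : m ∈ MM B l i (j - 1) := by
  rw [mem_MM] at hm ⊢
  intro y hy
  have h1 := hm y hy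
  have h2 : lpart B l j m y = 0 := by rw [h0]; rfl
  rw [lpart_apply] at h2
  by_cases h : l y = j
  · rw [if_pos h] at h2
    exact absurd h2 hy
  · omega

/-- The top part of an element supported strictly below vanishes. -/
theorem lpart_eq_zero {i j k : ℤ} {m : Y →₀ B} (hm : m ∈ MM B l i j) (hk : j < k) :
    lpart B l k m = 0 := by
  ext y
  rw [lpart_apply, Finsupp.zero_apply]
  by_cases h : l y = k
  · rw [if_pos h]
    by_contra hy
    have := mem_MM.1 hm y hy
    omega
  · rw [if_neg h]

end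

section action

variable {B : Type} [CommRing B] {G : Type} [Group G] {p : G →* Multiplicative ℤ}
  {Y : Type} [MulAction G Y] {l : Y → ℤ}

/-- Translation by `g` shifts the levels by `p g`. -/
theorem tr_mem_MM (hl : ∀ (g : G) (y : Y), l (g • y) = Multiplicative.toAdd (p g) + l y) {i j : ℤ}
    {m : Y →₀ B} (hm : m ∈ MM B l i j) (g : G) :
    tr B g m ∈ MM B l (Multiplicative.toAdd (p g) + i) (Multiplicative.toAdd (p g) + j) := by
  refine tr_mem_supported (fun y hy => ?_) hm
  change _ ≤ l (g • y) ∧ l (g • y) ≤ _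
  rw [hl]
  have : i ≤ l y ∧ l y ≤ j := hy
  omega

theorem lpart_tr (hl : ∀ (g : G) (y : Y), l (g • y) = Multiplicative.toAdd (p g) + l y)
    (k : ℤ) (g : G) (m : Y →₀ B) :
    lpart B l (Multiplicative.toAdd (p g) + k) (tr B g m) = tr B g (lpart B l k m) := by
  ext y
  rw [lpart_apply, tr_apply, tr_apply, lpart_apply]
  have h1 : l y = Multiplicative.toAdd (p g) + l (g⁻¹ • y) := by
    rw [← hl g, smul_inv_smul]
  by_cases h : l (g⁻¹ • y) = k
  · rw [if_pos h, if_pos (by omega)]
  · rw [if_neg h, if_neg (by omega)]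

theorem stb_MM (hl : ∀ (g : G) (y : Y), l (g • y) = Multiplicative.toAdd (p g) + l y) (i j : ℤ) :
    Stb B p.ker (MM B l i j) := by
  intro g hg m hm
  have := tr_mem_MM hl hm g
  rw [MonoidHom.mem_ker.1 hg] at this
  simpa using this

theorem lpart_tr_ker (hl : ∀ (g : G) (y : Y), l (g • y) = Multiplicative.toAdd (p g) + l y)
    (k : ℤ) {g : G} (hg : g ∈ p.ker) (m : Y →₀ B) :
    lpart B l k (tr B g m) = tr B g (lpart B l k m) := by
  have := lpart_tr hl k g m
  rw [MonoidHom.mem_ker.1 hg] at this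
  simpa using this

end action

end CG
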