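import Pool.Agent.Helper32.CG.LevDefs
import Pool.Agent.Helper32.CG.Gamma

/-!
# Project CG, module LevOrb

* `exists_level`: with `γ` from `exists_gamma`, `l y = toAdd (p (γ y))`.
* `slab_orb`: a slab is contained in finitely many orbits of `ker p`: for each `k : ℤ` choose `c k` with
  `p (c k) = ofAdd k`. If `y = g • z`, `z ∈ Z`, and `k = toAdd (p g) = l y - l z`, then
  `y = (g (c k)⁻¹) • (c k • z)` with `g (c k)⁻¹ ∈ ker p`, and `k ∈ [i - l z, j - l z]`. Take
  `Z' = ⋃_{z ∈ Z} {c k • z | k ∈ Finset.Icc (i - l z) (j - l z)}`.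
-/

namespace CG

variable {G : Type} [Group G] {Y : Type} [MulAction G Y]

theorem exists_level (hY : FreeAct G Y) (p : G →* Multiplicative ℤ) :
    ∃ l : Y → ℤ, ∀ (g : G) (y : Y), l (g • y) = Multiplicative.toAdd (p g) + l y := by
  obtain ⟨γ, hγ⟩ := exists_gamma hY
  refine ⟨fun y => Multiplicative.toAdd (p (γ y)), fun g y => ?_⟩
  simp only [hγ, map_mul, toAdd_mul]

theorem slab_orb {p : G →* Multiplicative ℤ} (hp : Function.Surjective p) {l : Y → ℤ}
    (hl : ∀ (g : G) (y : Y), l (g • y) = Multiplicative.toAdd (p g) + l y) (Z : Finset Y)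
    (hZ : ∀ y : Y, y ∈ orb (⊤ : Subgroup G) (Z : Set Y)) (i j : ℤ) :
    ∃ Z' : Finset Y, slab l i j ⊆ orb p.ker (Z' : Set Y) := by
  classical
  choose c hc using fun k : ℤ => hp (Multiplicative.ofAdd k)
  refine ⟨Z.biUnion (fun z => (Finset.Icc (i - l z) (j - l z)).image (fun k => c k • z)), ?_⟩
  intro y hy
  obtain ⟨g, -, z, hz, hyz⟩ := hZ y
  have h1 : i ≤ l y ∧ l y ≤ j := hy
  have h2 : l y = Multiplicative.toAdd (p g) + l z := by rw [hyz, hl]
  refine ⟨g * (c (Multiplicative.toAdd (p g)))⁻¹, ?_, c (Multiplicative.toAdd (p g)) • z, ?_, ?_⟩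
  · rw [MonoidHom.mem_ker, map_mul, map_inv, hc, ofAdd_toAdd, mul_inv_cancel]
  · rw [Finset.mem_coe, Finset.mem_biUnion]
    refine ⟨z, hz, Finset.mem_image.2 ⟨Multiplicative.toAdd (p g), ?_, rfl⟩⟩
    rw [Finset.mem_Icc]
    omega
  · rw [hyz, mul_smul, inv_smul_smul]

end CG
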