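import Pool.Agent.Helper32.CG.LevOrb
import Pool.Agent.Helper32.CG.KerSep
import Pool.Agent.Helper32.CG.KSlab
import Pool.Agent.Helper32.CG.KStep
import Pool.Agent.Helper32.CG.LFG
import Pool.Agent.Helper32.CG.KEnd

/-! Project CG: coherence of extensions by `ℤ` (assembly, proved from the modules). -/

namespace CG

theorem main_coh {B : Type} [CommRing B] {G : Type} [Group G] {p : G →* Multiplicative ℤ}
    (hp : Function.Surjective p) {N : Subgroup G} (hNn : N.Normal) (hNS : N ≤ p.ker)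
    (hNf : IsFreeGroup ↥N) (hStar : Star B ↥p.ker (N.subgroupOf p.ker))
    (hNo : NoethAct B ↥p.ker (N.subgroupOf p.ker)) : Coh B G := by
  intro Y Y' _ _ hY hY' Z hZ a ha
  obtain ⟨l, hl⟩ := exists_level hY p
  have hslab := slab_orb hp hl Z hZ
  have hSep : ∀ i j : ℤ, Sep B N (MM B l i j) (LinearMap.ker a ⊓ MM B l i j) :=
    fun i j => ker_sep hY' a ha N _
  have hK : Stb B (⊤ : Subgroup G) (LinearMap.ker a) := Stb.ker a fun g _ m => ha g m
  have hfg : ∀ i j : ℤ, GFG B p.ker (LinearMap.ker a ⊓ MM B l i j) := fun i j =>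
    kslab_gfg hNn hNS hNf hStar hNo hY hl _ hK i j (hslab i j) (hSep i j)
  obtain ⟨c0, hc0⟩ := kstep hp hNn hNS hNf hNo hl _ hK hslab hSep
  obtain ⟨c1, hc1⟩ := l_fg hNS hStar hY hl _ hK (hslab 0 0) (fun c => hfg _ _) c0 hc0
  exact k_end hp hl _ hK c1 hc1 (hfg _ _)

end CG
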