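import Pool.Agent.Helper32.CG.Basic

/-!
# Project CG, module Noeth

`B` is a commutative Noetherian ring, `Γ` is finitely generated and `N` contains the commutator
subgroup of `Γ`. Then every `Γ`-stable submodule `L` of `Y →₀ B` supported in finitely many
`Γ`-orbits, where `N` acts trivially on `Y`, is finitely generated.

Proof. `N` is normal since it contains the commutator subgroup; `Q := Γ ⧸ N` is a finitely
generated commutative group and `R := MonoidAlgebra B Q` is a commutative Noetherian ring
(`MonoidAlgebra` of a finitely generated commutative monoid is of finite type: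
`MonoidAlgebra.finiteType_of_fg`, then `Algebra.FiniteType.isNoetherianRing`).
Let `Ψ : (↥Z → R) →+ (Y →₀ B)` (or `↥Z →₀ R`) be the map sending `b·q` in the `z`-th coordinate to
`single (g • z) b`, `g` any lift of `q` (well defined since `N` acts trivially on `Y`). Its image is
`supported (orb ⊤ Z)`. The set of `c` with `Ψ c ∈ L` is an `R`-submodule of `↥Z → R` (since `L` is a
`B`-submodule stable under `Γ` and `Ψ (q c) = tr g (Ψ c)`), so it is generated over `R` by a finite set
`s`, and `L` is `gspan B ⊤ (Ψ '' s)`.
(An alternative: make `Y →₀ B` a module over `MonoidAlgebra B Γ` by `MonoidAlgebra.lift` of the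
monoid hom `Γ →* Module.End B (Y →₀ B)`, `g ↦ tr B g`.)
-/

namespace CG

/-- Submodules stable under a commutative finitely generated group of automorphisms inside a
finitely generated one are finitely generated. -/
private theorem noeth_aux (B : Type) [CommRing B] [IsNoetherianRing B] (Q : Type) [CommGroup Q]
    [Group.FG Q] (V : Type) [AddCommGroup V] [Module B V] (τ : Q →* Module.End B V) (T : Set V)
    (hT : T.Finite) (M : Submodule B V)
    (hM : M ≤ Submodule.span B {v | ∃ q, ∃ t ∈ T, v = τ q t})
    (hτ : ∀ q, ∀ v ∈ M, τ q v ∈ M) :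
    ∃ s : Finset V, M = Submodule.span B {v | ∃ q, ∃ y ∈ s, v = τ q y} := by
  classical
  have : Monoid.FG Q := Group.fg_iff_monoid_fg.1 inferInstance
  have : IsNoetherianRing (MonoidAlgebra B Q) :=
    Algebra.FiniteType.isNoetherianRing B (MonoidAlgebra B Q)
  let φ : MonoidAlgebra B Q →ₐ[B] Module.End B V := MonoidAlgebra.lift B (Module.End B V) Q τ
  let _ : Module (MonoidAlgebra B Q) V := Module.compHom V φ.toRingHom
  have hsmul : ∀ (r : MonoidAlgebra B Q) (v : V), r • v = φ r v := fun _ _ => rfl
  have hsingle : ∀ (q : Q) (b : B) (v : V),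
      (MonoidAlgebra.single q b : MonoidAlgebra B Q) • v = b • τ q v := by
    intro q b v
    rw [hsmul]
    change (MonoidAlgebra.lift B (Module.End B V) Q τ (MonoidAlgebra.single q b)) v = _
    rw [MonoidAlgebra.lift_single]
    rfl
  have hclosed : ∀ (P : Submodule B V), (∀ q, ∀ v ∈ P, τ q v ∈ P) →
      ∀ (r : MonoidAlgebra B Q) (v : V), v ∈ P → r • v ∈ P := by
    intro P hP r v hv
    induction r using MonoidAlgebra.induction_linear with
    | zero => rw [zero_smul]; exact P.zero_mem
    | add r r' h h' => rw [add_smul]; exact P.add_mem h h'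
    | single q b => rw [hsingle]; exact P.smul_mem b (hP q v hv)
  let mk : (P : Submodule B V) → (∀ q, ∀ v ∈ P, τ q v ∈ P) → Submodule (MonoidAlgebra B Q) V :=
    fun P hP =>
      { carrier := P
        add_mem' := fun ha hb => P.add_mem ha hb
        zero_mem' := P.zero_mem
        smul_mem' := fun r v hv => hclosed P hP r v hv }
  have hmk : ∀ (P : Submodule B V) (hP : ∀ q, ∀ v ∈ P, τ q v ∈ P) (v : V),
      v ∈ mk P hP ↔ v ∈ P := fun _ _ _ => Iff.rfl
  have hN : IsNoetherian (MonoidAlgebra B Q) (Submodule.span (MonoidAlgebra B Q) T) :=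
    isNoetherian_span_of_finite _ hT
  have hsp : ∀ (s : Set V) (q : Q) (y : V), y ∈ s →
      τ q y ∈ Submodule.span (MonoidAlgebra B Q) s := by
    intro s q y hy
    have h1 : τ q y = (MonoidAlgebra.single q (1 : B) : MonoidAlgebra B Q) • y := by
      rw [hsingle, one_smul]
    rw [h1]
    exact Submodule.smul_mem _ _ (Submodule.subset_span hy)
  have hBle : ∀ (s : Set V), ∀ v ∈ Submodule.span B {v | ∃ q, ∃ y ∈ s, v = τ q y},
      v ∈ Submodule.span (MonoidAlgebra B Q) s := by
    intro s v hv
    induction hv using Submodule.span_induction with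
    | mem v hv =>
      obtain ⟨q, y, hy, rfl⟩ := hv
      exact hsp s q y hy
    | zero => exact Submodule.zero_mem _
    | add v w _ _ h h' => exact Submodule.add_mem _ h h'
    | smul b v _ h =>
      have h1 : b • v = (MonoidAlgebra.single (1 : Q) b : MonoidAlgebra B Q) • v := by
        rw [hsingle, map_one]
        rfl
      rw [h1]
      exact Submodule.smul_mem _ _ h
  have hle : mk M hτ ≤ Submodule.span (MonoidAlgebra B Q) T := by
    intro v hv
    exact hBle T v (hM hv)
  obtain ⟨s, hs⟩ := isNoetherian_submodule.1 hN (mk M hτ) hle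
  refine ⟨s, le_antisymm ?_ ?_⟩
  · have hstab : ∀ q, ∀ v ∈ Submodule.span B {v | ∃ q, ∃ y ∈ s, v = τ q y},
        τ q v ∈ Submodule.span B {v | ∃ q, ∃ y ∈ s, v = τ q y} := by
      intro q v hv
      induction hv using Submodule.span_induction with
      | mem v hv =>
        obtain ⟨q', y, hy, rfl⟩ := hv
        refine Submodule.subset_span ⟨q * q', y, hy, ?_⟩
        rw [map_mul]
        rfl
      | zero => rw [map_zero]; exact Submodule.zero_mem _
      | add v w _ _ h h' => rw [map_add]; exact Submodule.add_mem _ h h'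
      | smul b v _ h => rw [map_smul]; exact Submodule.smul_mem _ _ h
    have h1 : Submodule.span (MonoidAlgebra B Q) (s : Set V) ≤ mk _ hstab := by
      refine Submodule.span_le.2 ?_
      intro y hy
      refine (hmk _ hstab y).2 ?_
      refine Submodule.subset_span ⟨1, y, hy, ?_⟩
      rw [map_one]
      rfl
    intro v hv
    have h2 : v ∈ mk M hτ := hv
    rw [← hs] at h2
    exact h1 h2
  · refine Submodule.span_le.2 ?_
    rintro _ ⟨q, y, hy, rfl⟩
    apply hτ
    have h2 : y ∈ Submodule.span (MonoidAlgebra B Q) (s : Set V) := Submodule.subset_span hy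
    rw [hs] at h2
    exact h2

theorem noethAct_of_comm (B : Type) [CommRing B] [IsNoetherianRing B] (Γ : Type) [Group Γ]
    [Group.FG Γ] (N : Subgroup Γ) (hN : commutator Γ ≤ N) : NoethAct B Γ N := by
  classical
  intro Y _ hNY Z L hL hS
  have hnorm : N.Normal := by
    constructor
    intro n hn g
    have h1 : g * n * g⁻¹ * n⁻¹ ∈ commutator Γ := by
      rw [commutator_def]
      exact Subgroup.commutator_mem_commutator (Subgroup.mem_top g) (Subgroup.mem_top n)
    have h2 := N.mul_mem (hN h1) hn
    simpa using h2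
  have := hnorm
  have hcomm : ∀ a b : Γ ⧸ N, a * b = b * a := by
    have := (Subgroup.Normal.quotient_commutative_iff_commutator_le (N := N)).2 hN
    exact this.is_comm.comm
  let _ : CommGroup (Γ ⧸ N) := { (inferInstance : Group (Γ ⧸ N)) with mul_comm := hcomm }
  have : Group.FG (Γ ⧸ N) := QuotientGroup.fg N
  let σ : Γ →* Module.End B (Y →₀ B) :=
    { toFun := fun g => tr B g
      map_one' := by
        ext1 y
        ext b
        simp
      map_mul' := by
        intro g h
        apply LinearMap.ext
        intro m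
        exact tr_mul g h m }
  have hσ : N ≤ σ.ker := by
    intro n hn
    rw [MonoidHom.mem_ker]
    apply LinearMap.ext
    intro m
    change tr B n m = m
    ext y
    rw [tr_apply, hNY n⁻¹ (N.inv_mem hn) y]
  let τ : Γ ⧸ N →* Module.End B (Y →₀ B) := QuotientGroup.lift N σ hσ
  have hτ : ∀ (g : Γ) (m : Y →₀ B), τ (g : Γ ⧸ N) m = tr B g m := fun g m => rfl
  obtain ⟨s, hs⟩ := noeth_aux B (Γ ⧸ N) (Y →₀ B) τ
    ((fun z => Finsupp.single z (1 : B)) '' (Z : Set Y)) (Z.finite_toSet.image _) L
    (by
      intro v hv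
      have hv' := hL hv
      rw [mem_supp] at hv'
      rw [← Finsupp.sum_single v]
      refine Submodule.sum_mem _ ?_
      intro y hy
      rw [Finsupp.mem_support_iff] at hy
      obtain ⟨g, -, z, hz, rfl⟩ := hv' y hy
      have h1 : Finsupp.single (g • z) (v (g • z)) =
          v (g • z) • τ (g : Γ ⧸ N) (Finsupp.single z (1 : B)) := by
        rw [hτ, tr_single, Finsupp.smul_single, smul_eq_mul, mul_one]
      rw [h1]
      exact Submodule.smul_mem _ _ (Submodule.subset_span ⟨_, _, ⟨z, hz, rfl⟩, rfl⟩))
    (by
      intro q v hv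
      obtain ⟨g, rfl⟩ := QuotientGroup.mk_surjective q
      exact hS g (Subgroup.mem_top g) v hv)
  refine ⟨s, ?_⟩
  rw [hs, gspan]
  congr 1
  ext v
  constructor
  · rintro ⟨q, y, hy, rfl⟩
    obtain ⟨g, rfl⟩ := QuotientGroup.mk_surjective q
    exact ⟨g, Subgroup.mem_top g, y, hy, rfl⟩
  · rintro ⟨g, -, y, hy, rfl⟩
    exact ⟨(g : Γ ⧸ N), y, hy, rfl⟩

end CG
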