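import Pool.Agent.Helper32.CG.Basic

/-!
# Project CG, module NoethChain

* `noeth_chain`: an increasing chain `U k` of `S`-stable submodules supported in finitely many
  `S`-orbits (with `N ⊓ S` acting trivially) is stationary. Proof: `⨆ k, U k` is `S`-stable and
  supported in `orb S Z`, so `GFG B S (⨆ k, U k)` by `NoethAct.apply`; each of the finitely many
  generators lies in some `U k` (`Submodule.mem_iSup_of_directed` / `Submodule.mem_iSup_of_chain`),
  so all of them lie in `U k0` and `⨆ k, U k ≤ U k0` by `gspan_le`.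
* `two_index`: a two-index monotone family in a partial order, such that every increasing sequence
  whose terms are members of the family is stationary, satisfies: there is `A` with `Λ a b = Λ A b`
  for all `a ≥ A` and all `b`.
  Proof: the diagonal sequence `Λ k k` is stationary from `k = c` on, so `Λ a b = Λ c c` for
  all `a, b ≥ c` (squeeze between diagonal elements). For each `b < c` the sequence `a ↦ Λ a b` is
  stationary from some `A_b` on. Take `A` = the maximum of `c` and the `A_b`, `b < c`.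
-/

namespace CG

variable {B : Type} [CommRing B] {Γ : Type} [Group Γ] {Y : Type} [MulAction Γ Y]

theorem noeth_chain {S N : Subgroup Γ} (h : NoethAct B ↥S (N.subgroupOf S))
    (hN : ∀ n ∈ N ⊓ S, ∀ y : Y, n • y = y) (Z : Finset Y)
    (U : ℕ → Submodule B (Y →₀ B)) (hU : Monotone U)
    (hs : ∀ k, U k ≤ Finsupp.supported B B (orb S (Z : Set Y)))
    (ht : ∀ k, Stb B S (U k)) : ∃ k0, ∀ k, k0 ≤ k → U k = U k0 := by
  classical
  have hG : GFG B S (⨆ k, U k) :=
    NoethAct.apply h hN Z _ (iSup_le hs) (Stb.iSup ht)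
  obtain ⟨s, hsG⟩ := hG
  have hmem : ∀ y ∈ s, ∃ k, y ∈ U k := by
    intro y hy
    have hy' : y ∈ (⨆ k, U k) := by
      rw [hsG]
      exact subset_gspan S _ hy
    exact (Submodule.mem_iSup_of_directed U hU.directed_le).1 hy'
  choose! f hf using hmem
  refine ⟨s.sup f, fun k hk => le_antisymm ?_ (hU hk)⟩
  refine le_trans (le_iSup U k) ?_
  rw [hsG]
  refine gspan_le (ht _) ?_
  intro y hy
  exact hU (Finset.le_sup (f := f) hy) (hf y hy)

theorem two_index {P : Type} [PartialOrder P] (Λ : ℕ → ℕ → P)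
    (hmono : ∀ a a' b b', a ≤ a' → b ≤ b' → Λ a b ≤ Λ a' b')
    (hacc : ∀ U : ℕ → P, Monotone U → (∀ k, ∃ a b, U k = Λ a b) →
      ∃ k0, ∀ k, k0 ≤ k → U k = U k0) :
    ∃ A, ∀ a, A ≤ a → ∀ b, Λ a b = Λ A b := by
  obtain ⟨c, hc⟩ := hacc (fun k => Λ k k) (fun i j hij => hmono _ _ _ _ hij hij)
    (fun k => ⟨k, k, rfl⟩)
  have hrow : ∀ b, ∃ A, ∀ a, A ≤ a → Λ a b = Λ A b := by
    intro b
    exact hacc (fun a => Λ a b) (fun i j hij => hmono _ _ _ _ hij le_rfl)
      (fun k => ⟨k, b, rfl⟩)
  choose R hR using hrow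
  have hbig : ∀ a b, c ≤ a → c ≤ b → Λ a b = Λ c c := by
    intro a b ha hb
    apply le_antisymm
    · have h1 : Λ a b ≤ Λ (max a b) (max a b) :=
        hmono _ _ _ _ (le_max_left _ _) (le_max_right _ _)
      have h2 : Λ (max a b) (max a b) = Λ c c := hc _ (le_trans ha (le_max_left _ _))
      exact h2 ▸ h1
    · exact hmono _ _ _ _ ha hb
  refine ⟨max c ((Finset.range c).sup R), fun a ha b => ?_⟩
  by_cases hb : c ≤ b
  · rw [hbig a b (le_trans (le_max_left _ _) ha) hb, hbig _ b (le_max_left _ _) hb]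
  · have hRb : R b ≤ (Finset.range c).sup R :=
      Finset.le_sup (f := R) (Finset.mem_range.2 (not_le.1 hb))
    have h1 : R b ≤ max c ((Finset.range c).sup R) := le_trans hRb (le_max_right _ _)
    rw [hR b a (le_trans h1 ha), hR b _ h1]

end CG
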