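import Pool.Agent.Helper32.CG.SurfDefs

/-!
# Project CG, module SurfBeta

The automorphism `β` of the free group on `α = none` and `(p, i) = some (p, i)`, `i ∈ ℤ`:
`β(α) = w₀ α`, `w₀ = ∏_j [(j, false, 0), (j, true, 0)]`, and `β(p, i) = (p, i + 1)`.
Its inverse is `α ↦ w_{-1}⁻¹ α`, `(p, i) ↦ (p, i - 1)`, `w_{-1} = ∏_j [(j, false, -1), (j, true, -1)]`.
Use `FreeGroup.lift`, `FreeGroup.ext_hom`, `map_commProd` and `MulEquiv.ofBijective` or
`MonoidHom.toMulEquiv`.
-/

namespace CG

theorem exists_beta (h : ℕ) : ∃ β : MulAut (FreeGroup (YY h)),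
    β (FreeGroup.of none) =
      commProd (fun p : Fin h × Bool => FreeGroup.of (some (p, (0 : ℤ)) : YY h)) *
        FreeGroup.of none ∧
    ∀ (p : Fin h × Bool) (i : ℤ),
      β (FreeGroup.of (some (p, i))) = FreeGroup.of (some (p, i + 1)) := by
  let w : ℤ → FreeGroup (YY h) := fun i =>
    commProd (fun p : Fin h × Bool => FreeGroup.of (some (p, i) : YY h))
  let F : FreeGroup (YY h) →* FreeGroup (YY h) := FreeGroup.lift fun y : YY h =>
    match y with
    | none => w 0 * FreeGroup.of none
    | some (p, i) => FreeGroup.of (some (p, i + 1))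
  let G : FreeGroup (YY h) →* FreeGroup (YY h) := FreeGroup.lift fun y : YY h =>
    match y with
    | none => (w (-1))⁻¹ * FreeGroup.of none
    | some (p, i) => FreeGroup.of (some (p, i - 1))
  have F0 : F (FreeGroup.of none) = w 0 * FreeGroup.of none := FreeGroup.lift_apply_of
  have F1 : ∀ p i, F (FreeGroup.of (some (p, i))) = FreeGroup.of (some (p, i + 1)) :=
    fun p i => FreeGroup.lift_apply_of
  have G0 : G (FreeGroup.of none) = (w (-1))⁻¹ * FreeGroup.of none := FreeGroup.lift_apply_of
  have G1 : ∀ p i, G (FreeGroup.of (some (p, i))) = FreeGroup.of (some (p, i - 1)) :=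
    fun p i => FreeGroup.lift_apply_of
  have Fw : ∀ i, F (w i) = w (i + 1) := by
    intro i
    show F (commProd _) = commProd _
    rw [map_commProd]
    congr 1
  have Gw : ∀ i, G (w i) = w (i - 1) := by
    intro i
    show G (commProd _) = commProd _
    rw [map_commProd]
    congr 1
  have GF : G.comp F = MonoidHom.id _ := by
    refine FreeGroup.ext_hom _ _ ?_
    rintro (_ | ⟨p, i⟩)
    · show G (F (FreeGroup.of none)) = FreeGroup.of none
      rw [F0, map_mul, Gw, G0, zero_sub, mul_inv_cancel_left]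
    · show G (F (FreeGroup.of (some (p, i)))) = FreeGroup.of (some (p, i))
      rw [F1, G1, add_sub_cancel_right]
  have FG : F.comp G = MonoidHom.id _ := by
    refine FreeGroup.ext_hom _ _ ?_
    rintro (_ | ⟨p, i⟩)
    · show F (G (FreeGroup.of none)) = FreeGroup.of none
      rw [G0, map_mul, map_inv, Fw, F0, neg_add_cancel, inv_mul_cancel_left]
    · show F (G (FreeGroup.of (some (p, i)))) = FreeGroup.of (some (p, i))
      rw [G1, F1, sub_add_cancel]
  exact ⟨MonoidHom.toMulEquiv F G GF FG, F0, F1⟩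

end CG
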