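import Pool.Agent.Helper32.CG.Trans

/-!
# Project CG: the surface group of genus `h + 1` (definitions and first facts, proved)

Generators `a₀, b₀` and `a_{j+1}, b_{j+1}`, `j : Fin h`; the relation reads
`b₀ a₀ b₀⁻¹ = w a₀`, `w = ∏_j [a_{j+1}, b_{j+1}]`.
-/

namespace CG

/-- generators of the vertex group: `none` is `a₀`, `some (j, _)` are `a_{j+1}`, `b_{j+1}` -/
abbrev XX (h : ℕ) : Type := Option (Fin h × Bool)

/-- generators of the free kernel -/
abbrev YY (h : ℕ) : Type := Option ((Fin h × Bool) × ℤ)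

/-- the generator `a₀` -/
def a0 (h : ℕ) : SurfaceGroup (h + 1) := PresentedGroup.of ((0, false) : Fin (h + 1) × Bool)

/-- the generator `b₀` -/
def b0 (h : ℕ) : SurfaceGroup (h + 1) := PresentedGroup.of ((0, true) : Fin (h + 1) × Bool)

/-- the other generators -/
def ab (h : ℕ) (p : Fin h × Bool) : SurfaceGroup (h + 1) :=
  PresentedGroup.of ((p.1.succ, p.2) : Fin (h + 1) × Bool)

/-- the map from the free group on `a₀`, `a_{j+1}`, `b_{j+1}` -/
def iota (h : ℕ) : FreeGroup (XX h) →* SurfaceGroup (h + 1) :=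
  FreeGroup.lift fun o => Option.elim o (a0 h) (ab h)

/-- the word `w a₀` -/
def wa (h : ℕ) : FreeGroup (XX h) :=
  commProd (fun p : Fin h × Bool => FreeGroup.of (some p : XX h)) * FreeGroup.of (none : XX h)

theorem map_commProd {G G' : Type} [Group G] [Group G'] (f : G →* G') {g : ℕ}
    (x : Fin g × Bool → G) : f (commProd x) = commProd (fun p => f (x p)) := by
  rw [commProd, commProd, map_list_prod, List.map_map]
  congr 1
  apply List.map_congr_left
  intro i _
  simp

theorem commProd_succ {G : Type} [Group G] {h : ℕ} (x : Fin (h + 1) × Bool → G) :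
    commProd x = x (0, false) * x (0, true) * (x (0, false))⁻¹ * (x (0, true))⁻¹ *
      commProd (fun p : Fin h × Bool => x (p.1.succ, p.2)) := by
  rw [commProd, List.finRange_succ, List.map_cons, List.prod_cons, commProd, List.map_map]
  rfl

@[simp] theorem iota_none (h : ℕ) : iota h (FreeGroup.of none) = a0 h := by
  simp [iota]

@[simp] theorem iota_some (h : ℕ) (p : Fin h × Bool) :
    iota h (FreeGroup.of (some p)) = ab h p := by
  simp [iota]

/-- To define a homomorphism out of the surface group. -/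
theorem exists_surf_hom (h : ℕ) {G : Type} [Group G] (a b : G) (x : Fin h × Bool → G)
    (hrel : b * a * b⁻¹ = commProd x * a) :
    ∃ θ : SurfaceGroup (h + 1) →* G, θ (a0 h) = a ∧ θ (b0 h) = b ∧ ∀ p, θ (ab h p) = x p := by
  let y : Fin (h + 1) × Bool → G := fun q =>
    Fin.cases (motive := fun _ => G) (bif q.2 then b else a) (fun j => x (j, q.2)) q.1
  have hy : ∀ r ∈ ({SurfRel (h + 1)} : Set (FreeGroup (Fin (h + 1) × Bool))),
      FreeGroup.lift y r = 1 := by
    intro r hr
    rw [Set.mem_singleton_iff] at hr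
    subst hr
    rw [SurfRel, map_commProd]
    simp only [FreeGroup.lift_apply_of]
    rw [commProd_succ]
    change a * b * a⁻¹ * b⁻¹ * commProd (fun p : Fin h × Bool => x p) = 1
    have h2 : commProd (fun p : Fin h × Bool => x p) = b * a * b⁻¹ * a⁻¹ := by
      rw [hrel]; simp
    rw [h2]
    group
  refine ⟨PresentedGroup.toGroup hy, ?_, ?_, fun p => ?_⟩
  · exact PresentedGroup.toGroup.of hy
  · exact PresentedGroup.toGroup.of hy
  · exact PresentedGroup.toGroup.of hy

/-- The relation of the surface group. -/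
theorem surf_conj (h : ℕ) : b0 h * a0 h * (b0 h)⁻¹ = iota h (wa h) := by
  have h1 : PresentedGroup.mk ({SurfRel (h + 1)} : Set (FreeGroup (Fin (h + 1) × Bool)))
      (SurfRel (h + 1)) = 1 := PresentedGroup.one_of_mem (Set.mem_singleton _)
  have h0 : PresentedGroup.mk ({SurfRel (h + 1)} : Set (FreeGroup (Fin (h + 1) × Bool)))
      (SurfRel (h + 1)) = commProd (fun p => PresentedGroup.mk _ (FreeGroup.of p)) :=
    map_commProd _ _
  rw [h0, commProd_succ] at h1
  change a0 h * b0 h * (a0 h)⁻¹ * (b0 h)⁻¹ * commProd (fun p : Fin h × Bool => ab h p) = 1 at h1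
  rw [wa, map_mul, iota_none, map_commProd]
  simp only [iota_some]
  have h2 : commProd (fun p : Fin h × Bool => ab h p) = b0 h * a0 h * (b0 h)⁻¹ * (a0 h)⁻¹ := by
    have h3 := eq_inv_of_mul_eq_one_right h1
    rw [h3]
    group
  rw [h2]
  group

/-- Two homomorphisms from the surface group agreeing on the generators are equal. -/
theorem surf_hom_ext (h : ℕ) {G : Type} [Group G] {θ θ' : SurfaceGroup (h + 1) →* G}
    (h1 : θ (a0 h) = θ' (a0 h)) (h2 : θ (b0 h) = θ' (b0 h))
    (h3 : ∀ p, θ (ab h p) = θ' (ab h p)) : θ = θ' := by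
  refine PresentedGroup.ext ?_
  rintro ⟨i, c⟩
  induction i using Fin.cases with
  | zero =>
    cases c
    · exact h1
    · exact h2
  | succ j => exact h3 (j, c)

/-- The surface group is generated by `a₀`, `b₀` and the `ab`. -/
theorem surf_closure (h : ℕ) :
    Subgroup.closure ({a0 h, b0 h} ∪ Set.range (ab h)) = (⊤ : Subgroup (SurfaceGroup (h + 1))) := by
  rw [eq_top_iff, ← PresentedGroup.closure_range_of, Subgroup.closure_le]
  rintro _ ⟨⟨i, c⟩, rfl⟩
  apply Subgroup.subset_closure
  induction i using Fin.cases with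
  | zero =>
    cases c
    · exact Or.inl (Or.inl rfl)
    · exact Or.inl (Or.inr rfl)
  | succ j => exact Or.inr ⟨(j, c), rfl⟩

end CG
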