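import Pool.Agent.Helper32.CG.SurfTheta

/-!
# Project CG, module SurfFacts

* `iota_injective`: with `θ` from `surf_structure`, `θ (iota x) = inl (ε x)` where
  `ε : FreeGroup (XX h) →* FreeGroup (YY h)` is `FreeGroup.map` of the injective map `none ↦ none`,
  `some p ↦ some (p, 0)`, and `FreeGroup.map` of an injective map is injective (it has a left inverse
  `FreeGroup.map`, or `FreeGroup.map_injective`), `SemidirectProduct.inl_injective`.
* `isFreeGroup_commutator`: the commutator subgroup `C` is free: `rightHom ∘ θ` has values in a commutative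
  group, so `θ(C) ⊆ ker rightHom = range inl` and `x ↦ (θ x).left` restricts to an injective homomorphism
  `C →* FreeGroup (YY h)`; `C` is isomorphic to its range, free by Nielsen-Schreier
  (`subgroupIsFreeOfIsFree`), `IsFreeGroup.ofMulEquiv`.
* `a0_conj`: let `χ : S →* Multiplicative ℤ`, `χ(a₀) = ofAdd 1`, `χ = 1` on the other generators
  (`exists_surf_hom`, the relation holds in a commutative group). `χ` kills commutators. If
  `g⁻¹ n g = a₀^k` with `n ∈ C` then `k = 0`, so `n = 1`.
* `surf_fg`: presented groups on a finite set are finitely generated (`PresentedGroup.closure_range_of`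
  or surjectivity of `PresentedGroup.mk` and `Group.fg_of_surjective`).
-/

namespace CG

theorem iota_injective (h : ℕ) : Function.Injective (iota h) := by
  obtain ⟨β, θ, hθ, ha, -, hab⟩ := surf_structure h
  let f : XX h → YY h := Option.map (fun p => (p, (0 : ℤ)))
  have hf : Function.Injective f := by
    apply Option.map_injective
    intro p q hpq
    exact congrArg Prod.fst hpq
  have key : θ.comp (iota h) = SemidirectProduct.inl.comp (FreeGroup.map f) := by
    refine FreeGroup.ext_hom _ _ ?_
    rintro (_ | p)
    · change θ (iota h (FreeGroup.of none)) =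
        SemidirectProduct.inl (FreeGroup.map f (FreeGroup.of none))
      rw [iota_none, ha, FreeGroup.map.of]
      rfl
    · change θ (iota h (FreeGroup.of (some p))) =
        SemidirectProduct.inl (FreeGroup.map f (FreeGroup.of (some p)))
      rw [iota_some, hab, FreeGroup.map.of]
      rfl
  have h2 : Function.Injective (θ ∘ iota h) := by
    have h3 : (θ ∘ iota h) = SemidirectProduct.inl ∘ FreeGroup.map f := by
      funext x
      exact DFunLike.congr_fun key x
    rw [h3]
    exact SemidirectProduct.inl_injective.comp (FreeGroup.map_injective hf)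
  exact h2.of_comp

theorem isFreeGroup_commutator (h : ℕ) : IsFreeGroup ↥(commutator (SurfaceGroup (h + 1))) := by
  obtain ⟨β, θ, hθ, -, -, -⟩ := surf_structure h
  have hright : ∀ x ∈ commutator (SurfaceGroup (h + 1)), (θ x).right = 1 := by
    intro x hx
    exact Abelianization.commutator_subset_ker (SemidirectProduct.rightHom.comp θ) hx
  let ψ : ↥(commutator (SurfaceGroup (h + 1))) →* FreeGroup (YY h) :=
    { toFun := fun x => (θ (x : SurfaceGroup (h + 1))).left
      map_one' := by simp
      map_mul' := by
        intro x y
        rw [Subgroup.coe_mul, map_mul, SemidirectProduct.mul_left, hright x x.2]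
        simp }
  have hψ : Function.Injective ψ := by
    intro x y hxy
    apply Subtype.ext
    apply hθ
    apply SemidirectProduct.ext
    · exact hxy
    · rw [hright x x.2, hright y y.2]
  exact IsFreeGroup.ofMulEquiv (MonoidHom.ofInjective hψ).symm

theorem a0_conj (h : ℕ) (g n : SurfaceGroup (h + 1)) (hn : n ∈ commutator (SurfaceGroup (h + 1)))
    (hg : g⁻¹ * n * g ∈ Subgroup.zpowers (a0 h)) : n = 1 := by
  obtain ⟨χ, hχ, -, -⟩ := exists_surf_hom h (G := Multiplicative ℤ) (Multiplicative.ofAdd 1) 1
    (fun _ => 1) (by simp [commProd])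
  have h1 : χ n = 1 := Abelianization.commutator_subset_ker χ hn
  obtain ⟨k, hk⟩ := hg
  have hk' : (a0 h) ^ k = g⁻¹ * n * g := hk
  have h2 := congrArg χ hk'
  rw [map_zpow, hχ, map_mul, map_mul, h1, map_inv, mul_one, inv_mul_cancel] at h2
  have hk0 : k = 0 := by
    have h3 := congrArg Multiplicative.toAdd h2
    simpa using h3
  rw [hk0, zpow_zero] at hk'
  have h4 : n = g * (g⁻¹ * n * g) * g⁻¹ := by group
  rw [h4, ← hk']
  group

theorem surf_fg (g : ℕ) : Group.FG (SurfaceGroup g) := by
  rw [Group.fg_iff]
  exact ⟨Set.range PresentedGroup.of, PresentedGroup.closure_range_of _, Set.finite_range _⟩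

end CG
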