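import Pool.Agent.Helper32.CG.SurfBeta

/-!
# Project CG, module SurfTheta

The injective homomorphism `θ` from the surface group to `Φ ⋊ ℤ`, `Φ = FreeGroup (YY h)`, where `ℤ` acts by
the powers of `β`: `θ(a₀) = α`, `θ(b₀) = t`, `θ(ab p) = (p, 0)`.

Proof. `exists_surf_hom` gives `θ`: the relation `t α t⁻¹ = w₀ α` is `β(α) = w₀ α`
(`SemidirectProduct.inl_aut`: `inl (φ g n) = inr g * inl n * inr g⁻¹`), with `map_commProd` for `inl`.
Injectivity: there is `κ : Φ ⋊ ℤ →* S`, `κ(α) = a₀`, `κ(p, i) = b₀^i (ab p) b₀^{-i}`, `κ(t) = b₀`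
(`SemidirectProduct.lift κ₁ κ₂`, `κ₁ = FreeGroup.lift ..`, `κ₂ = zpowersHom _ (b0 h)`); the
compatibility for `g = t^n` follows from that for `t`: `κ₁(β x) = b₀ κ₁(x) b₀⁻¹`, checked on
the free generators (`FreeGroup.ext_hom`), where for `x = α` it is `surf_conj`:
`κ₁(w₀ α) = w a₀ = b₀ a₀ b₀⁻¹` (`map_commProd`), and then for all integers `n` (induction, or: the set of
`g : Multiplicative ℤ` with the property is a subgroup). `κ ∘ θ = id` by `surf_hom_ext`, so `θ` is
injective.
-/

namespace CG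

theorem surf_structure (h : ℕ) : ∃ (β : MulAut (FreeGroup (YY h)))
    (θ : SurfaceGroup (h + 1) →*
      (FreeGroup (YY h) ⋊[zpowersHom (MulAut (FreeGroup (YY h))) β] Multiplicative ℤ)),
    Function.Injective θ ∧ θ (a0 h) = SemidirectProduct.inl (FreeGroup.of none) ∧
    θ (b0 h) = SemidirectProduct.inr (Multiplicative.ofAdd 1) ∧
    ∀ p, θ (ab h p) = SemidirectProduct.inl (FreeGroup.of (some (p, 0))) := by
  obtain ⟨β, hβ0, hβ1⟩ := exists_beta h
  have hφ1 : zpowersHom (MulAut (FreeGroup (YY h))) β (Multiplicative.ofAdd 1) = β := by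
    rw [zpowersHom_apply, toAdd_ofAdd, zpow_one]
  -- the homomorphism `θ`
  obtain ⟨θ, hθa, hθb, hθx⟩ := exists_surf_hom h
    (G := FreeGroup (YY h) ⋊[zpowersHom (MulAut (FreeGroup (YY h))) β] Multiplicative ℤ)
    (SemidirectProduct.inl (FreeGroup.of none))
    (SemidirectProduct.inr (Multiplicative.ofAdd 1))
    (fun p => SemidirectProduct.inl (FreeGroup.of (some (p, 0)))) (by
      rw [← map_inv, ← SemidirectProduct.inl_aut, hφ1, hβ0, map_mul, map_commProd])
  -- the homomorphism back on the free kernel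
  let κ₁ : FreeGroup (YY h) →* SurfaceGroup (h + 1) := FreeGroup.lift fun y : YY h =>
    match y with
    | none => a0 h
    | some (p, i) => (b0 h) ^ i * ab h p * ((b0 h) ^ i)⁻¹
  have k0 : κ₁ (FreeGroup.of none) = a0 h := FreeGroup.lift_apply_of
  have k1 : ∀ p i, κ₁ (FreeGroup.of (some (p, i))) = (b0 h) ^ i * ab h p * ((b0 h) ^ i)⁻¹ :=
    fun p i => FreeGroup.lift_apply_of
  let κ₂ : Multiplicative ℤ →* SurfaceGroup (h + 1) := zpowersHom _ (b0 h)
  have kb : ∀ x, κ₁ (β x) = b0 h * κ₁ x * (b0 h)⁻¹ := by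
    have : κ₁.comp β.toMonoidHom = (MulAut.conj (b0 h)).toMonoidHom.comp κ₁ := by
      refine FreeGroup.ext_hom _ _ ?_
      rintro (_ | ⟨p, i⟩)
      · show κ₁ (β (FreeGroup.of none)) = b0 h * κ₁ (FreeGroup.of none) * (b0 h)⁻¹
        rw [hβ0, map_mul, map_commProd, k0, surf_conj, wa, map_mul, iota_none, map_commProd]
        have hk : (fun p : Fin h × Bool => κ₁ (FreeGroup.of (some (p, (0 : ℤ)) : YY h))) =
            fun p => iota h (FreeGroup.of (some p)) := by
          funext p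
          rw [k1, iota_some, zpow_zero, one_mul, inv_one, mul_one]
        rw [hk]
      · show κ₁ (β (FreeGroup.of (some (p, i)))) = b0 h * κ₁ (FreeGroup.of (some (p, i))) * (b0 h)⁻¹
        rw [hβ1, k1, k1, add_comm i 1, zpow_add, zpow_one]
        group
    intro x
    exact DFunLike.congr_fun this x
  -- compatibility for all powers
  have kn : ∀ (n : ℤ) (x), κ₁ ((β ^ n) x) = (b0 h) ^ n * κ₁ x * ((b0 h) ^ n)⁻¹ := by
    intro n
    induction n using Int.induction_on with
    | zero => intro x; simp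
    | succ n ih =>
      intro x
      rw [zpow_add, zpow_one, MulAut.mul_apply, ih, kb, zpow_add, zpow_one]
      group
    | pred n ih =>
      intro x
      have h1 := kb ((β ^ (-1 : ℤ)) x)
      have h2 : β ((β ^ (-1 : ℤ)) x) = x := by
        rw [zpow_neg, zpow_one, MulAut.apply_inv_self]
      rw [h2] at h1
      have h3 : κ₁ ((β ^ (-1 : ℤ)) x) = (b0 h)⁻¹ * κ₁ x * b0 h := by
        rw [h1]; group
      rw [sub_eq_add_neg, zpow_add, MulAut.mul_apply, ih, h3, zpow_add, zpow_neg (b0 h) 1, zpow_one]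
      group
  let κ : (FreeGroup (YY h) ⋊[zpowersHom (MulAut (FreeGroup (YY h))) β] Multiplicative ℤ) →*
      SurfaceGroup (h + 1) := SemidirectProduct.lift κ₁ κ₂ (by
    intro g
    refine MonoidHom.ext fun x => ?_
    show κ₁ ((zpowersHom (MulAut (FreeGroup (YY h))) β g) x) = κ₂ g * κ₁ x * (κ₂ g)⁻¹
    rw [zpowersHom_apply, kn]
    rfl)
  have hκ : κ.comp θ = MonoidHom.id _ := by
    refine surf_hom_ext h ?_ ?_ ?_
    · show κ (θ (a0 h)) = a0 h
      rw [hθa]
      exact (SemidirectProduct.lift_inl _ _ _ _).trans k0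
    · show κ (θ (b0 h)) = b0 h
      rw [hθb]
      refine (SemidirectProduct.lift_inr _ _ _ _).trans ?_
      show zpowersHom _ (b0 h) (Multiplicative.ofAdd 1) = b0 h
      rw [zpowersHom_apply, toAdd_ofAdd, zpow_one]
    · intro p
      show κ (θ (ab h p)) = ab h p
      rw [hθx]
      refine (SemidirectProduct.lift_inl _ _ _ _).trans ?_
      rw [k1, zpow_zero, one_mul, inv_one, mul_one]
  refine ⟨β, θ, ?_, hθa, hθb, hθx⟩
  intro x y hxy
  have hx := DFunLike.congr_fun hκ x
  have hy := DFunLike.congr_fun hκ y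
  have hx' : κ (θ x) = x := hx
  have hy' : κ (θ y) = y := hy
  rw [← hx', ← hy', hxy]

end CG
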