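import Pool.Agent.Helper32.CG.Basic

/-! Project CG: basic facts on `TreeData` (definitions and proofs). -/

set_option linter.unusedSectionVars false

namespace CG

namespace TreeData

variable {Γ : Type} [Group Γ] (T : TreeData Γ)

/-- source of the edge `(i, g A i)`: the vertex `g F` -/
def src (e : Σ i, Γ ⧸ T.A i) : Γ ⧸ T.F :=
  Quotient.liftOn' e.2 (fun g => ((g : Γ) : Γ ⧸ T.F)) (by
    intro a b hab
    rw [QuotientGroup.leftRel_apply] at hab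
    exact QuotientGroup.eq.2 (T.hAF _ hab))

/-- target of the edge `(i, g A i)`: the vertex `g (t i) F` -/
def tgt (e : Σ i, Γ ⧸ T.A i) : Γ ⧸ T.F :=
  Quotient.liftOn' e.2 (fun g => ((g * T.t e.1 : Γ) : Γ ⧸ T.F)) (by
    intro a b hab
    rw [QuotientGroup.leftRel_apply] at hab
    apply QuotientGroup.eq.2
    have := T.htF e.1 _ hab
    convert this using 1
    group)

theorem src_mk (i : T.I) (g : Γ) : T.src ⟨i, (g : Γ ⧸ T.A i)⟩ = (g : Γ ⧸ T.F) := rfl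

theorem tgt_mk (i : T.I) (g : Γ) : T.tgt ⟨i, (g : Γ ⧸ T.A i)⟩ = ((g * T.t i : Γ) : Γ ⧸ T.F) := rfl

theorem smul_mk (i : T.I) (g h : Γ) :
    g • (⟨i, (h : Γ ⧸ T.A i)⟩ : Σ i, Γ ⧸ T.A i) = ⟨i, ((g * h : Γ) : Γ ⧸ T.A i)⟩ := rfl

theorem smul_vmk (g h : Γ) : g • ((h : Γ) : Γ ⧸ T.F) = ((g * h : Γ) : Γ ⧸ T.F) := rfl

theorem exists_rep (e : Σ i, Γ ⧸ T.A i) : ∃ (i : T.I) (g : Γ), e = ⟨i, (g : Γ ⧸ T.A i)⟩ := by
  obtain ⟨i, q⟩ := e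
  obtain ⟨g, rfl⟩ := QuotientGroup.mk_surjective q
  exact ⟨i, g, rfl⟩

theorem src_smul (g : Γ) (e : Σ i, Γ ⧸ T.A i) : T.src (g • e) = g • T.src e := by
  obtain ⟨i, h, rfl⟩ := T.exists_rep e
  rfl

theorem tgt_smul (g : Γ) (e : Σ i, Γ ⧸ T.A i) : T.tgt (g • e) = g • T.tgt e := by
  obtain ⟨i, h, rfl⟩ := T.exists_rep e
  rw [smul_mk, tgt_mk, tgt_mk, smul_vmk, mul_assoc]

theorem d_mul_apply (g h : Γ) (e : Σ i, Γ ⧸ T.A i) :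
    T.d (g * h) e = T.d g e + T.d h (g⁻¹ • e) := by
  rw [T.d_mul, Finsupp.add_apply]
  congr 1
  have h1 : e = g • (g⁻¹ • e) := by simp
  conv_lhs => rw [h1]
  exact Finsupp.mapDomain_apply (MulAction.injective g) _ _

theorem d_one : T.d 1 = 0 := T.d_F 1 T.F.one_mem

theorem d_mul_F (g f : Γ) (hf : f ∈ T.F) : T.d (g * f) = T.d g := by
  rw [T.d_mul, T.d_F f hf, Finsupp.mapDomain_zero, add_zero]

theorem d_inv_apply (g : Γ) (e : Σ i, Γ ⧸ T.A i) : T.d g⁻¹ e = - T.d g (g • e) := by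
  have h := T.d_mul_apply g⁻¹ g e
  rw [inv_mul_cancel, d_one, Finsupp.zero_apply, inv_inv] at h
  linarith

/-- `d` depends only on the coset `g F`. -/
theorem d_eq_of_coe {g h : Γ} (hgh : ((g : Γ) : Γ ⧸ T.F) = h) : T.d g = T.d h := by
  rw [QuotientGroup.eq] at hgh
  have : T.d (g * (g⁻¹ * h)) = T.d g := T.d_mul_F g _ hgh
  rw [← this]
  congr 1
  group

/-- A finite subtree (vertices `Vt`, edges `Et`) containing the base vertex. -/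
structure Good (Vt : Finset (Γ ⧸ T.F)) (Et : Finset (Σ i, Γ ⧸ T.A i)) : Prop where
  one : ((1 : Γ) : Γ ⧸ T.F) ∈ Vt
  src : ∀ e ∈ Et, T.src e ∈ Vt
  tgt : ∀ e ∈ Et, T.tgt e ∈ Vt
  sup : ∀ h : Γ, ((h : Γ) : Γ ⧸ T.F) ∈ Vt → ∀ e, T.d h e ≠ 0 → e ∈ Et

section sets

variable {T} {Y : Type} [MulAction Γ Y] (B : Type) [CommRing B]

/-- The points whose subtree `γ(y) τ` contains the vertex `v`. -/
def Bv (γ : Y → Γ) (Vt : Finset (Γ ⧸ T.F)) (v : Γ ⧸ T.F) : Set Y := {y | (γ y)⁻¹ • v ∈ Vt}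

/-- The points whose subtree `γ(y) τ` contains the edge `e`. -/
def Be (γ : Y → Γ) (Et : Finset (Σ i, Γ ⧸ T.A i)) (e : Σ i, Γ ⧸ T.A i) : Set Y :=
  {y | (γ y)⁻¹ • e ∈ Et}

/-- `L_v` -/
noncomputable def Lv (γ : Y → Γ) (Vt : Finset (Γ ⧸ T.F)) (L : Submodule B (Y →₀ B))
    (v : Γ ⧸ T.F) : Submodule B (Y →₀ B) := L ⊓ Finsupp.supported B B (Bv γ Vt v)

/-- `L_e` -/
noncomputable def Le (γ : Y → Γ) (Et : Finset (Σ i, Γ ⧸ T.A i)) (L : Submodule B (Y →₀ B))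
    (e : Σ i, Γ ⧸ T.A i) : Submodule B (Y →₀ B) := L ⊓ Finsupp.supported B B (Be γ Et e)

variable {B} {γ : Y → Γ} {Vt : Finset (Γ ⧸ T.F)} {Et : Finset (Σ i, Γ ⧸ T.A i)}
  {L : Submodule B (Y →₀ B)}

theorem smul_mem_Bv (hγ : ∀ (g : Γ) (y : Y), γ (g • y) = g * γ y) {v : Γ ⧸ T.F} {y : Y}
    (hy : y ∈ Bv γ Vt v) (g : Γ) : g • y ∈ Bv γ Vt (g • v) := by
  change (γ (g • y))⁻¹ • (g • v) ∈ Vt
  rw [hγ, mul_inv_rev, mul_smul, inv_smul_smul]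
  exact hy

theorem smul_mem_Be (hγ : ∀ (g : Γ) (y : Y), γ (g • y) = g * γ y) {e : Σ i, Γ ⧸ T.A i} {y : Y}
    (hy : y ∈ Be γ Et e) (g : Γ) : g • y ∈ Be γ Et (g • e) := by
  change (γ (g • y))⁻¹ • (g • e) ∈ Et
  rw [hγ, mul_inv_rev, mul_smul, inv_smul_smul]
  exact hy

theorem tr_mem_Lv (hγ : ∀ (g : Γ) (y : Y), γ (g • y) = g * γ y)
    (hL : Stb B (⊤ : Subgroup Γ) L) {v : Γ ⧸ T.F} {m : Y →₀ B} (hm : m ∈ Lv B γ Vt L v) (g : Γ) :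
    tr B g m ∈ Lv B γ Vt L (g • v) :=
  ⟨hL g (Subgroup.mem_top _) m hm.1,
    tr_mem_supported (fun _ hy => smul_mem_Bv hγ hy g) hm.2⟩

theorem tr_mem_Le (hγ : ∀ (g : Γ) (y : Y), γ (g • y) = g * γ y)
    (hL : Stb B (⊤ : Subgroup Γ) L) {e : Σ i, Γ ⧸ T.A i} {m : Y →₀ B}
    (hm : m ∈ Le B γ Et L e) (g : Γ) : tr B g m ∈ Le B γ Et L (g • e) :=
  ⟨hL g (Subgroup.mem_top _) m hm.1,
    tr_mem_supported (fun _ hy => smul_mem_Be hγ hy g) hm.2⟩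

theorem Be_subset_src (hg : T.Good Vt Et) (e : Σ i, Γ ⧸ T.A i) :
    (Be γ Et e : Set Y) ⊆ Bv γ Vt (T.src e) := by
  intro y hy
  change (γ y)⁻¹ • T.src e ∈ Vt
  rw [← T.src_smul]
  exact hg.src _ hy

theorem Be_subset_tgt (hg : T.Good Vt Et) (e : Σ i, Γ ⧸ T.A i) :
    (Be γ Et e : Set Y) ⊆ Bv γ Vt (T.tgt e) := by
  intro y hy
  change (γ y)⁻¹ • T.tgt e ∈ Vt
  rw [← T.tgt_smul]
  exact hg.tgt _ hy

theorem Le_le_src (hg : T.Good Vt Et) (e : Σ i, Γ ⧸ T.A i) :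
    Le B γ Et L e ≤ Lv B γ Vt L (T.src e) :=
  inf_le_inf le_rfl (Finsupp.supported_mono (Be_subset_src hg e))

theorem Le_le_tgt (hg : T.Good Vt Et) (e : Σ i, Γ ⧸ T.A i) :
    Le B γ Et L e ≤ Lv B γ Vt L (T.tgt e) :=
  inf_le_inf le_rfl (Finsupp.supported_mono (Be_subset_tgt hg e))

end sets

end TreeData

end CG
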