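import Pool.Agent.Helper32.CG.TreeBasic

/-!
# Project CG, module TreeBd

For an abelian group `M` and `m : M`, let `dm g m : (Σ i, Γ ⧸ A i) →₀ M` be the chain with coefficients
`d(g)_e • m`. Its boundary `mapDomain tgt - mapDomain src` is `m [g F] - m [F]`.

Proof. The set of `g` with the property for all `m` contains `F` (both sides zero) and the `t i`
(`dm (t i) m = single (i, A_i) m`), and is closed under products:
`dm (g h) m = dm g m + mapDomain (g • ·) (dm h m)` and `mapDomain tgt ∘ mapDomain (g • ·) =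
mapDomain (g • ·) ∘ mapDomain tgt` (`tgt_smul`), `g • [F] = [g F]`; and under inverses:
`0 = dm (g⁻¹ g) m`. Use `Subgroup.closure_induction` and `T.gen`.
-/

namespace CG

namespace TreeData

variable {Γ : Type} [Group Γ] (T : TreeData Γ) {M : Type} [AddCommGroup M]

/-- the chain `e ↦ d(g)_e • m` -/
noncomputable def dm (g : Γ) (m : M) : (Σ i, Γ ⧸ T.A i) →₀ M :=
  (T.d g).mapRange (fun n : ℤ => n • m) (zero_smul ℤ m)

theorem dm_apply (g : Γ) (m : M) (e : Σ i, Γ ⧸ T.A i) : T.dm g m e = T.d g e • m :=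
  Finsupp.mapRange_apply ..

theorem dm_mul (g h : Γ) (m : M) :
    T.dm (g * h) m = T.dm g m + Finsupp.mapDomain (fun e : Σ i, Γ ⧸ T.A i => g • e) (T.dm h m) := by
  ext e
  rw [Finsupp.add_apply, dm_apply, dm_apply, d_mul_apply, add_smul]
  congr 1
  have h1 : e = g • (g⁻¹ • e) := by simp
  conv_rhs => rw [h1]
  exact ((Finsupp.mapDomain_apply (MulAction.injective g) (T.dm h m) (g⁻¹ • e)).trans
    (T.dm_apply h m _)).symm

theorem dm_of_d_eq_zero {g : Γ} (hg : T.d g = 0) (m : M) : T.dm g m = 0 := by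
  ext e
  rw [dm_apply, hg, Finsupp.zero_apply, zero_smul, Finsupp.zero_apply]

/-- the boundary -/
noncomputable def bdm (x : (Σ i, Γ ⧸ T.A i) →₀ M) : Γ ⧸ T.F →₀ M :=
  Finsupp.mapDomain T.tgt x - Finsupp.mapDomain T.src x

theorem bdm_zero : T.bdm (0 : (Σ i, Γ ⧸ T.A i) →₀ M) = 0 := by
  simp [bdm]

theorem bdm_add (x y : (Σ i, Γ ⧸ T.A i) →₀ M) : T.bdm (x + y) = T.bdm x + T.bdm y := by
  rw [bdm, bdm, bdm, Finsupp.mapDomain_add, Finsupp.mapDomain_add]
  abel

theorem bdm_smul (g : Γ) (x : (Σ i, Γ ⧸ T.A i) →₀ M) :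
    T.bdm (Finsupp.mapDomain (fun e : Σ i, Γ ⧸ T.A i => g • e) x) =
      Finsupp.mapDomain (fun v : Γ ⧸ T.F => g • v) (T.bdm x) := by
  have h1 : (T.tgt ∘ fun e : Σ i, Γ ⧸ T.A i => g • e) = (fun v : Γ ⧸ T.F => g • v) ∘ T.tgt :=
    funext fun e => T.tgt_smul g e
  have h2 : (T.src ∘ fun e : Σ i, Γ ⧸ T.A i => g • e) = (fun v : Γ ⧸ T.F => g • v) ∘ T.src :=
    funext fun e => T.src_smul g e
  rw [bdm, bdm, ← Finsupp.mapDomain_comp, ← Finsupp.mapDomain_comp, h1, h2,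
    Finsupp.mapDomain_comp, Finsupp.mapDomain_comp]
  exact (map_sub (Finsupp.mapDomain.addMonoidHom (M := M) fun v : Γ ⧸ T.F => g • v) _ _).symm

theorem bdm_dm (g : Γ) (m : M) : T.bdm (T.dm g m) =
    Finsupp.single ((g : Γ) : Γ ⧸ T.F) m - Finsupp.single ((1 : Γ) : Γ ⧸ T.F) m := by
  have hg : g ∈ Subgroup.closure ((T.F : Set Γ) ∪ Set.range T.t) := by
    rw [T.gen]
    exact Subgroup.mem_top g
  have hsub : ∀ (k a b : Γ), Finsupp.mapDomain (fun v : Γ ⧸ T.F => k • v)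
      (Finsupp.single ((a : Γ) : Γ ⧸ T.F) m - Finsupp.single ((b : Γ) : Γ ⧸ T.F) m) =
      Finsupp.single (((k * a : Γ)) : Γ ⧸ T.F) m -
        Finsupp.single (((k * b : Γ)) : Γ ⧸ T.F) m := by
    intro k a b
    have h := map_sub (Finsupp.mapDomain.addMonoidHom (M := M) fun v : Γ ⧸ T.F => k • v)
      (Finsupp.single ((a : Γ) : Γ ⧸ T.F) m) (Finsupp.single ((b : Γ) : Γ ⧸ T.F) m)
    refine h.trans ?_
    change Finsupp.mapDomain _ (Finsupp.single _ m) - Finsupp.mapDomain _ (Finsupp.single _ m) = _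
    rw [Finsupp.mapDomain_single, Finsupp.mapDomain_single]
    rfl
  induction hg using Subgroup.closure_induction with
  | mem x hx =>
    rcases hx with hx | ⟨i, rfl⟩
    · have e : ((x : Γ) : Γ ⧸ T.F) = ((1 : Γ) : Γ ⧸ T.F) := by
        rw [QuotientGroup.eq, mul_one]
        exact T.F.inv_mem hx
      rw [T.dm_of_d_eq_zero (T.d_F x hx), bdm_zero, e, sub_self]
    · have e : T.dm (T.t i) m =
          Finsupp.single (⟨i, ((1 : Γ) : Γ ⧸ T.A i)⟩ : Σ i, Γ ⧸ T.A i) m := by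
        rw [dm, T.d_t, Finsupp.mapRange_single, one_smul]
      rw [e, bdm, Finsupp.mapDomain_single, Finsupp.mapDomain_single, tgt_mk, src_mk, one_mul]
  | one => rw [T.dm_of_d_eq_zero T.d_one, bdm_zero, sub_self]
  | mul x y _ _ ihx ihy =>
    rw [dm_mul, bdm_add, bdm_smul, ihx, ihy, hsub, mul_one]
    abel
  | inv x _ ihx =>
    have h1 := T.dm_mul x⁻¹ x m
    rw [inv_mul_cancel, T.dm_of_d_eq_zero T.d_one] at h1
    have h2 := congrArg T.bdm h1
    rw [bdm_zero, bdm_add, bdm_smul, ihx, hsub, inv_mul_cancel, mul_one] at h2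
    have h3 := eq_neg_of_add_eq_zero_left h2.symm
    rw [h3, neg_sub]

theorem bd_dm (g : Γ) (m : M) :
    Finsupp.mapDomain T.tgt (T.dm g m) - Finsupp.mapDomain T.src (T.dm g m) =
      Finsupp.single ((g : Γ) : Γ ⧸ T.F) m - Finsupp.single ((1 : Γ) : Γ ⧸ T.F) m :=
  T.bdm_dm g m

end TreeData

end CG
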