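import Pool.Agent.Helper32.CG.TreeBd

/-!
# Project CG, module TreeEx

Exactness of `⊕_e L_e → ⊕_v L_v → L`: a chain `ξ` with `ξ v ∈ L_v` and `∑_v ξ v = 0` is the boundary of
a chain `η` with `η e ∈ L_e`.

Proof. For `v : Γ ⧸ F` let `r v = Quotient.out v` (so `(r v : Γ ⧸ F) = v`, `QuotientGroup.out_eq'`)
and put `η = ξ.sum fun v m => T.dm (r v) m`, so `η e = ∑_v d(r v)_e • ξ_v`.
Boundary: by `bd_dm` the boundary of `η` is `∑_v (single v (ξ v) - single F (ξ v)) =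
ξ - single F (∑_v ξ v) = ξ` (`Finsupp.sum_single`).
`η e ∈ L`: clear. `η e` is supported in `Be γ Et e`: let `y` be a point and `c v = ξ v y`; then
`∑_v c v = 0` and `c v ≠ 0` implies `y ∈ B_v`, i.e. `γ(y)⁻¹ v ∈ Vt`. For such `v`
let `h' = γ(y)⁻¹ r(v)`, so `h' F = γ(y)⁻¹ v ∈ Vt` and by `d_mul_apply`
`d(r v)_e = d(γ y)_e + d(h')_{γ(y)⁻¹ e}`. Hence
`(η e) y = ∑_v c v d(r v)_e = d(γ y)_e ∑_v c v + ∑_v c v d(γ(y)⁻¹ r v)_{γ(y)⁻¹ e}`,
the first sum is zero, and if the second is nonzero some `d(h')_{γ(y)⁻¹ e} ≠ 0` with `h' F ∈ Vt`, so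
`γ(y)⁻¹ e ∈ Et` by `Good.sup`, that is `y ∈ Be γ Et e`.
-/

namespace CG

namespace TreeData

variable {Γ : Type} [Group Γ] {T : TreeData Γ} {Y : Type} [MulAction Γ Y] {B : Type} [CommRing B]

theorem exact {Vt : Finset (Γ ⧸ T.F)} {Et : Finset (Σ i, Γ ⧸ T.A i)} (hg : T.Good Vt Et)
    (γ : Y → Γ) (L : Submodule B (Y →₀ B)) (ξ : (Γ ⧸ T.F) →₀ (Y →₀ B))
    (hξ : ∀ v, ξ v ∈ Lv B γ Vt L v) (h0 : (ξ.sum fun _ m => m) = 0) :
    ∃ η : (Σ i, Γ ⧸ T.A i) →₀ (Y →₀ B), (∀ e, η e ∈ Le B γ Et L e) ∧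
      ξ = Finsupp.mapDomain T.tgt η - Finsupp.mapDomain T.src η := by
  classical
  let r : Γ ⧸ T.F → Γ := Quotient.out
  have hr : ∀ v, ((r v : Γ) : Γ ⧸ T.F) = v := QuotientGroup.out_eq'
  let η : (Σ i, Γ ⧸ T.A i) →₀ (Y →₀ B) := ∑ v ∈ ξ.support, T.dm (r v) (ξ v)
  have hηe : ∀ e, η e = ∑ v ∈ ξ.support, T.d (r v) e • ξ v := by
    intro e
    simp only [η, Finsupp.finset_sum_apply, dm_apply]
  have hsum : ∑ v ∈ ξ.support, ξ v = 0 := h0
  refine ⟨η, fun e => ⟨?_, ?_⟩, ?_⟩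
  · rw [hηe]
    exact L.sum_mem fun v _ => zsmul_mem (hξ v).1 _
  · refine mem_supp.2 ?_
    intro y hy
    by_contra hne
    apply hy
    have hne' : (γ y)⁻¹ • e ∉ Et := hne
    have key : ∀ v ∈ ξ.support, (T.d (r v) e • ξ v) y = T.d (γ y) e • (ξ v y) := by
      intro v _
      rw [Finsupp.smul_apply]
      by_cases hc : ξ v y = 0
      · rw [hc, smul_zero, smul_zero]
      · have hyv : (γ y)⁻¹ • v ∈ Vt := (mem_supp.1 (hξ v).2) y hc
        have h1 : T.d (r v) e = T.d (γ y) e + T.d ((γ y)⁻¹ * r v) ((γ y)⁻¹ • e) := by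
          have h2 := T.d_mul_apply (γ y) ((γ y)⁻¹ * r v) e
          rwa [mul_inv_cancel_left] at h2
        have h3 : T.d ((γ y)⁻¹ * r v) ((γ y)⁻¹ • e) = 0 := by
          by_contra h4
          apply hne'
          refine hg.sup ((γ y)⁻¹ * r v) ?_ _ h4
          rw [← smul_vmk, hr]
          exact hyv
        rw [h1, h3, add_zero]
    rw [hηe, Finsupp.finset_sum_apply, Finset.sum_congr rfl key, ← Finset.smul_sum,
      ← Finsupp.finset_sum_apply, hsum, Finsupp.zero_apply, smul_zero]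
  · have e1 : ∀ (f g : (Γ ⧸ T.F) → ((Γ ⧸ T.F) →₀ (Y →₀ B))),
        ∑ v ∈ ξ.support, (f v - g v) = ∑ v ∈ ξ.support, f v - ∑ v ∈ ξ.support, g v :=
      fun f g => Finset.sum_sub_distrib f g
    have h1 : Finsupp.mapDomain T.tgt η - Finsupp.mapDomain T.src η =
        ∑ v ∈ ξ.support, (Finsupp.single v (ξ v) -
          Finsupp.single ((1 : Γ) : Γ ⧸ T.F) (ξ v)) := by
      simp only [η, Finsupp.mapDomain_finset_sum]
      rw [← e1]
      refine Finset.sum_congr rfl fun v _ => ?_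
      rw [bd_dm, hr]
    rw [h1, e1]
    have h2 : ∑ v ∈ ξ.support, Finsupp.single v (ξ v) = ξ := Finsupp.sum_single ξ
    have h3 : ∑ v ∈ ξ.support, Finsupp.single ((1 : Γ) : Γ ⧸ T.F) (ξ v) = 0 := by
      rw [← Finsupp.single_finset_sum, hsum, Finsupp.single_zero]
    rw [h2, h3]
    exact (sub_zero ξ).symm

end TreeData

end CG
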