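import Pool.Agent.Helper32.CG.TreePhi


/-!
# Project CG, module TreeMem

If `m ∈ L` and `Φ_e(m) ∈ L + supported B_e` for all edges `e`, then `m ∈ ⨆ v, L_v`.

Proof: for each `e` choose `Φ_e(m) = l_e + w_e`, `l_e ∈ L`, `w_e ∈ supported B_e`, with
`l_e = w_e = 0` when `Φ_e(m) = 0`. Since `Φ_e(m) ≠ 0` for finitely many `e` only (`phi_finite`),
`l, w : (Σ i, Γ ⧸ A i) →₀ (Y →₀ B)` are finitely supported families (`Finsupp.onFinset`).
Let `ξ = single F m + (mapDomain tgt l - mapDomain src l)`, a finitely supported family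
`(Γ ⧸ F) →₀ (Y →₀ B)` with values in `L` and with sum `m` (the sum of
`mapDomain f l` is the sum of `l`, `Finsupp.sum_mapDomain_index`). On the other hand
`l + w = Φ := ∑_y dm (γ y) (single y (m y))` (compare values at `e`, or apply at `e` and `y`),
whose boundary is `∑_y (single (γ(y) F) (single y (m y)) - single F (single y (m y)))`
(`bd_dm`) and `∑_y single y (m y) = m`, so
`ξ = ∑_y single (γ(y) F) (single y (m y)) - (mapDomain tgt w - mapDomain src w)`.
So `ξ v` is supported in `B_v`: `single y (m y)` is supported in `B_{γ(y) F}` since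
`γ(y)⁻¹ γ(y) F = F ∈ Vt` (`Good.one`), and `w_e ∈ supported B_e`, which is contained in
`supported B_{tgt e}` and in `supported B_{src e}` (`Be_subset_tgt`, `Be_subset_src`). So `ξ v ∈ L_v` and
`m = ∑_v ξ v ∈ ⨆ v, L_v`.
-/

namespace CG

namespace TreeData

variable {Γ : Type} [Group Γ] {T : TreeData Γ} {Y : Type} [MulAction Γ Y] {B : Type} [CommRing B]

theorem mapDomain_mem {E V M : Type} [AddCommGroup M] [Module B M] (P : V → Submodule B M)
    (f : E → V) (x : E →₀ M) (hx : ∀ e, x e ∈ P (f e)) (v : V) :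
    Finsupp.mapDomain f x v ∈ P v := by
  classical
  rw [Finsupp.mapDomain, Finsupp.sum, Finsupp.finsetSum_apply]
  refine Submodule.sum_mem _ fun e _ => ?_
  rw [Finsupp.single_apply]
  split_ifs with h
  · rw [← h]; exact hx e
  · exact Submodule.zero_mem _

theorem sum_bdm {M : Type} [AddCommGroup M] (x : (Σ i, Γ ⧸ T.A i) →₀ M) :
    ((T.bdm x).sum fun _ m => m) = 0 := by
  have h1 : ∀ (f : (Σ i, Γ ⧸ T.A i) → Γ ⧸ T.F),
      ((Finsupp.mapDomain f x).sum fun _ m => m) = x.sum fun _ m => m := by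
    intro f
    rw [Finsupp.sum_mapDomain_index (fun _ => rfl) (fun _ _ _ => rfl)]
  have h2 : ∀ a b : (Γ ⧸ T.F) →₀ M, ((a - b).sum fun _ m => m) =
      (a.sum fun _ m => m) - (b.sum fun _ m => m) := by
    intro a b
    exact Finsupp.sum_sub_index (fun _ _ _ => rfl)
  rw [bdm, h2, h1, h1, sub_self]

theorem mem_of_phi {Vt : Finset (Γ ⧸ T.F)} {Et : Finset (Σ i, Γ ⧸ T.A i)} (hg : T.Good Vt Et)
    (γ : Y → Γ) (L : Submodule B (Y →₀ B)) {m : Y →₀ B} (hm : m ∈ L)
    (h : ∀ e : Σ i, Γ ⧸ T.A i, phi T B γ e m ∈ L ⊔ Finsupp.supported B B (Be γ Et e)) :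
    m ∈ ⨆ v, Lv B γ Vt L v := by
  classical
  have hch : ∀ e : Σ i, Γ ⧸ T.A i, ∃ l w : Y →₀ B, l ∈ L ∧
      w ∈ Finsupp.supported B B (Be γ Et e) ∧ l + w = phi T B γ e m ∧
      (phi T B γ e m = 0 → l = 0 ∧ w = 0) := by
    intro e
    by_cases h0 : phi T B γ e m = 0
    · exact ⟨0, 0, L.zero_mem, Submodule.zero_mem _, by rw [h0, add_zero], fun _ => ⟨rfl, rfl⟩⟩
    · obtain ⟨l, hl, w, hw, hlw⟩ := Submodule.mem_sup.1 (h e)
      exact ⟨l, w, hl, hw, hlw, fun h1 => absurd h1 h0⟩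
  choose l w hl hw hlw h0 using hch
  have hfin := phi_finite (T := T) γ m
  let l' : (Σ i, Γ ⧸ T.A i) →₀ (Y →₀ B) := Finsupp.onFinset hfin.toFinset l (by
    intro e he
    simp only [Set.Finite.mem_toFinset, Set.mem_ofPred_eq]
    intro h1
    exact he (h0 e h1).1)
  let w' : (Σ i, Γ ⧸ T.A i) →₀ (Y →₀ B) := Finsupp.onFinset hfin.toFinset w (by
    intro e he
    simp only [Set.Finite.mem_toFinset, Set.mem_ofPred_eq]
    intro h1
    exact he (h0 e h1).2)
  let Φ : (Σ i, Γ ⧸ T.A i) →₀ (Y →₀ B) := m.sum fun y b => T.dm (γ y) (Finsupp.single y b)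
  have hΦ : ∀ e, Φ e = phi T B γ e m := by
    intro e
    simp only [Φ]
    rw [Finsupp.sum, Finsupp.finsetSum_apply]
    conv_rhs => rw [← Finsupp.sum_single m, Finsupp.sum, map_sum]
    refine Finset.sum_congr rfl fun y _ => ?_
    rw [dm_apply, phi_single, Finsupp.smul_single]
  have hsum : l' + w' = Φ := by
    ext1 e
    rw [Finsupp.add_apply, hΦ]
    exact hlw e
  let ζ : (Γ ⧸ T.F) →₀ (Y →₀ B) :=
    m.sum fun y b => Finsupp.single ((γ y : Γ) : Γ ⧸ T.F) (Finsupp.single y b)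
  let bh : ((Σ i, Γ ⧸ T.A i) →₀ (Y →₀ B)) →+ ((Γ ⧸ T.F) →₀ (Y →₀ B)) :=
    { toFun := T.bdm, map_zero' := T.bdm_zero, map_add' := T.bdm_add }
  have hbΦ : T.bdm Φ = ζ - Finsupp.single ((1 : Γ) : Γ ⧸ T.F) m := by
    have h1 : T.bdm Φ = m.sum fun y b => T.bdm (T.dm (γ y) (Finsupp.single y b)) := by
      change bh Φ = _
      simp only [Φ, Finsupp.sum]
      rw [map_sum]
      rfl
    rw [h1]
    have h2 : (Finsupp.single ((1 : Γ) : Γ ⧸ T.F) m : (Γ ⧸ T.F) →₀ (Y →₀ B)) =
        m.sum fun y b => Finsupp.single ((1 : Γ) : Γ ⧸ T.F) (Finsupp.single y b) := by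
      conv_lhs => rw [← Finsupp.sum_single m]
      simp only [Finsupp.sum]
      exact map_sum (Finsupp.singleAddHom ((1 : Γ) : Γ ⧸ T.F)) _ _
    rw [h2]
    simp only [ζ, Finsupp.sum]
    refine (Finset.sum_congr rfl fun y _ => T.bdm_dm (γ y) _).trans ?_
    exact Finset.sum_sub_distrib _ _
  let ξ : (Γ ⧸ T.F) →₀ (Y →₀ B) := Finsupp.single ((1 : Γ) : Γ ⧸ T.F) m + T.bdm l'
  have hξ : ξ = ζ - T.bdm w' := by
    have h1 : T.bdm l' + T.bdm w' = ζ - Finsupp.single ((1 : Γ) : Γ ⧸ T.F) m := by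
      rw [← hbΦ, ← hsum, T.bdm_add]
    refine Finsupp.ext fun v => Finsupp.ext fun y => ?_
    have h2 : (T.bdm l' + T.bdm w') v y = (ζ - Finsupp.single ((1 : Γ) : Γ ⧸ T.F) m) v y := by
      rw [h1]
    simp only [ξ]
    simp only [Finsupp.add_apply, Finsupp.sub_apply] at h2 ⊢
    linear_combination h2
  have hξL : ∀ v, ξ v ∈ L := by
    intro v
    simp only [ξ]
    rw [Finsupp.add_apply, Finsupp.single_apply]
    refine L.add_mem ?_ ?_
    · split_ifs
      · exact hm
      · exact L.zero_mem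
    · rw [bdm, Finsupp.sub_apply]
      exact L.sub_mem (mapDomain_mem (fun _ => L) _ _ (fun e => hl e) v)
        (mapDomain_mem (fun _ => L) _ _ (fun e => hl e) v)
  have hξB : ∀ v, ξ v ∈ Finsupp.supported B B (Bv γ Vt v) := by
    intro v
    rw [hξ, Finsupp.sub_apply]
    refine Submodule.sub_mem _ ?_ ?_
    · simp only [ζ]
      rw [Finsupp.sum, Finsupp.finsetSum_apply]
      refine Submodule.sum_mem _ fun y _ => ?_
      rw [Finsupp.single_apply]
      split_ifs with hv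
      · refine mem_supp.2 fun z hz => ?_
        have hzy : z = y := by
          by_contra hne
          exact hz (Finsupp.single_eq_of_ne hne)
        rw [hzy, ← hv]
        change (γ y)⁻¹ • ((γ y : Γ) : Γ ⧸ T.F) ∈ Vt
        rw [smul_vmk, inv_mul_cancel]
        exact hg.one
      · exact Submodule.zero_mem _
    · rw [bdm, Finsupp.sub_apply]
      refine Submodule.sub_mem _
        (mapDomain_mem (fun v => Finsupp.supported B B (Bv γ Vt v)) _ _ (fun e => ?_) v)
        (mapDomain_mem (fun v => Finsupp.supported B B (Bv γ Vt v)) _ _ (fun e => ?_) v)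
      · exact Finsupp.supported_mono (Be_subset_tgt hg e) (hw e)
      · exact Finsupp.supported_mono (Be_subset_src hg e) (hw e)
  have hξs : (ξ.sum fun _ m => m) = m := by
    have h1 : ∀ a b : (Γ ⧸ T.F) →₀ (Y →₀ B), ((a + b).sum fun _ m => m) =
        (a.sum fun _ m => m) + (b.sum fun _ m => m) := by
      intro a b
      exact Finsupp.sum_add_index' (fun _ => rfl) (fun _ _ _ => rfl)
    simp only [ξ]
    rw [h1, sum_bdm, add_zero]
    exact Finsupp.sum_single_index rfl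
  rw [← hξs]
  exact Submodule.sum_mem _ fun v _ => Submodule.mem_iSup_of_mem v ⟨hξL v, hξB v⟩

end TreeData

end CG
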