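import Pool.Agent.Helper32.CG.TreePhiDefs

/-!
# Project CG, module TreePhi

`Φ_e(m)(y) = d(γ y)_e • m(y)` (`phi`, `phi_apply`).

* `phi_tr`: `Φ_e(k m) = d(k)_e • (k m) + k Φ_{k⁻¹ e}(m)`. Proof: evaluate at `y`: `γ y = k γ(k⁻¹ y)` and
  `d(k γ(k⁻¹ y))_e = d(k)_e + d(γ(k⁻¹ y))_{k⁻¹ e}` (`d_mul_apply`).
* `phi_mem`: if `m ∈ L_v` then `Φ_e(m) ∈ L + supported B_e`. Proof: let `v = h F`. For `y` in the support
  of `m`, `y ∈ B_v`, so `h' := γ(y)⁻¹ h` has `h' F ∈ Vt` and `d(h)_e = d(γ y)_e + d(h')_{γ(y)⁻¹ e}`. So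
  `Φ_e(m) = d(h)_e • m - w` with `w y = d(γ(y)⁻¹ h)_{γ(y)⁻¹ e} • m y`, and `w y ≠ 0` implies
  `γ(y)⁻¹ e ∈ Et` (`Good.sup`), so `w` is supported in `Be γ Et e`.
* `phi_finite`: `Φ_e(m) ≠ 0` for finitely many `e` only
  (`e` is in the support of `d(γ y)` for some `y` in the support of `m`).
-/

namespace CG

namespace TreeData

variable {Γ : Type} [Group Γ] {T : TreeData Γ} {Y : Type} [MulAction Γ Y] {B : Type} [CommRing B]

theorem phi_tr {γ : Y → Γ} (hγ : ∀ (g : Γ) (y : Y), γ (g • y) = g * γ y)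
    (e : Σ i, Γ ⧸ T.A i) (k : Γ) (m : Y →₀ B) :
    phi T B γ e (tr B k m) = (T.d k e : ℤ) • tr B k m + tr B k (phi T B γ (k⁻¹ • e) m) := by
  ext y
  have h1 : T.d (γ y) e = T.d k e + T.d (γ (k⁻¹ • y)) (k⁻¹ • e) := by
    rw [← T.d_mul_apply, ← hγ, smul_inv_smul]
  rw [phi_apply, Finsupp.add_apply, Finsupp.smul_apply, tr_apply, tr_apply, phi_apply, h1, add_smul]

theorem phi_mem {Vt : Finset (Γ ⧸ T.F)} {Et : Finset (Σ i, Γ ⧸ T.A i)} (hg : T.Good Vt Et)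
    (γ : Y → Γ) (L : Submodule B (Y →₀ B)) {v : Γ ⧸ T.F} {m : Y →₀ B}
    (hm : m ∈ Lv B γ Vt L v) (e : Σ i, Γ ⧸ T.A i) :
    phi T B γ e m ∈ L ⊔ Finsupp.supported B B (Be γ Et e) := by
  obtain ⟨h, rfl⟩ := QuotientGroup.mk_surjective v
  have h1 : phi T B γ e m = (T.d h e : ℤ) • m + (phi T B γ e m - (T.d h e : ℤ) • m) := by
    abel
  rw [h1]
  apply Submodule.add_mem_sup
  · exact L.toAddSubgroup.zsmul_mem hm.1 _
  · rw [mem_supp]
    intro y hy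
    rw [Finsupp.sub_apply, phi_apply, Finsupp.smul_apply, ← sub_smul] at hy
    have hmy : m y ≠ 0 := by
      intro h0
      rw [h0, smul_zero] at hy
      exact hy rfl
    have hd : T.d (γ y) e - T.d h e ≠ 0 := by
      intro h0
      rw [h0, zero_smul] at hy
      exact hy rfl
    have hyB : y ∈ Bv γ Vt ((h : Γ) : Γ ⧸ T.F) := mem_supp.1 hm.2 y hmy
    have hVt : (((γ y)⁻¹ * h : Γ) : Γ ⧸ T.F) ∈ Vt := hyB
    have h2 : T.d h e = T.d (γ y) e + T.d ((γ y)⁻¹ * h) ((γ y)⁻¹ • e) := by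
      rw [← T.d_mul_apply, mul_inv_cancel_left]
    apply hg.sup _ hVt
    intro h0
    rw [h0] at h2
    apply hd
    rw [h2]
    ring

theorem phi_finite (γ : Y → Γ) (m : Y →₀ B) : {e | phi T B γ e m ≠ 0}.Finite := by
  classical
  apply Set.Finite.subset (Finset.finite_toSet (m.support.biUnion (fun y => (T.d (γ y)).support)))
  intro e he
  rw [Set.mem_setOf_eq] at he
  by_contra hne
  apply he
  ext y
  rw [phi_apply, Finsupp.zero_apply]
  by_cases hy : m y = 0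
  · rw [hy, smul_zero]
  · have : T.d (γ y) e = 0 := by
      by_contra h0
      apply hne
      rw [Finset.mem_coe, Finset.mem_biUnion]
      exact ⟨y, Finsupp.mem_support_iff.2 hy, Finsupp.mem_support_iff.2 h0⟩
    rw [this, zero_smul]

end TreeData

end CG
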