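import Pool.Agent.Helper32.CG.TreeBd

/-! Project CG: the operator `Φ_e` (definition, proved). -/

namespace CG

namespace TreeData

variable {Γ : Type} [Group Γ] {T : TreeData Γ} {Y : Type} {B : Type} [CommRing B]

variable (T B) in
/-- `Φ_e(m)(y) = d(γ y)_e • m(y)` -/
noncomputable def phi (γ : Y → Γ) (e : Σ i, Γ ⧸ T.A i) : (Y →₀ B) →ₗ[B] (Y →₀ B) :=
  Finsupp.lsum B (fun y => (T.d (γ y) e : ℤ) • (Finsupp.lsingle y : B →ₗ[B] (Y →₀ B)))

theorem phi_single (γ : Y → Γ) (e : Σ i, Γ ⧸ T.A i) (y : Y) (b : B) :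
    phi T B γ e (Finsupp.single y b) = Finsupp.single y (T.d (γ y) e • b) := by
  simp [phi]

theorem phi_apply (γ : Y → Γ) (e : Σ i, Γ ⧸ T.A i) (m : Y →₀ B) (y : Y) :
    phi T B γ e m y = T.d (γ y) e • m y := by
  classical
  induction m using Finsupp.induction_linear with
  | zero => simp
  | add f g hf hg => rw [map_add, Finsupp.add_apply, hf, hg, Finsupp.add_apply, smul_add]
  | single z b =>
    rw [phi_single]
    by_cases h : z = y
    · subst h; simp
    · simp [h]

end TreeData

end CG
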