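import Pool.Agent.Helper32.CG.TreeMem

/-!
# Project CG, module TreeSep

`Sep B N L (⨆ v, L_v)` when `N` acts freely on the edges.

Proof. Let `m ∈ L`, `m ∉ ⨆ v, L_v`. By `mem_of_phi` there is an edge `e` with
`Φ_e(m) ∉ L ⊔ supported B_e`. Let `E = (Y →₀ B) ⧸ (L ⊔ supported (Be γ Et e))` and
`u(x)(n) = [n⁻¹ Φ_{n e}(x)] ∈ E` for `n : ↥N`.
* Finite support: `Φ_{e'}(x) ≠ 0` for finitely many `e'` only (`phi_finite`) and `n ↦ n • e` is injective
  on `N` (freeness: `n e = n' e` gives `n'⁻¹ n e = e`, so `n = n'`).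
* Additivity: clear (for all `x, y`).
* Equivariance for `x ∈ L`: by `phi_tr`, `n⁻¹ Φ_{n e}(k x) = d(k)_{ne} • (n⁻¹ k x) + (n⁻¹ k) Φ_{k⁻¹ n e}(x)`,
  the first term is in `L`, and the second is the representative of `u(x)(k⁻¹ n)`, as
  `n⁻¹ k = (k⁻¹ n)⁻¹`.
* `u x = 0` for `x ∈ ⨆ v, L_v`: `{x | ∀ e', Φ_{e'}(x) ∈ L ⊔ supported B_{e'}}` is a submodule containing the
  `L_v` (`phi_mem`); so `Φ_{n e}(x) ∈ L ⊔ supported B_{n e}`, and `n⁻¹` maps this
  into `L ⊔ supported B_e` (`tr_mem_supported`, `smul_mem_Be`, `Stb`).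
* `u m 1 = [Φ_e(m)] ≠ 0`.
-/

namespace CG

namespace TreeData

variable {Γ : Type} [Group Γ] {T : TreeData Γ} {Y : Type} [MulAction Γ Y] {B : Type} [CommRing B]

theorem tree_sep {Vt : Finset (Γ ⧸ T.F)} {Et : Finset (Σ i, Γ ⧸ T.A i)} (hg : T.Good Vt Et)
    {γ : Y → Γ} (hγ : ∀ (g : Γ) (y : Y), γ (g • y) = g * γ y) (N : Subgroup Γ)
    (hfree : ∀ (i : T.I) (g : Γ), ∀ n ∈ N, g⁻¹ * n * g ∈ T.A i → n = 1)
    (L : Submodule B (Y →₀ B)) (hL : Stb B (⊤ : Subgroup Γ) L) :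
    Sep B N L (⨆ v, Lv B γ Vt L v) := by
  intro m hm hmn
  obtain ⟨e, he⟩ : ∃ e : Σ i, Γ ⧸ T.A i,
      phi T B γ e m ∉ L ⊔ Finsupp.supported B B (Be γ Et e) := by
    by_contra hcon
    push Not at hcon
    exact hmn (mem_of_phi hg γ L hm hcon)
  -- freeness
  have hinj : Function.Injective (fun n : ↥N => (n : Γ) • e) := by
    intro n n' h
    obtain ⟨i, g, rfl⟩ := T.exists_rep e
    simp only [smul_mk] at h
    have h1 : (((n : Γ) * g : Γ) : Γ ⧸ T.A i) = (((n' : Γ) * g : Γ) : Γ ⧸ T.A i) :=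
      eq_of_heq (Sigma.mk.inj h).2
    rw [QuotientGroup.eq] at h1
    have h2 : g⁻¹ * ((n : Γ)⁻¹ * (n' : Γ)) * g ∈ T.A i := by
      convert h1 using 1
      group
    have h3 := hfree i g _ (N.mul_mem (N.inv_mem n.2) n'.2) h2
    exact Subtype.ext (inv_mul_eq_one.1 h3)
  set K : Submodule B (Y →₀ B) := L ⊔ Finsupp.supported B B (Be γ Et e) with hK
  set f : (Y →₀ B) → ↥N → ((Y →₀ B) ⧸ K) := fun x n =>
    K.mkQ (tr B (n : Γ)⁻¹ (phi T B γ ((n : Γ) • e) x)) with hf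
  have hfin : ∀ x, (Function.support (f x)).Finite := by
    intro x
    refine ((phi_finite (T := T) (B := B) γ x).preimage
      (f := fun n : ↥N => (n : Γ) • e) hinj.injOn).subset ?_
    intro n hn
    simp only [Set.mem_preimage, Set.mem_ofPred_eq]
    intro h0
    apply hn
    simp only [hf, h0, map_zero]
  refine ⟨(Y →₀ B) ⧸ K, inferInstance, fun x => Finsupp.ofSupportFinite (f x) (hfin x),
    ?_, ?_, ?_, ?_⟩
  · intro x _ y _
    ext n
    simp only [Finsupp.ofSupportFinite_coe, Finsupp.add_apply, hf, map_add]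
  · intro n x hx k
    simp only [Finsupp.ofSupportFinite_coe, hf]
    rw [phi_tr hγ, map_add, map_add]
    have h1 : K.mkQ (tr B (k : Γ)⁻¹ ((T.d (n : Γ) ((k : Γ) • e) : ℤ) • tr B (n : Γ) x)) = 0 := by
      rw [Submodule.mkQ_apply, Submodule.Quotient.mk_eq_zero, map_zsmul]
      refine K.toAddSubgroup.zsmul_mem ?_ _
      refine Submodule.mem_sup_left (hL _ (Subgroup.mem_top _) _ (hL _ (Subgroup.mem_top _) _ hx))
    rw [h1, zero_add, ← tr_mul]
    have h2 : ((n⁻¹ * k : ↥N) : Γ) = (n : Γ)⁻¹ * (k : Γ) := rfl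
    rw [h2, mul_inv_rev, inv_inv, ← mul_smul]
  · intro x hx
    have hle : (⨆ v, Lv B γ Vt L v) ≤
        ⨅ e' : Σ i, Γ ⧸ T.A i,
          (L ⊔ Finsupp.supported B B (Be γ Et e')).comap (phi T B γ e') := by
      refine iSup_le fun v y hy => ?_
      rw [Submodule.mem_iInf]
      intro e'
      exact phi_mem hg γ L hy e'
    have hx' := hle hx
    rw [Submodule.mem_iInf] at hx'
    ext n
    simp only [Finsupp.ofSupportFinite_coe, hf, Finsupp.coe_zero, Pi.zero_apply]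
    rw [Submodule.mkQ_apply, Submodule.Quotient.mk_eq_zero]
    obtain ⟨a, ha, b, hb, hab⟩ := Submodule.mem_sup.1 (hx' ((n : Γ) • e))
    rw [← hab, map_add]
    refine Submodule.add_mem_sup (hL _ (Subgroup.mem_top _) _ ha) ?_
    refine tr_mem_supported (fun y hy => ?_) hb
    have := smul_mem_Be hγ hy (n : Γ)⁻¹
    rwa [inv_smul_smul] at this
  · intro h0
    have h1 := DFunLike.congr_fun h0 (1 : ↥N)
    simp only [Finsupp.ofSupportFinite_coe, hf, Finsupp.coe_zero, Pi.zero_apply,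
      OneMemClass.coe_one, inv_one, tr_one, one_smul] at h1
    rw [Submodule.mkQ_apply, Submodule.Quotient.mk_eq_zero] at h1
    exact he h1

end TreeData

end CG
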