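import Pool.Agent.Helper32.CG.LevDefs
import Pool.Agent.Helper32.CG.NoethChain

/-!
# Project CG, module VStep

`Q` is a `G`-set on which `N ⊓ ker p` acts trivially, with a level function `l`, slabs being contained in
finitely many orbits of `S = ker p`; `V i j` is a family of submodules of `Q →₀ B`, monotone, with
`V i j ≤ MM B l i j` and `g V i j ⊆ V (p g + i) (p g + j)` (in particular `S`-stable). Then for all
large `c`: `V (-c-1) 0 ≤ V (-c) 0 ⊔ V (-c-1) (-1)`.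

Proof. Let `z` be an element with `p z = ofAdd 1`.
(1) For `a, b : ℕ` let `W a b = V (-a) b ⊓ MM B l (-a) 0` and `Λ a b = (W a b).map (lpart B l 0)`, an
`S`-stable (`lpart_tr_ker`) submodule of `MM B l 0 0`, monotone in `a, b`. By `noeth_chain` (for the
slab `[0,0]`) and `two_index` there is `A` with `Λ a b = Λ A b` for all `a ≥ A` and all `b`.
(2) The chain `U b = V 0 b ⊓ MM B l 0 A` is stationary from some `b = b₁` on (`noeth_chain`).
(3) Let `c ≥ max A b₁` and `v ∈ V (-c-1) 0`. By induction on `k ≤ c - A + 1` there is `w ∈ V (-c) 0` with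
`v - w ∈ MM B l (-c-1) (-k)`. `k = 0`: `w = 0`. Step from `k ≤ c - A` to `k + 1`: `x := z^k (v - w)`
lies in `V (-c-1+k) k` and in `MM B l (-c-1+k) 0`, i.e. `x ∈ W (c+1-k) k`, and
`Λ (c+1-k) k = Λ A k = Λ (c-k) k` since `c - k ≥ A`. So there is `w' ∈ W (c-k) k` with
`lpart 0 w' = lpart 0 x`; replace `w` by `w + z^{-k} w'`, `z^{-k} w' ∈ V (-c) 0`. Now
`z^k (v - w - z^{-k} w') = x - w'` is in `MM B l (-c-1+k) 0` with zero level `0` part, so it is in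
`MM B l (-c-1+k) (-1)` (`mem_MM_of_lpart_eq_zero`) and `v - w - z^{-k} w' ∈ MM B l (-c-1) (-1-k)`.
(4) With `k = c - A + 1`: `v - w ∈ V (-c-1) 0 ⊓ MM B l (-c-1) (-c-1+A)`, so `z^{c+1} (v - w)` is in
`V 0 (c+1) ⊓ MM B l 0 A = U (c+1) = U b₁ ≤ V 0 b₁`, and `v - w ∈ V (-c-1) (-c-1+b₁) ≤ V (-c-1) (-1)`.
-/

namespace CG

theorem vstep {B : Type} [CommRing B] {G : Type} [Group G] {p : G →* Multiplicative ℤ}
    (hp : Function.Surjective p) {N : Subgroup G}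
    (hNo : NoethAct B ↥p.ker (N.subgroupOf p.ker)) {Q : Type} [MulAction G Q]
    (hN : ∀ n ∈ N ⊓ p.ker, ∀ q : Q, n • q = q) {l : Q → ℤ}
    (hl : ∀ (g : G) (y : Q), l (g • y) = Multiplicative.toAdd (p g) + l y)
    (hslab : ∀ i j : ℤ, ∃ Z' : Finset Q, slab l i j ⊆ orb p.ker (Z' : Set Q))
    (V : ℤ → ℤ → Submodule B (Q →₀ B)) (hV : ∀ i j, V i j ≤ MM B l i j)
    (hVG : ∀ (g : G) (i j : ℤ), ∀ v ∈ V i j,
      tr B g v ∈ V (Multiplicative.toAdd (p g) + i) (Multiplicative.toAdd (p g) + j))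
    (hVm : ∀ i j i' j' : ℤ, i' ≤ i → j ≤ j' → V i j ≤ V i' j') :
    ∃ c0 : ℕ, ∀ c : ℕ, c0 ≤ c → V (-(c : ℤ) - 1) 0 ≤ V (-(c : ℤ)) 0 ⊔ V (-(c : ℤ) - 1) (-1) := by
  obtain ⟨z, hz⟩ := hp (Multiplicative.ofAdd 1)
  have hT : ∀ k : ℤ, Multiplicative.toAdd (p (z ^ k)) = k := by
    intro k
    rw [map_zpow, hz, ← ofAdd_zsmul]
    simp
  have hTV : ∀ (k i j i' j' : ℤ), k + i = i' → k + j = j' → ∀ v ∈ V i j,
      tr B (z ^ k) v ∈ V i' j' := by
    intro k i j i' j' hi hj v hv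
    have := hVG (z ^ k) i j v hv
    rwa [hT, hi, hj] at this
  have hTM : ∀ (k i j i' j' : ℤ), k + i = i' → k + j = j' → ∀ v ∈ MM B l i j,
      tr B (z ^ k) v ∈ MM B l i' j' := by
    intro k i j i' j' hi hj v hv
    have := tr_mem_MM hl hv (z ^ k)
    rwa [hT, hi, hj] at this
  have hTT : ∀ (k : ℤ) (v : Q →₀ B), tr B (z ^ (-k)) (tr B (z ^ k) v) = v := by
    intro k v
    rw [zpow_neg, tr_inv_tr]
  have hTT' : ∀ (k : ℤ) (v : Q →₀ B), tr B (z ^ k) (tr B (z ^ (-k)) v) = v := by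
    intro k v
    rw [zpow_neg, tr_tr_inv]
  have hVS : ∀ i j, Stb B p.ker (V i j) := by
    intro i j g hg v hv
    have := hVG g i j v hv
    rw [MonoidHom.mem_ker.1 hg] at this
    simpa using this
  -- (1)
  let W : ℕ → ℕ → Submodule B (Q →₀ B) := fun a b => V (-(a : ℤ)) b ⊓ MM B l (-(a : ℤ)) 0
  let Λ : ℕ → ℕ → Submodule B (Q →₀ B) := fun a b => (W a b).map (lpart B l 0)
  have hWm : ∀ a a' b b', a ≤ a' → b ≤ b' → W a b ≤ W a' b' := by
    intro a a' b b' ha hb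
    exact inf_le_inf (hVm _ _ _ _ (by omega) (by omega)) (MM_mono (by omega) le_rfl)
  have hΛm : ∀ a a' b b', a ≤ a' → b ≤ b' → Λ a b ≤ Λ a' b' := by
    intro a a' b b' ha hb
    exact Submodule.map_mono (hWm a a' b b' ha hb)
  have hΛS : ∀ a b, Stb B p.ker (Λ a b) := by
    intro a b
    exact Stb.map (lpart B l 0) (fun h hh m => lpart_tr_ker hl 0 hh m)
      ((hVS _ _).inf (stb_MM hl _ _))
  obtain ⟨A, hA⟩ : ∃ A, ∀ a, A ≤ a → ∀ b, Λ a b = Λ A b := by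
    refine two_index Λ hΛm ?_
    intro U hU hUΛ
    obtain ⟨Z', hZ'⟩ := hslab 0 0
    refine noeth_chain hNo hN Z' U hU ?_ ?_
    · intro k
      obtain ⟨a, b, hab⟩ := hUΛ k
      rw [hab]
      refine le_trans ?_ (Finsupp.supported_mono hZ')
      rintro _ ⟨m, -, rfl⟩
      exact lpart_mem 0 m
    · intro k
      obtain ⟨a, b, hab⟩ := hUΛ k
      rw [hab]
      exact hΛS a b
  -- (2)
  obtain ⟨b₁, hb₁⟩ : ∃ b₁ : ℕ, ∀ b : ℕ, b₁ ≤ b →
      V 0 (b : ℤ) ⊓ MM B l 0 (A : ℤ) = V 0 (b₁ : ℤ) ⊓ MM B l 0 (A : ℤ) := by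
    obtain ⟨Z', hZ'⟩ := hslab 0 A
    refine noeth_chain hNo hN Z' (fun b : ℕ => V 0 (b : ℤ) ⊓ MM B l 0 (A : ℤ)) ?_ ?_ ?_
    · intro b b' hbb
      exact inf_le_inf (hVm _ _ _ _ le_rfl (by exact_mod_cast hbb)) le_rfl
    · intro k
      exact le_trans inf_le_right (Finsupp.supported_mono hZ')
    · intro k
      exact (hVS _ _).inf (stb_MM hl _ _)
  refine ⟨max A b₁, fun c hc v hv => ?_⟩
  have hcA : A ≤ c := le_trans (le_max_left _ _) hc
  have hcb : b₁ ≤ c := le_trans (le_max_right _ _) hc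
  -- (3)
  have key : ∀ k : ℕ, k ≤ c - A + 1 → ∃ w ∈ V (-(c : ℤ)) 0,
      v - w ∈ MM B l (-(c : ℤ) - 1) (-(k : ℤ)) := by
    intro k
    induction k with
    | zero =>
      intro _
      refine ⟨0, Submodule.zero_mem _, ?_⟩
      rw [sub_zero]
      have := hV _ _ hv
      simpa using this
    | succ k ih =>
      intro hk
      obtain ⟨w, hw, hvw⟩ := ih (by omega)
      have hu : v - w ∈ V (-(c : ℤ) - 1) 0 :=
        Submodule.sub_mem _ hv (hVm _ _ _ _ (by omega) le_rfl hw)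
      obtain ⟨a, ha⟩ : ∃ a : ℕ, a = c - k := ⟨_, rfl⟩
      have haA : A ≤ a := by omega
      have hac : (a : ℤ) = c - k := by omega
      have hx : tr B (z ^ (k : ℤ)) (v - w) ∈ W (a + 1) k := by
        refine ⟨hTV k _ _ _ _ ?_ ?_ _ hu, hTM k _ _ _ _ ?_ ?_ _ hvw⟩
        · push_cast; omega
        · omega
        · push_cast; omega
        · omega
      have h1 : lpart B l 0 (tr B (z ^ (k : ℤ)) (v - w)) ∈ Λ a k := by
        rw [hA a haA k, ← hA (a + 1) (by omega) k]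
        exact ⟨_, hx, rfl⟩
      obtain ⟨w', hw', hww⟩ := h1
      refine ⟨w + tr B (z ^ (-(k : ℤ))) w', ?_, ?_⟩
      · refine Submodule.add_mem _ hw (hTV (-(k : ℤ)) _ _ _ _ ?_ ?_ _ hw'.1)
        · omega
        · omega
      · have h2 : tr B (z ^ (k : ℤ)) (v - w) - w' ∈ MM B l (-((a + 1 : ℕ) : ℤ)) (0 - 1) := by
          refine mem_MM_of_lpart_eq_zero ?_ ?_
          · refine Submodule.sub_mem _ hx.2 (MM_mono ?_ le_rfl hw'.2)
            push_cast; omega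
          · rw [map_sub, hww, sub_self]
        have h3 := hTM (-(k : ℤ)) _ _ (-(c : ℤ) - 1) (-((k + 1 : ℕ) : ℤ)) (by push_cast; omega)
          (by push_cast; omega) _ h2
        rw [map_sub, hTT] at h3
        rwa [sub_add_eq_sub_sub]
  -- (4)
  obtain ⟨w, hw, hvw⟩ := key (c - A + 1) le_rfl
  have hu : v - w ∈ V (-(c : ℤ) - 1) 0 :=
    Submodule.sub_mem _ hv (hVm _ _ _ _ (by omega) le_rfl hw)
  have h1 : tr B (z ^ ((c : ℤ) + 1)) (v - w) ∈ V 0 ((c + 1 : ℕ) : ℤ) ⊓ MM B l 0 (A : ℤ) := by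
    refine ⟨hTV _ _ _ _ _ ?_ ?_ _ hu, hTM _ _ _ _ _ ?_ ?_ _ hvw⟩
    · omega
    · push_cast; omega
    · omega
    · push_cast [Nat.cast_sub hcA]; omega
  rw [hb₁ (c + 1) (by omega)] at h1
  have h2 := hTV (-((c : ℤ) + 1)) 0 (b₁ : ℤ) (-(c : ℤ) - 1) (-((c : ℤ) + 1) + b₁) (by omega) rfl _
    h1.1
  rw [hTT] at h2
  have h3 : v - w ∈ V (-(c : ℤ) - 1) (-1) := hVm _ _ _ _ le_rfl (by omega) h2
  have h4 : v = w + (v - w) := by abel
  rw [h4]
  exact Submodule.add_mem_sup hw h3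

end CG
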